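import Pool.Agent.MP_0cba1e_an.Defs

/-!
Basic facts about shifts over a group `G`.
-/

namespace Pool.Agent.MP_0cba1e_an

section basic

variable {G A : Type}

theorem closedSet_iff (X : Set (G → A)) :
    ClosedSet X ↔ ∀ x : G → A, (∀ F : Finset G, ∃ y ∈ X, ∀ u ∈ F, y u = x u) → x ∈ X := by
  let _ : TopologicalSpace A := ⊥
  have : DiscreteTopology A := ⟨rfl⟩
  show IsClosed X ↔ _
  rw [← isOpen_compl_iff, isOpen_pi_iff]
  constructor
  · intro h x hx
    by_contra hxX
    obtain ⟨I, u, hu, hsub⟩ := h x hxX
    obtain ⟨y, hyX, hy⟩ := hx I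
    have : y ∈ (I : Set G).pi u := by
      intro a ha
      rw [hy a ha]
      exact (hu a ha).2
    exact hsub this hyX
  · intro h x hx
    have h2 := mt (h x) hx
    push Not at h2
    obtain ⟨F, hF⟩ := h2
    refine ⟨F, fun a => {x a}, fun a _ => ⟨isOpen_discrete _, rfl⟩, ?_⟩
    intro y hy hyX
    obtain ⟨u, hu, hne⟩ := hF y hyX
    exact hne (hy u hu)

variable [AddCommGroup G]

/-- The closure of the orbit of `x`. -/
def orbitClosure (x : G → A) : Set (G → A) :=
  {y | ∀ F : Finset G, ∃ v : G, ∀ u ∈ F, x (u + v) = y u}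

theorem translate_mem_orbitClosure (x : G → A) (v : G) : translate v x ∈ orbitClosure x :=
  fun _ => ⟨v, fun _ _ => rfl⟩

theorem mem_orbitClosure_self (x : G → A) : x ∈ orbitClosure x :=
  fun _ => ⟨0, fun u _ => by rw [add_zero]⟩

theorem isShift_orbitClosure (x : G → A) : IsShift (orbitClosure x) := by
  classical
  refine ⟨⟨x, mem_orbitClosure_self x⟩, ?_, ?_⟩
  · rw [closedSet_iff]
    intro y hy F
    obtain ⟨z, hz, hzy⟩ := hy F
    obtain ⟨v, hv⟩ := hz F
    exact ⟨v, fun u hu => by rw [hv u hu, hzy u hu]⟩
  · intro v y hy F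
    obtain ⟨w, hw⟩ := hy (F.image (fun u => u + v))
    refine ⟨v + w, fun u hu => ?_⟩
    have := hw (u + v) (Finset.mem_image_of_mem _ hu)
    rw [← add_assoc, this]
    rfl

theorem orbitClosure_subset {X : Set (G → A)} (hX : IsShift X) {x : G → A} (hx : x ∈ X) :
    orbitClosure x ⊆ X := by
  intro y hy
  apply (closedSet_iff X).1 hX.closed
  intro F
  obtain ⟨v, hv⟩ := hy F
  exact ⟨translate v x, hX.invariant v x hx, fun u hu => hv u hu⟩

theorem IsShift.union {X Y : Set (G → A)} (hX : IsShift X) (hY : IsShift Y) :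
    IsShift (X ∪ Y) := by
  refine ⟨hX.nonempty.mono Set.subset_union_left, ?_, ?_⟩
  · have h1 := hX.closed
    have h2 := hY.closed
    unfold ClosedSet at *
    let _ : TopologicalSpace A := ⊥
    exact IsClosed.union h1 h2
  · rintro v x (hx | hx)
    · exact Or.inl (hX.invariant v x hx)
    · exact Or.inr (hY.invariant v x hx)

theorem translate_translate (v w : G) (x : G → A) :
    translate v (translate w x) = translate (v + w) x := by
  funext u
  simp only [translate]
  rw [add_assoc]

theorem translate_zero (x : G → A) : translate 0 x = x := by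
  funext u
  simp [translate]

theorem translate_neg_cancel (v : G) (x : G → A) : translate (-v) (translate v x) = x := by
  rw [translate_translate, neg_add_cancel, translate_zero]

/-- A set of configurations given by a local condition on a finite window is of finite type. -/
theorem isSFT_of_window [Finite A] (W : Finset G) (P : (W → A) → Prop) (X : Set (G → A))
    (hX : X = {x | ∀ v : G, P (fun u => x (u + v))}) (hne : X.Nonempty) : IsSFT X := by
  classical
  have hwin : X = {x | ∀ p ∈ {q : Pattern G A | ∃ f : W → A, ¬ P f ∧ q = ⟨W, f⟩},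
      ∀ v : G, ¬ p.AppearsAt x v} := by
    rw [hX]
    ext x
    simp only [Set.mem_ofPred_eq]
    constructor
    · rintro h p ⟨f, hf, rfl⟩ v hp
      apply hf
      have : f = (fun u : W => x (u + v)) := by
        funext u
        exact (hp u).symm
      rw [this]
      exact h v
    · intro h v
      by_contra hP
      exact h ⟨W, fun u => x (u + v)⟩ ⟨_, hP, rfl⟩ v (fun u => rfl)
  refine ⟨⟨hne, ?_, ?_⟩, _, ?_, hwin⟩
  · rw [closedSet_iff, hX]
    intro x hx v
    obtain ⟨y, hy, hyx⟩ := hx (W.image (fun u => u + v))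
    have : (fun u : W => x (u + v)) = (fun u : W => y (u + v)) := by
      funext u
      exact (hyx _ (Finset.mem_image_of_mem _ u.2)).symm
    rw [this]
    exact hy v
  · intro w x hx
    rw [hX] at hx ⊢
    intro v
    have := hx (v + w)
    convert this using 2 with u
    simp only [translate, add_assoc]
  · apply Set.Finite.subset (Set.finite_range (fun f : W → A => (⟨W, f⟩ : Pattern G A)))
    rintro q ⟨f, _, rfl⟩
    exact ⟨f, rfl⟩

end basic

end Pool.Agent.MP_0cba1e_an
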