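import Mathlib

/-!
Basic definitions about shifts over a group `G` (in the results `G = ℤ^d`).
-/

namespace Pool.Agent.MP_0cba1e_an

/-- The translation `(σ^v x)(u) = x (u + v)` acting on configurations `x : G → A`. -/
def translate {G A : Type} [AddCommGroup G] (v : G) (x : G → A) : G → A := fun u => x (u + v)

/-- `X` is closed in `A^G` for the product of the discrete topologies on `A`. -/
def ClosedSet {G A : Type} (X : Set (G → A)) : Prop :=
  @IsClosed (G → A) (@Pi.topologicalSpace G (fun _ => A) (fun _ => ⊥)) X

/-- A shift: a nonempty, closed, translation invariant set of configurations. -/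
structure IsShift {G A : Type} [AddCommGroup G] (X : Set (G → A)) : Prop where
  nonempty : X.Nonempty
  closed : ClosedSet X
  invariant : ∀ v : G, ∀ x ∈ X, translate v x ∈ X

/-- A finite pattern: a finite support together with a letter at each of its points. -/
structure Pattern (G A : Type) where
  supp : Finset G
  letter : supp → A

/-- The pattern `p` appears in the configuration `x` at the place `v`. -/
def Pattern.AppearsAt {G A : Type} [AddCommGroup G] (p : Pattern G A) (x : G → A) (v : G) : Prop :=
  ∀ u : p.supp, x (u + v) = p.letter u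

/-- A shift of finite type: a shift which is the set of all configurations avoiding some finite
set of forbidden finite patterns. -/
def IsSFT {G A : Type} [AddCommGroup G] (X : Set (G → A)) : Prop :=
  IsShift X ∧ ∃ F : Set (Pattern G A), F.Finite ∧ X = {x | ∀ p ∈ F, ∀ v : G, ¬ p.AppearsAt x v}

/-- A subsystem of `X`: a shift properly contained in `X`. -/
def IsSubsystem {G A : Type} [AddCommGroup G] (Y X : Set (G → A)) : Prop :=
  IsShift Y ∧ Y ⊂ X

/-- A maximal subsystem `Y` of `X`: no shift lies strictly between `Y` and `X`. -/
def IsMaximalSubsystem {G A : Type} [AddCommGroup G] (Y X : Set (G → A)) : Prop :=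
  IsSubsystem Y X ∧ ¬ ∃ Z : Set (G → A), IsShift Z ∧ Y ⊂ Z ∧ Z ⊂ X

/-- `Y` is a maximal subsystem of `X`, and `X` has no other one. -/
def IsUniqueMaximalSubsystem {G A : Type} [AddCommGroup G] (Y X : Set (G → A)) : Prop :=
  IsMaximalSubsystem Y X ∧ ∀ Y' : Set (G → A), IsMaximalSubsystem Y' X → Y' = Y

/-- There are a finite alphabet `A` and an infinite sequence `X 0, X 1, X 2, ...` of shifts over
`A`, the first of finite type, each next one the unique maximal subsystem of the preceding one. -/
def HasInfiniteChain (G : Type) [AddCommGroup G] : Prop :=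
  ∃ (A : Type) (_ : Finite A) (X : ℕ → Set (G → A)), IsSFT (X 0) ∧ (∀ n, IsShift (X n)) ∧
    ∀ n, IsUniqueMaximalSubsystem (X (n + 1)) (X n)

/-- The same, where moreover each next shift contains every subsystem of the preceding one. -/
def HasGreatestChain (G : Type) [AddCommGroup G] : Prop :=
  ∃ (A : Type) (_ : Finite A) (X : ℕ → Set (G → A)), IsSFT (X 0) ∧ (∀ n, IsShift (X n)) ∧
    ∀ n, IsUniqueMaximalSubsystem (X (n + 1)) (X n) ∧
      ∀ Y : Set (G → A), IsSubsystem Y (X n) → Y ⊆ X (n + 1)

end Pool.Agent.MP_0cba1e_an
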