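import Pool.Agent.MP_0cba1e_an.RowTypes
import Pool.Agent.MP_0cba1e_an.Basic

/-!
Every valid configuration without outside cells is in the orbit closure of one configuration.
-/

namespace Pool.Agent.MP_0cba1e_an.Rules

open Sy

variable {z : ℤ × ℤ → Sy}

theorem Valid.move (hz : Valid z) (v : ℤ × ℤ) : Valid (translate v z) := by
  intro x t
  have := hz (x + v.1) (t + v.2)
  simp only [translate]
  have e : ∀ a b : ℤ, ((a, b) + v : ℤ × ℤ) = (a + v.1, b + v.2) := fun a b => rfl
  rw [e, e, e, e, e]
  have e1 : x - 2 + v.1 = x + v.1 - 2 := by ring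
  have e2 : x - 1 + v.1 = x + v.1 - 1 := by ring
  have e3 : x + 1 + v.1 = x + v.1 + 1 := by ring
  have e4 : t + 1 + v.2 = t + v.2 + 1 := by ring
  rw [e1, e2, e3, e4]
  exact this

theorem RowP.move {t p : ℤ} {f : Bool} (h : RowP z t p f) (v : ℤ × ℤ) :
    RowP (translate v z) (t - v.2) (p - v.1) f := by
  have e : ∀ x, translate v z (x, t - v.2) = z (x + v.1, t) := by
    intro x
    simp only [translate]
    congr 1
    ext
    · rfl
    · simp
  refine ⟨fun x hx => ?_, fun x hx => ?_⟩
  · rw [e]; exact h.1 _ (by omega)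
  · rw [e]; exact h.2 _ (by omega)

theorem RowS.iter (hz : Valid z) {t : ℤ} {s : ℤ × ℤ × Set ℤ} (hs : Legal s) (h : RowS z t s)
    (n : ℕ) : RowS z (t + n) (step^[n] s) := by
  induction n with
  | zero => simpa using h
  | succ n ih =>
    rw [Function.iterate_succ_apply']
    have := RowS.next hz (hs.iter n) ih
    rw [add_assoc] at this
    push_cast
    exact this

theorem RowP.prev_iter (hz : Valid z) {t p : ℤ} (h : RowP z t p false) (n : ℕ) :
    RowP z (t - ((n + 1 : ℕ) : ℤ)) (p + ((n + 1 : ℕ) : ℤ)) true := by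
  induction n with
  | zero =>
    have h' : RowP z (t - 1 + 1) p false := by rw [sub_add_cancel]; exact h
    simpa using RowP.prev hz h'
  | succ n ih =>
    have e : t - ((n + 1 : ℕ) : ℤ) = t - ((n + 1 + 1 : ℕ) : ℤ) + 1 := by push_cast; ring
    rw [e] at ih
    have := RowP.prev hz ih
    rw [show p + ((n + 1 + 1 : ℕ) : ℤ) = p + ((n + 1 : ℕ) : ℤ) + 1 by push_cast; ring]
    exact this

/-- The diagram without outside cells. -/
noncomputable def yy : ℤ × ℤ → Sy := ww (fun _ => False)

theorem valid_yy : Valid yy := valid_ww (by simp) (by simp)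

theorem turning_ww {u : ℤ → Prop} (hu2 : ∀ x, u x → x < 0) : RowP (ww u) 0 0 false := by
  refine ⟨fun x hx => ?_, fun x hx => ?_⟩
  · rw [ww_zero]; exact rowInf_lt hx
  · rw [ww_zero]; exact rowInf_ge hu2 hx

theorem turning_yy : RowP yy 0 0 false := turning_ww (by simp)

theorem yy_ne_U (v : ℤ × ℤ) : yy v ≠ U := by
  intro h
  have h1 := (valid_yy.col_U v.1 v.2 0).1 h
  rcases lt_or_ge v.1 0 with h2 | h2
  · unfold yy at h1
    rw [ww_zero] at h1
    unfold rowInf at h1
    simp [h2] at h1
  · have := turning_yy.2 v.1 h2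
    rw [this] at h1
    simp at h1

/-- Moving `yy` so that the turning row is at time `t` with marker `p`. -/
theorem exists_turning_yy (p t : ℤ) : RowP (translate (-p, -t) yy) t p false := by
  have := turning_yy.move (-p, -t)
  simpa using this

theorem exists_state_yy {p j : ℤ} {S : Set ℤ} (hfin : S.Finite) (hs : Legal (p, j, S)) (t : ℤ) :
    ∃ v, RowS (translate v yy) t (p, j, S) := by
  obtain ⟨n, hn⟩ := hit' hfin hs
  refine ⟨(-(p - S.ncard - 1), -(t - 1 - n)), ?_⟩
  have h1 := exists_turning_yy (p - S.ncard - 1) (t - 1 - n)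
  have h2 := RowP.next_false (valid_yy.move _) h1
  rw [show p - (S.ncard : ℤ) - 1 + 1 = p - S.ncard by ring] at h2
  have h3 := RowS.iter (valid_yy.move _) ⟨le_rfl, by simp⟩ h2 n
  rw [hn, show t - 1 - (n : ℤ) + 1 + n = t by ring] at h3
  exact h3

theorem translate_yy_ne_U (v u : ℤ × ℤ) : translate v yy u ≠ U := yy_ne_U _

theorem mem_closure_of_windows {y w : ℤ × ℤ → Sy} (h : ∀ r : ℕ, ∃ v : ℤ × ℤ, ∀ x t : ℤ,
    -(r : ℤ) ≤ x → x ≤ r → -(r : ℤ) ≤ t → t ≤ r → translate v y (x, t) = w (x, t)) :
    w ∈ orbitClosure y := by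
  classical
  intro F
  obtain ⟨v, hv⟩ := h (F.sup (fun u => max u.1.natAbs u.2.natAbs))
  refine ⟨v, fun u hu => ?_⟩
  have h1 : max u.1.natAbs u.2.natAbs ≤ F.sup (fun u => max u.1.natAbs u.2.natAbs) :=
    Finset.le_sup (f := fun u : ℤ × ℤ => max u.1.natAbs u.2.natAbs) hu
  have h2 := le_trans (le_max_left _ _) h1
  have h3 := le_trans (le_max_right _ _) h1
  exact hv u.1 u.2 (by omega) (by omega) (by omega) (by omega)

theorem mem_step {s : ℤ × ℤ × Set ℤ} {x : ℤ} (hx : x ≠ s.2.1) :
    x ∈ (step s).2.2 ↔ x ∈ s.2.2 := by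
  obtain ⟨p, j, S⟩ := s
  simp only at hx ⊢
  by_cases hj : j ∈ S
  · rw [step_A hj]
    simp [hx]
  · by_cases hp : j = p
    · subst hp
      rw [step_K hj]
    · rw [step_D hj hp]
      simp [hx]

theorem digits_far {s : ℤ × ℤ × Set ℤ} (hs : Legal s) (n : ℕ) {x : ℤ} (hx : s.2.1 + n ≤ x) :
    x ∈ (step^[n] s).2.2 ↔ x ∈ s.2.2 := by
  induction n with
  | zero => rfl
  | succ n ih =>
    have h1 := head_le hs n
    push_cast at hx
    rw [Function.iterate_succ_apply', mem_step (by omega), ih (by omega)]

/-- truncation of a state -/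
def trunc (R : ℤ) (s : ℤ × ℤ × Set ℤ) : ℤ × ℤ × Set ℤ := (s.1, s.2.1, s.2.2 ∩ Set.Iic R)

theorem step_trunc {R : ℤ} {s : ℤ × ℤ × Set ℤ} (h : s.2.1 ≤ R) :
    step (trunc R s) = trunc R (step s) := by
  obtain ⟨p, j, S⟩ := s
  simp only at h
  unfold trunc
  simp only
  by_cases hj : j ∈ S
  · have hj' : j ∈ S ∩ Set.Iic R := ⟨hj, h⟩
    rw [step_A hj, step_A hj']
    ext1
    · rfl
    · ext1
      · rfl
      · ext x
        simp only [Set.mem_sdiff, Set.mem_inter_iff, Set.mem_Iic, Set.mem_singleton_iff]
        tauto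
  · have hj' : j ∉ S ∩ Set.Iic R := fun h => hj h.1
    by_cases hp : j = p
    · subst hp
      rw [step_K hj, step_K hj']
    · rw [step_D hj hp, step_D hj' hp]
      ext1
      · rfl
      · ext1
        · rfl
        · ext x
          simp only [Set.mem_insert_iff, Set.mem_inter_iff, Set.mem_Iic]
          constructor
          · rintro (rfl | h1)
            · exact ⟨Or.inl rfl, h⟩
            · exact ⟨Or.inr h1.1, h1.2⟩
          · rintro ⟨h1 | h1, h2⟩
            · exact Or.inl h1
            · exact Or.inr ⟨h1, h2⟩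

theorem iter_trunc {R : ℤ} {s : ℤ × ℤ × Set ℤ} (hs : Legal s) (n : ℕ) (h : s.2.1 + n ≤ R + 1) :
    step^[n] (trunc R s) = trunc R (step^[n] s) := by
  induction n with
  | zero => rfl
  | succ n ih =>
    have h1 := head_le hs n
    push_cast at h
    rw [Function.iterate_succ_apply', Function.iterate_succ_apply', ih (by omega),
      step_trunc (by omega)]

theorem legal_trunc {R : ℤ} {s : ℤ × ℤ × Set ℤ} (hs : Legal s) : Legal (trunc R s) :=
  ⟨hs.1, fun x hx => hs.2 x hx.1⟩

theorem finite_trunc {R : ℤ} {s : ℤ × ℤ × Set ℤ} (hs : Legal s) : (trunc R s).2.2.Finite := by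
  apply (Set.finite_Icc s.2.1 R).subset
  rintro x ⟨h1, h2⟩
  exact ⟨hs.2 x h1, h2⟩

theorem sym_trunc {p p' j R x : ℤ} {S S' : Set ℤ} (hj : j ≤ R) (hx : x ≤ R)
    (hSS : ∀ y, y ≤ R → (j ≤ y) → (y ∈ S ↔ y ∈ S')) (hp : j = p ↔ j = p') :
    sym p j S x = sym p' j S' x := by
  rcases lt_trichotomy x j with h | h | h
  · by_cases h1 : j ∈ S
    · rw [sym_lt h h1, sym_lt h ((hSS j hj le_rfl).1 h1)]
    · rw [sym_lt' h h1, sym_lt' h (fun h2 => h1 ((hSS j hj le_rfl).2 h2))]
  · subst h
    by_cases h1 : x ∈ S
    · rw [sym_head_A h1, sym_head_A ((hSS x hj le_rfl).1 h1)]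
    · have h2 : x ∉ S' := fun h2 => h1 ((hSS x hj le_rfl).2 h2)
      by_cases h3 : x = p
      · have h4 := hp.1 h3
        rw [← h3, ← h4, sym_head_K h1, sym_head_K h2]
      · rw [sym_head_D h1 h3, sym_head_D h2 (fun h => h3 (hp.2 h))]
  · by_cases h1 : x ∈ S
    · rw [sym_gt h h1, sym_gt h ((hSS x hx h.le).1 h1)]
    · rw [sym_gt' h h1, sym_gt' h (fun h2 => h1 ((hSS x hx h.le).2 h2))]

theorem isL_no_U {s : Sy} (h : s = C ∨ s = U) (hU : s ≠ U) : s = C := by
  rcases h with h | h
  · exact h
  · exact absurd h hU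

/-- Final phase: digits against a head which stays far to the left. -/
theorem agree_digits {z' : ℤ × ℤ → Sy} (hz : Valid z) (hz' : Valid z') {t : ℤ} {T : Set ℤ}
    {s : ℤ × ℤ × Set ℤ} (hs : Legal s) (h : RowD z t T) (h' : RowS z' t s) {a b : ℤ} {n : ℕ}
    (hfar : s.2.1 + n < a) (hT : ∀ x, a ≤ x → x ≤ b → (x ∈ s.2.2 ↔ x ∈ T)) {x : ℤ}
    (hax : a ≤ x) (hxb : x ≤ b) : z' (x, t + n) = z (x, t + n) := by
  have h1 := RowD.iter hz h n x
  have h2 := RowS.iter hz' hs h' n
  have h3 := head_le hs n
  have hL := hs.iter n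
  have h4 : (step^[n] s).1 ≤ (step^[n] s).2.1 := hL.1
  rw [h2.2 x (by omega)]
  have h5 := digits_far hs n (x := x) (by omega)
  by_cases hx : x ∈ T
  · rw [h1.1 hx, sym_gt (by omega) (h5.2 ((hT x hax hxb).2 hx))]
  · rw [h1.2 hx, sym_gt' (by omega) (fun h6 => hx ((hT x hax hxb).1 (h5.1 h6)))]

theorem mem_closure_yy (hz : Valid z) (hU : ∀ v, z v ≠ U) : z ∈ orbitClosure yy := by
  classical
  apply mem_closure_of_windows
  intro r
  set t0 : ℤ := -(r : ℤ) with ht0
  -- it suffices to look at times `t0 + n`
  suffices h : ∃ v : ℤ × ℤ, ∀ x : ℤ, -(r : ℤ) ≤ x → x ≤ r → ∀ n : ℕ, n ≤ 2 * r →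
      translate v yy (x, t0 + n) = z (x, t0 + n) by
    obtain ⟨v, hv⟩ := h
    refine ⟨v, fun x t h1 h2 h3 h4 => ?_⟩
    have := hv x h1 h2 (t + r).toNat (by omega)
    rwa [show t0 + ((t + r).toNat : ℤ) = t by omega] at this
  rcases row_trichotomy hz t0 with h | h | ⟨p, h1, h2⟩
  · -- everything is `C`
    refine ⟨(-((r : ℤ) + 1), -((r : ℤ) + 1)), fun x hx1 hx2 n hn => ?_⟩
    have hall : ∀ n : ℕ, ∀ x, isL (z (x, t0 + n)) := by
      intro n
      induction n with
      | zero => simpa using h
      | succ n ih =>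
        intro x
        have := all_left_next hz ih x
        rw [add_assoc] at this
        push_cast
        exact this
    rw [isL_no_U (hall n x) (hU _)]
    have h3 := exists_turning_yy ((r : ℤ) + 1) ((r : ℤ) + 1)
    have h4 := RowP.prev_iter (valid_yy.move _) h3 (2 * r - n)
    have e : (r : ℤ) + 1 - ((2 * r - n + 1 : ℕ) : ℤ) = t0 + n := by omega
    rw [e] at h4
    exact isL_no_U (h4.1 x (by omega)) (translate_yy_ne_U _ _)
  · rcases row_no_left hz h with ⟨f, hQ⟩ | ⟨j, S, hH⟩ | ⟨S, hD⟩
    · -- a row of zone symbols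
      by_cases hstop : ∃ n : ℕ, n ≤ 2 * r ∧ RowQ z (t0 + n) false
      · have hex : ∃ n : ℕ, RowQ z (t0 + n) false := by
          obtain ⟨n, _, hn⟩ := hstop; exact ⟨n, hn⟩
        let n0 := Nat.find hex
        have hn0 : RowQ z (t0 + n0) false := Nat.find_spec hex
        have hn0r : n0 ≤ 2 * r := by
          obtain ⟨n, hn1, hn2⟩ := hstop
          exact (Nat.find_min' hex hn2).trans hn1
        have hbefore : ∀ n : ℕ, n < n0 → RowQ z (t0 + n) true := by
          intro n
          induction n with
          | zero =>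
            intro h0
            cases f
            · exact absurd (by simpa using hQ) (Nat.find_min hex h0)
            · simpa using hQ
          | succ n ih =>
            intro hn
            obtain ⟨g, hg⟩ := RowQ.next_true hz (ih (by omega))
            rw [add_assoc] at hg
            have hg' : RowQ z (t0 + ((n + 1 : ℕ) : ℤ)) g := by push_cast; exact hg
            cases g
            · exact absurd hg' (Nat.find_min hex hn)
            · exact hg'
        refine ⟨(-(-(6 * (r : ℤ) + 6)), -(t0 + n0)), fun x hx1 hx2 n hn => ?_⟩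
        have hT := exists_turning_yy (-(6 * (r : ℤ) + 6)) (t0 + n0)
        rcases lt_trichotomy n n0 with h3 | h3 | h3
        · rw [hbefore n h3 x]
          have h4 := RowP.prev_iter (valid_yy.move _) hT (n0 - n - 1)
          rw [show t0 + (n0 : ℤ) - ((n0 - n - 1 + 1 : ℕ) : ℤ) = t0 + n by omega] at h4
          exact h4.2 x (by omega)
        · subst h3
          rw [hn0 x]
          exact hT.2 x (by omega)
        · have h5 := RowP.next_false (valid_yy.move _) hT
          have h6 := RowQ.next_false hz hn0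
          have h7 := agree_digits hz (valid_yy.move _) ⟨le_rfl, by simp⟩ h6 h5
            (a := -(r : ℤ)) (b := r) (n := n - n0 - 1) (by simp only; omega) (by simp) hx1 hx2
          rw [show t0 + (n0 : ℤ) + 1 + ((n - n0 - 1 : ℕ) : ℤ) = t0 + n by omega] at h7
          exact h7
      · push Not at hstop
        have hbefore : ∀ n : ℕ, n ≤ 2 * r → RowQ z (t0 + n) true := by
          intro n
          induction n with
          | zero =>
            intro h0
            cases f
            · exact absurd (by simpa using hQ) (hstop 0 h0)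
            · simpa using hQ
          | succ n ih =>
            intro hn
            obtain ⟨g, hg⟩ := RowQ.next_true hz (ih (by omega))
            rw [add_assoc] at hg
            have hg' : RowQ z (t0 + ((n + 1 : ℕ) : ℤ)) g := by push_cast; exact hg
            cases g
            · exact absurd hg' (hstop _ hn)
            · exact hg'
        refine ⟨(-(-(6 * (r : ℤ) + 6)), -((r : ℤ) + 1)), fun x hx1 hx2 n hn => ?_⟩
        have hT := exists_turning_yy (-(6 * (r : ℤ) + 6)) ((r : ℤ) + 1)
        rw [hbefore n hn x]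
        have h4 := RowP.prev_iter (valid_yy.move _) hT (2 * r - n)
        rw [show (r : ℤ) + 1 - ((2 * r - n + 1 : ℕ) : ℤ) = t0 + n by omega] at h4
        exact h4.2 x (by omega)
    · -- a row with head at `j` and no marker
      set m0 : ℤ := min j (-(r : ℤ)) - (4 * r + 4) with hm0
      set R : ℤ := max j r + 2 * r + 1 with hR
      have hjr : j ≤ max j r := le_max_left _ _
      have hrr : (r : ℤ) ≤ max j r := le_max_right _ _
      have hj1 : min j (-(r : ℤ)) ≤ j := min_le_left _ _
      have hj2 : min j (-(r : ℤ)) ≤ -(r : ℤ) := min_le_right _ _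
      have hL0 : Legal (m0, j, S) := ⟨by simp only; omega, hH.1⟩
      obtain ⟨v, hv⟩ := exists_state_yy (finite_trunc (R := R) hL0) (legal_trunc hL0) t0
      have hv' : RowS (translate v yy) t0 (trunc R (m0, j, S)) := hv
      refine ⟨v, fun x hx1 hx2 n hn => ?_⟩
      have phaseA : ∀ n : ℕ, (∀ i : ℕ, i < n → j + i ∈ S) → n ≤ 2 * r + 1 →
          RowH z (t0 + n) (j + n) (S \ Set.Ico j (j + n)) ∧
          step^[n] (trunc R (m0, j, S)) = (m0 - n, j + n, (S \ Set.Ico j (j + n)) ∩ Set.Iic R) := by
        intro n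
        induction n with
        | zero =>
          intro _ _
          refine ⟨by simpa using hH, by simp [trunc]⟩
        | succ n ih =>
          intro hall hn
          obtain ⟨i1, i2⟩ := ih (fun i hi => hall i (by omega)) (by omega)
          have hmem : j + (n : ℤ) ∈ S \ Set.Ico j (j + n) := ⟨hall n (by omega), by simp⟩
          have hset : (S \ Set.Ico j (j + n)) \ {j + (n : ℤ)} =
              S \ Set.Ico j (j + ((n + 1 : ℕ) : ℤ)) := by
            ext y
            simp only [Set.mem_sdiff, Set.mem_Ico, Set.mem_singleton_iff]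
            push_cast
            constructor
            · rintro ⟨⟨h1, h2⟩, h3⟩
              exact ⟨h1, fun h => by omega⟩
            · rintro ⟨h1, h2⟩
              exact ⟨⟨h1, fun h => by omega⟩, fun h => by omega⟩
          constructor
          · have := RowH.next_A hz i1 hmem
            rw [hset] at this
            rw [show t0 + ((n + 1 : ℕ) : ℤ) = t0 + n + 1 by push_cast; ring,
              show j + ((n + 1 : ℕ) : ℤ) = j + n + 1 by push_cast; ring]
            rw [show j + ((n + 1 : ℕ) : ℤ) = j + n + 1 by push_cast; ring] at this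
            exact this
          · rw [Function.iterate_succ_apply', i2]
            have hmem' : j + (n : ℤ) ∈ (S \ Set.Ico j (j + n)) ∩ Set.Iic R :=
              ⟨hmem, by simp only [Set.mem_Iic]; omega⟩
            rw [step_A hmem', ← hset]
            ext1
            · simp only; push_cast; ring
            · ext1
              · simp only; push_cast; ring
              · ext y
                simp only [Set.mem_sdiff, Set.mem_inter_iff, Set.mem_Iic, Set.mem_singleton_iff]
                tauto
      by_cases hrun : ∀ i : ℕ, i < n → j + i ∈ S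
      · obtain ⟨i1, i2⟩ := phaseA n hrun (by omega)
        have h3 := RowS.iter (valid_yy.move v) (legal_trunc hL0) hv' n
        rw [i2] at h3
        rw [h3.2 x (by simp only; omega), i1.2 x]
        simp only
        apply sym_trunc (R := R) (by omega) (by omega)
        · intro y hy1 _
          simp only [Set.mem_inter_iff, Set.mem_Iic, hy1, and_true]
        · constructor
          · intro h; omega
          · intro h; omega
      · push Not at hrun
        have hex : ∃ i : ℕ, j + i ∉ S := by
          obtain ⟨i, _, hi⟩ := hrun; exact ⟨i, hi⟩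
        let n0 := Nat.find hex
        have hn0 : j + n0 ∉ S := Nat.find_spec hex
        have hn0n : n0 < n := by
          obtain ⟨i, hi1, hi2⟩ := hrun
          exact lt_of_le_of_lt (Nat.find_min' hex hi2) hi1
        have hbefore : ∀ i : ℕ, i < n0 → j + i ∈ S := by
          intro i hi
          by_contra h3
          exact Nat.find_min hex hi h3
        obtain ⟨i1, i2⟩ := phaseA n0 hbefore (by omega)
        have hnot : j + (n0 : ℤ) ∉ S \ Set.Ico j (j + n0) := fun h => hn0 h.1
        have hnot' : j + (n0 : ℤ) ∉ (S \ Set.Ico j (j + n0)) ∩ Set.Iic R := fun h => hn0 h.1.1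
        have h3 := RowS.iter (valid_yy.move v) (legal_trunc hL0) hv' n0
        have hL3 := (legal_trunc (R := R) hL0).iter n0
        rw [i2] at h3 hL3
        have h4 := RowS.next (valid_yy.move v) hL3 h3
        have hL4 := hL3.nxt
        rw [step_D hnot' (by omega)] at h4 hL4
        have h5 := RowH.next_D hz i1 hnot
        have h6 := agree_digits hz (valid_yy.move v) hL4 h5 h4 (a := -(r : ℤ)) (b := r)
          (n := n - n0 - 1) (by simp only; omega) (by
            intro y hy1 hy2
            simp only [Set.mem_insert_iff, Set.mem_inter_iff, Set.mem_Iic,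
              show y ≤ R by omega, and_true]) hx1 hx2
        rw [show t0 + (n0 : ℤ) + 1 + ((n - n0 - 1 : ℕ) : ℤ) = t0 + n by omega] at h6
        exact h6
    · -- a row of digits
      have hfin : (S ∩ Set.Icc (-(r : ℤ)) r).Finite := (Set.finite_Icc _ _).inter_of_right _
      have hL0 : Legal (-(4 * (r : ℤ) + 4), -(4 * (r : ℤ) + 4), S ∩ Set.Icc (-(r : ℤ)) r) := by
        refine ⟨le_rfl, ?_⟩
        rintro y ⟨_, hy⟩
        have := hy.1
        simp only; omega
      obtain ⟨v, hv⟩ := exists_state_yy hfin hL0 t0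
      refine ⟨v, fun x hx1 hx2 n hn => ?_⟩
      exact agree_digits hz (valid_yy.move v) hL0 hD hv (a := -(r : ℤ)) (b := r)
        (by simp only; omega) (by
          intro y hy1 hy2
          simp only [Set.mem_inter_iff, Set.mem_Icc, hy1, hy2, and_true]) hx1 hx2
  · rcases row_marker hz h1 h2 with ⟨f, hP⟩ | ⟨j, S, hL, hS⟩
    · by_cases hstop : ∃ n : ℕ, n ≤ 2 * r ∧ RowP z (t0 + n) (p - n) false
      · -- `z` itself is a translate of `yy`
        obtain ⟨n0, _, hn0⟩ := hstop
        have h3 := hn0.move (p - n0, t0 + n0)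
        simp only [sub_self] at h3
        have h4 := (hz.move (p - n0, t0 + n0)).eq_ww h3
        have h5 : (fun x => translate (p - (n0 : ℤ), t0 + (n0 : ℤ)) z (x, 0) = U) =
            fun _ => False := by
          funext x
          simp only [eq_iff_iff, iff_false]
          exact hU _
        rw [h5] at h4
        refine ⟨-(p - (n0 : ℤ), t0 + (n0 : ℤ)), fun x _ _ n _ => ?_⟩
        have h6 : translate (p - (n0 : ℤ), t0 + (n0 : ℤ)) z = yy := h4
        rw [← h6, translate_neg_cancel]
      · push Not at hstop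
        have hbefore : ∀ n : ℕ, n ≤ 2 * r → RowP z (t0 + n) (p - n) true := by
          intro n
          induction n with
          | zero =>
            intro h0
            cases f
            · exact absurd (by simpa using hP) (hstop 0 h0)
            · simpa using hP
          | succ n ih =>
            intro hn
            obtain ⟨g, hg⟩ := RowP.next_true hz (ih (by omega))
            have hg' : RowP z (t0 + ((n + 1 : ℕ) : ℤ)) (p - ((n + 1 : ℕ) : ℤ)) g := by
              rw [show t0 + ((n + 1 : ℕ) : ℤ) = t0 + n + 1 by push_cast; ring,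
                show p - ((n + 1 : ℕ) : ℤ) = p - n - 1 by push_cast; ring]
              exact hg
            cases g
            · exact absurd hg' (hstop _ hn)
            · exact hg'
        refine ⟨(-(p - (2 * (r : ℤ) + 1)), -((r : ℤ) + 1)), fun x hx1 hx2 n hn => ?_⟩
        have hT := exists_turning_yy (p - (2 * (r : ℤ) + 1)) ((r : ℤ) + 1)
        have h4 := RowP.prev_iter (valid_yy.move _) hT (2 * r - n)
        rw [show (r : ℤ) + 1 - ((2 * r - n + 1 : ℕ) : ℤ) = t0 + n by omega,
          show p - (2 * (r : ℤ) + 1) + ((2 * r - n + 1 : ℕ) : ℤ) = p - n by omega] at h4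
        have h5 := hbefore n hn
        rcases lt_or_ge x (p - n) with h6 | h6
        · rw [isL_no_U (h4.1 x h6) (translate_yy_ne_U _ _), isL_no_U (h5.1 x h6) (hU _)]
        · rw [h4.2 x h6, h5.2 x h6]
    · set R : ℤ := max j r + 2 * r + 1 with hR
      have hjr : j ≤ max j r := le_max_left _ _
      have hrr : (r : ℤ) ≤ max j r := le_max_right _ _
      obtain ⟨v, hv⟩ := exists_state_yy (finite_trunc (R := R) hL) (legal_trunc hL) t0
      have hv' : RowS (translate v yy) t0 (trunc R (p, j, S)) := hv
      refine ⟨v, fun x hx1 hx2 n hn => ?_⟩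
      have h3 := RowS.iter (valid_yy.move v) (legal_trunc hL) hv' n
      have h4 := RowS.iter hz hL hS n
      rw [iter_trunc hL n (by simp only; omega)] at h3
      have h5 := head_le hL n
      simp only at h5
      rcases lt_or_ge x (step^[n] (p, j, S)).1 with h6 | h6
      · rw [isL_no_U (h3.1 x h6) (translate_yy_ne_U _ _), isL_no_U (h4.1 x h6) (hU _)]
      · rw [h3.2 x h6, h4.2 x h6]
        unfold trunc
        simp only
        apply sym_trunc (R := R) (by omega) (by omega)
        · intro y hy1 _
          simp only [Set.mem_inter_iff, Set.mem_Iic, hy1, and_true]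
        · rfl

end Pool.Agent.MP_0cba1e_an.Rules
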