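import Pool.Agent.MP_0cba1e_an.Orbits

/-!
The explicit diagrams of the machine of `Rules`, their validity and their uniqueness.
-/

namespace Pool.Agent.MP_0cba1e_an.Rules

open Sy

open Classical in
/-- Row with marker, head and ones given by `s`, outside cells given by `u`. -/
noncomputable def rowFn (u : ℤ → Prop) (s : ℤ × ℤ × Set ℤ) (x : ℤ) : Sy :=
  if u x then U else if x < s.1 then C else sym s.1 s.2.1 s.2.2 x

open Classical in
/-- Row with marker `p` followed by zone symbols only. -/
noncomputable def rowInf (u : ℤ → Prop) (p : ℤ) (f : Bool) (x : ℤ) : Sy :=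
  if u x then U else if x < p then C else P f

theorem sym_cases {p j : ℤ} {S : Set ℤ} (x : ℤ) :
    (x < j ∧ ((j ∈ S ∧ sym p j S x = P true) ∨ (j ∉ S ∧ sym p j S x = P false))) ∨
    (x = j ∧ ((j ∈ S ∧ sym p j S x = A) ∨ (j ∉ S ∧ j = p ∧ sym p j S x = K) ∨
      (j ∉ S ∧ j ≠ p ∧ sym p j S x = D))) ∨
    (j < x ∧ ((x ∈ S ∧ sym p j S x = N) ∨ (x ∉ S ∧ sym p j S x = Z))) := by
  rcases lt_trichotomy x j with h | h | h
  · left
    refine ⟨h, ?_⟩
    by_cases hj : j ∈ S
    · exact Or.inl ⟨hj, sym_lt h hj⟩
    · exact Or.inr ⟨hj, sym_lt' h hj⟩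
  · right; left
    refine ⟨h, ?_⟩
    subst h
    by_cases hj : x ∈ S
    · exact Or.inl ⟨hj, sym_head_A hj⟩
    · by_cases hp : x = p
      · subst hp
        exact Or.inr (Or.inl ⟨hj, rfl, sym_head_K hj⟩)
      · exact Or.inr (Or.inr ⟨hj, hp, sym_head_D hj hp⟩)
  · right; right
    refine ⟨h, ?_⟩
    by_cases hx : x ∈ S
    · exact Or.inl ⟨hx, sym_gt h hx⟩
    · exact Or.inr ⟨hx, sym_gt' h hx⟩

theorem sym_lt_ex {p j x : ℤ} {S : Set ℤ} (h : x < j) : ∃ f, sym p j S x = P f := by
  unfold sym
  rw [if_pos h]
  exact ⟨_, rfl⟩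

section valid

variable {u : ℤ → Prop}

theorem hor_sym {p j : ℤ} {S : Set ℤ} (hpj : p ≤ j) {x : ℤ} (hx : p ≤ x) :
    hor (sym p j S x) (sym p j S (x + 1)) := by
  rcases sym_cases (p := p) (j := j) (S := S) x with ⟨h1, h2⟩ | ⟨h1, h2⟩ | ⟨h1, h2⟩ <;>
  rcases sym_cases (p := p) (j := j) (S := S) (x + 1) with ⟨h3, h4⟩ | ⟨h3, h4⟩ | ⟨h3, h4⟩ <;>
  try omega
  · rcases h2 with ⟨h, e⟩ | ⟨h, e⟩ <;> rcases h4 with ⟨h', e'⟩ | ⟨h', e'⟩ <;>
      first | exact absurd h h' | exact absurd h' h | (rw [e, e']; simp [hor])
  · rcases h2 with ⟨h, e⟩ | ⟨h, e⟩ <;> rcases h4 with ⟨h', e'⟩ | ⟨h', h5, e'⟩ | ⟨h', h5, e'⟩ <;>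
      first | exact absurd h h' | exact absurd h' h | omega | (rw [e, e']; simp [hor])
  · rcases h2 with ⟨h, e⟩ | ⟨h, h5, e⟩ | ⟨h, h5, e⟩ <;> rcases h4 with ⟨h', e'⟩ | ⟨h', e'⟩ <;>
      (rw [e, e']; simp [hor])
  · rcases h2 with ⟨h, e⟩ | ⟨h, e⟩ <;> rcases h4 with ⟨h', e'⟩ | ⟨h', e'⟩ <;>
      (rw [e, e']; simp [hor])

theorem hor_rowFn (hu1 : ∀ x y, y ≤ x → u x → u y) {s : ℤ × ℤ × Set ℤ} (hs : Legal s)
    (hu2 : ∀ x, u x → x < s.1 - 1) (x : ℤ) : hor (rowFn u s x) (rowFn u s (x + 1)) := by
  obtain ⟨p, j, S⟩ := s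
  have hpj : p ≤ j := hs.1
  simp only at hu2
  unfold rowFn
  simp only
  by_cases h1 : u (x + 1)
  · have h2 := hu1 (x + 1) x (by omega) h1
    rw [if_pos h1, if_pos h2]
    simp [hor]
  · rw [if_neg h1]
    by_cases h2 : u x
    · have := hu2 x h2
      rw [if_pos h2, if_pos (by omega)]
      simp [hor]
    · rw [if_neg h2]
      rcases lt_trichotomy (x + 1) p with h3 | h3 | h3
      · rw [if_pos h3, if_pos (by omega)]
        simp [hor]
      · rw [if_neg (by omega : ¬ x + 1 < p), if_pos (by omega : x < p)]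
        rcases sym_cases (p := p) (j := j) (S := S) (x + 1) with ⟨h3, h4⟩ | ⟨h3, h4⟩ | ⟨h3, h4⟩
        · rcases h4 with ⟨h', e'⟩ | ⟨h', e'⟩ <;> (rw [e']; simp [hor])
        · rcases h4 with ⟨h', e'⟩ | ⟨h', h5, e'⟩ | ⟨h', h5, e'⟩
          · rw [e']; simp [hor]
          · rw [e']; simp [hor]
          · omega
        · omega
      · rw [if_neg (by omega), if_neg (by omega)]
        exact hor_sym hpj (by omega)

theorem hor_rowInf (hu1 : ∀ x y, y ≤ x → u x → u y) {p : ℤ} {f : Bool}
    (hu2 : ∀ x, u x → x < p) (hu3 : f = true → ∀ x, u x → x < p - 1) (x : ℤ) :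
    hor (rowInf u p f x) (rowInf u p f (x + 1)) := by
  unfold rowInf
  by_cases h1 : u (x + 1)
  · have h2 := hu1 (x + 1) x (by omega) h1
    rw [if_pos h1, if_pos h2]
    simp [hor]
  · rw [if_neg h1]
    by_cases h2 : u x
    · have h4 := hu2 x h2
      rw [if_pos h2]
      by_cases h3 : x + 1 < p
      · rw [if_pos h3]
        simp [hor]
      · rw [if_neg h3]
        cases f
        · simp [hor]
        · have := hu3 rfl x h2
          omega
    · rw [if_neg h2]
      rcases lt_trichotomy (x + 1) p with h3 | h3 | h3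
      · rw [if_pos h3, if_pos (by omega)]
        simp [hor]
      · rw [if_neg (by omega : ¬ x + 1 < p), if_pos (by omega : x < p)]
        cases f <;> simp [hor]
      · rw [if_neg (by omega), if_neg (by omega)]
        cases f <;> simp [hor]

theorem rowFn_lt {s : ℤ × ℤ × Set ℤ} {x : ℤ} (h : x < s.1) :
    rowFn u s x = C ∨ rowFn u s x = U := by
  unfold rowFn
  by_cases h1 : u x
  · rw [if_pos h1]; exact Or.inr rfl
  · rw [if_neg h1, if_pos h]; exact Or.inl rfl

theorem rowInf_lt {p : ℤ} {f : Bool} {x : ℤ} (h : x < p) :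
    rowInf u p f x = C ∨ rowInf u p f x = U := by
  unfold rowInf
  by_cases h1 : u x
  · rw [if_pos h1]; exact Or.inr rfl
  · rw [if_neg h1, if_pos h]; exact Or.inl rfl

theorem rowFn_ge {s : ℤ × ℤ × Set ℤ} (hu : ∀ x, u x → x < s.1) {x : ℤ} (h : s.1 ≤ x) :
    rowFn u s x = sym s.1 s.2.1 s.2.2 x := by
  unfold rowFn
  rw [if_neg (fun h1 => by have := hu x h1; omega), if_neg (by omega)]

theorem rowInf_ge {p : ℤ} {f : Bool} (hu : ∀ x, u x → x < p) {x : ℤ} (h : p ≤ x) :
    rowInf u p f x = P f := by
  unfold rowInf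
  rw [if_neg (fun h1 => by have := hu x h1; omega), if_neg (by omega)]

theorem ver_rowFn {s : ℤ × ℤ × Set ℤ} (hs : Legal s)
    (hu2 : ∀ x, u x → x < s.1 - 1) (x : ℤ) :
    ver (rowFn u s (x - 2)) (rowFn u s (x - 1)) (rowFn u s x) (rowFn u s (x + 1))
      (rowFn u (step s) x) := by
  classical
  obtain ⟨p, j, S⟩ := s
  have hpj : p ≤ j := hs.1
  have hS : ∀ x ∈ S, j ≤ x := hs.2
  simp only at hu2
  have hu3 : ∀ x, u x → x < (p, j, S).1 := fun x hx => by have := hu2 x hx; simp only; omega
  by_cases hux : u x
  · have h1 : rowFn u (p, j, S) x = U := by unfold rowFn; rw [if_pos hux]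
    have h2 : rowFn u (step (p, j, S)) x = U := by unfold rowFn; rw [if_pos hux]
    rw [h1, h2]
    rfl
  have hge : ∀ y, p ≤ y → rowFn u (p, j, S) y = sym p j S y := fun y hy => rowFn_ge hu3 hy
  have hlt : ∀ y, y < p → rowFn u (p, j, S) y = C ∨ rowFn u (p, j, S) y = U :=
    fun y hy => rowFn_lt hy
  have hC : x < p → rowFn u (p, j, S) x = C := by
    intro h
    unfold rowFn
    rw [if_neg hux, if_pos h]
  by_cases hj : j ∈ S
  · rw [step_A hj]
    have hge' : p - 1 ≤ x → rowFn u (p - 1, j + 1, S \ {j}) x = sym (p - 1) (j + 1) (S \ {j}) x := by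
      intro h
      unfold rowFn
      rw [if_neg hux, if_neg (by simp only; omega)]
    have hlt' : x < p - 1 → rowFn u (p - 1, j + 1, S \ {j}) x = C := by
      intro h
      unfold rowFn
      rw [if_neg hux, if_pos h]
    rcases lt_trichotomy x (p - 1) with h1 | h1 | h1
    · rw [hC (by omega), hlt' h1]
      rcases hlt (x + 1) (by omega) with h2 | h2 <;> rw [h2] <;> simp [ver]
    · rw [hC (by omega), hge' (by omega), hge (x + 1) (by omega)]
      have h2 : sym p j S (x + 1) = P true ∨ sym p j S (x + 1) = A := by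
        rcases lt_or_ge (x + 1) j with h3 | h3
        · exact Or.inl (sym_lt h3 hj)
        · rw [show x + 1 = j by omega]; exact Or.inr (sym_head_A hj)
      simp only [ver, h2, if_true]
      exact sym_lt_ex (by omega)
    · rw [hge x (by omega), hge' (by omega)]
      rcases lt_trichotomy x j with h2 | h2 | h2
      · rw [sym_lt h2 hj]
        exact sym_lt_ex (by omega)
      · subst h2
        rw [sym_head_A hj]
        exact sym_lt_ex (by omega)
      · rw [hge (x - 1) (by omega)]
        rcases eq_or_ne x (j + 1) with h3 | h3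
        · subst h3
          rw [show j + 1 - 1 = j by ring, sym_head_A hj]
          by_cases hx : j + 1 ∈ S
          · rw [sym_gt h2 hx, sym_head_A (S := S \ {j}) ⟨hx, by simp⟩]
            simp [ver]
          · rw [sym_gt' h2 hx, sym_head_D (S := S \ {j}) (fun h => hx h.1) (by omega)]
            simp [ver]
        · have h4 : sym p j S (x - 1) ≠ A ∧ sym p j S (x - 1) ≠ K := by
            by_cases h3 : x - 1 ∈ S
            · rw [sym_gt (by omega) h3]; simp
            · rw [sym_gt' (by omega) h3]; simp
          by_cases hx : x ∈ S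
          · rw [sym_gt h2 hx, sym_gt (S := S \ {j}) (by omega) ⟨hx, by simp; omega⟩]
            simp [ver, h4.1, h4.2]
          · rw [sym_gt' h2 hx, sym_gt' (S := S \ {j}) (by omega) (fun h => hx h.1)]
            simp [ver, h4.1, h4.2]
  · by_cases hp : j = p
    · subst hp
      rw [step_K hj]
      have hge' : j ≤ x → rowFn u (j, j + 1, S) x = sym j (j + 1) S x := by
        intro h
        unfold rowFn
        rw [if_neg hux, if_neg (by simp only; omega)]
      have hlt' : x < j → rowFn u (j, j + 1, S) x = C := by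
        intro h
        unfold rowFn
        rw [if_neg hux, if_pos h]
      rcases lt_trichotomy x j with h1 | h1 | h1
      · rw [hC (by omega), hlt' h1]
        rcases lt_or_ge (x + 1) j with h2 | h2
        · rcases hlt (x + 1) (by omega) with h2 | h2 <;> rw [h2] <;> simp [ver]
        · rw [hge (x + 1) (by omega), show x + 1 = j by omega, sym_head_K hj]
          simp [ver]
      · subst h1
        rw [hge x le_rfl, hge' le_rfl, sym_head_K hj]
        exact sym_lt_ex (by omega)
      · rw [hge x (by omega), hge' (by omega), hge (x - 1) (by omega)]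
        rcases eq_or_ne x (j + 1) with h3 | h3
        · subst h3
          rw [show j + 1 - 1 = j by ring, sym_head_K hj]
          by_cases hx : j + 1 ∈ S
          · rw [sym_gt h1 hx, sym_head_A hx]
            simp [ver]
          · rw [sym_gt' h1 hx, sym_head_D hx (by omega)]
            simp [ver]
        · have h4 : sym j j S (x - 1) ≠ A ∧ sym j j S (x - 1) ≠ K := by
            by_cases h3 : x - 1 ∈ S
            · rw [sym_gt (by omega) h3]; simp
            · rw [sym_gt' (by omega) h3]; simp
          by_cases hx : x ∈ S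
          · rw [sym_gt h1 hx, sym_gt (by omega) hx]
            simp [ver, h4.1, h4.2]
          · rw [sym_gt' h1 hx, sym_gt' (by omega) hx]
            simp [ver, h4.1, h4.2]
    · have hplt : p < j := lt_of_le_of_ne hpj (Ne.symm hp)
      rw [step_D hj hp]
      have hge' : p + 1 ≤ x → rowFn u (p + 1, p + 1, insert j S) x =
          sym (p + 1) (p + 1) (insert j S) x := by
        intro h
        unfold rowFn
        rw [if_neg hux, if_neg (by simp only; omega)]
      have hlt' : x < p + 1 → rowFn u (p + 1, p + 1, insert j S) x = C := by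
        intro h
        unfold rowFn
        rw [if_neg hux, if_pos h]
      rcases lt_trichotomy x p with h1 | h1 | h1
      · rw [hC (by omega), hlt' (by omega)]
        rcases lt_or_ge (x + 1) p with h2 | h2
        · rcases hlt (x + 1) (by omega) with h2 | h2 <;> rw [h2] <;> simp [ver]
        · rw [hge (x + 1) (by omega), show x + 1 = p by omega, sym_lt' hplt hj]
          simp [ver]
      · subst h1
        rw [hge x le_rfl, hlt' (by omega), sym_lt' hplt hj]
        have h2 := hlt (x - 1) (by omega)
        simp [ver, h2]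
      · rw [hge x (by omega), hge' (by omega)]
        rcases lt_trichotomy x j with h2 | h2 | h2
        · rw [hge (x - 1) (by omega), sym_lt' h2 hj, sym_lt' (by omega) hj]
          rcases eq_or_ne x (p + 1) with h3 | h3
          · subst h3
            have h4 := hlt (p + 1 - 2) (by omega)
            rw [sym_head_K (by
              rintro (h | h)
              · omega
              · have := hS _ h; omega)]
            simp [ver, h4]
          · rw [hge (x - 2) (by omega), sym_lt' (by omega) hj, sym_gt' (by omega) (by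
              rintro (h | h)
              · omega
              · have := hS _ h; omega)]
            simp [ver]
        · subst h2
          rw [sym_head_D hj hp]
          rcases eq_or_ne x (p + 1) with h3 | h3
          · subst h3
            have h4 := hlt (p + 1 - 2) (by omega)
            rw [sym_head_A (Set.mem_insert _ _)]
            simp [ver, h4]
          · rw [hge (x - 2) (by omega), sym_lt' (by omega) hj,
              sym_gt (by omega) (Set.mem_insert _ _)]
            simp [ver]
        · have h4 : rowFn u (p, j, S) (x - 1) ≠ A ∧ rowFn u (p, j, S) (x - 1) ≠ K := by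
            rw [hge (x - 1) (by omega)]
            rcases eq_or_ne x (j + 1) with h3 | h3
            · subst h3
              rw [show j + 1 - 1 = j by ring, sym_head_D hj hp]; simp
            · by_cases h3 : x - 1 ∈ S
              · rw [sym_gt (by omega) h3]; simp
              · rw [sym_gt' (by omega) h3]; simp
          by_cases hx : x ∈ S
          · rw [sym_gt h2 hx, sym_gt (by omega) (Set.mem_insert_of_mem _ hx)]
            simp [ver, h4.1, h4.2]
          · rw [sym_gt' h2 hx, sym_gt' (by omega) (by
              rintro (h | h)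
              · omega
              · exact hx h)]
            simp [ver, h4.1, h4.2]

theorem ver_rowInf_true {p : ℤ} (f : Bool) (hu2 : ∀ x, u x → x < p - 1) (x : ℤ) :
    ver (rowInf u p true (x - 2)) (rowInf u p true (x - 1)) (rowInf u p true x)
      (rowInf u p true (x + 1)) (rowInf u (p - 1) f x) := by
  have hu3 : ∀ x, u x → x < p := fun x hx => by have := hu2 x hx; omega
  by_cases hux : u x
  · have h1 : rowInf u p true x = U := by unfold rowInf; rw [if_pos hux]
    have h2 : rowInf u (p - 1) f x = U := by unfold rowInf; rw [if_pos hux]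
    rw [h1, h2]
    rfl
  have hC : ∀ q g, x < q → rowInf u q g x = C := by
    intro q g h
    unfold rowInf
    rw [if_neg hux, if_pos h]
  rcases lt_trichotomy x (p - 1) with h1 | h1 | h1
  · rw [hC p true (by omega), hC (p - 1) f h1]
    rcases rowInf_lt (u := u) (f := true) (show x + 1 < p by omega) with h2 | h2 <;> rw [h2] <;>
      simp [ver]
  · rw [hC p true (by omega), rowInf_ge hu3 (show p ≤ x + 1 by omega),
      rowInf_ge hu2 (show p - 1 ≤ x by omega)]
    simp [ver]
  · rw [rowInf_ge hu3 (show p ≤ x by omega), rowInf_ge hu2 (by omega)]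
    exact ⟨f, rfl⟩

theorem ver_rowInf_false {p : ℤ} (hu2 : ∀ x, u x → x < p) (x : ℤ) :
    ver (rowInf u p false (x - 2)) (rowInf u p false (x - 1)) (rowInf u p false x)
      (rowInf u p false (x + 1)) (rowFn u (p + 1, p + 1, ∅) x) := by
  by_cases hux : u x
  · have h1 : rowInf u p false x = U := by unfold rowInf; rw [if_pos hux]
    have h2 : rowFn u (p + 1, p + 1, ∅) x = U := by unfold rowFn; rw [if_pos hux]
    rw [h1, h2]
    rfl
  have hC : x < p → rowInf u p false x = C := by
    intro h
    unfold rowInf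
    rw [if_neg hux, if_pos h]
  have hC' : x < p + 1 → rowFn u (p + 1, p + 1, ∅) x = C := by
    intro h
    unfold rowFn
    rw [if_neg hux, if_pos h]
  have hge' : p + 1 ≤ x → rowFn u (p + 1, p + 1, ∅) x = sym (p + 1) (p + 1) ∅ x := by
    intro h
    unfold rowFn
    rw [if_neg hux, if_neg (by simp only; omega)]
  rcases lt_trichotomy x p with h1 | h1 | h1
  · rw [hC h1, hC' (by omega)]
    rcases lt_or_ge (x + 1) p with h2 | h2
    · rcases rowInf_lt (u := u) (f := false) h2 with h2 | h2 <;> rw [h2] <;> simp [ver]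
    · rw [rowInf_ge hu2 h2]
      simp [ver]
  · subst h1
    rw [rowInf_ge hu2 le_rfl, hC' (by omega)]
    have h2 := rowInf_lt (u := u) (f := false) (show x - 1 < x by omega)
    simp [ver, h2]
  · rw [rowInf_ge hu2 h1.le, hge' (by omega), rowInf_ge hu2 (show p ≤ x - 1 by omega)]
    rcases eq_or_ne x (p + 1) with h3 | h3
    · subst h3
      have h2 := rowInf_lt (u := u) (f := false) (show p + 1 - 2 < p by omega)
      rw [sym_head_K (by simp)]
      simp [ver, h2]
    · rw [rowInf_ge hu2 (show p ≤ x - 2 by omega), sym_gt' (by omega) (by simp)]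
      simp [ver]

end valid

/-- The states after the turning row. -/
noncomputable def stt (m : ℕ) : ℤ × ℤ × Set ℤ := step^[m] (1, 1, ∅)

theorem stt_zero : stt 0 = (1, 1, ∅) := rfl

theorem stt_succ (m : ℕ) : stt (m + 1) = step (stt m) := by
  unfold stt; rw [Function.iterate_succ_apply']

theorem legal_stt (m : ℕ) : Legal (stt m) :=
  Legal.iter ⟨le_rfl, by simp⟩ m

theorem one_le_stt (m : ℕ) : 1 ≤ (stt m).1 := by
  have := (conserved_iter (1, 1, ∅) (by simp) m).2
  simp only [Set.ncard_empty, Nat.cast_zero, sub_zero] at this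
  unfold stt
  omega

/-- The diagram with turning row at time `0` and marker `0` there, outside cells given by `u`. -/
noncomputable def ww (u : ℤ → Prop) : ℤ × ℤ → Sy := fun v =>
  if v.2 ≤ 0 then rowInf u (-v.2) (decide (v.2 < 0)) v.1 else rowFn u (stt (v.2 - 1).toNat) v.1

section ww

variable {u : ℤ → Prop}

theorem ww_neg {t : ℤ} (ht : t < 0) (x : ℤ) : ww u (x, t) = rowInf u (-t) true x := by
  unfold ww; simp only; rw [if_pos ht.le]; simp [ht]

theorem ww_zero (x : ℤ) : ww u (x, 0) = rowInf u 0 false x := by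
  unfold ww; simp

theorem ww_succ (m : ℕ) (x : ℤ) : ww u (x, (m : ℤ) + 1) = rowFn u (stt m) x := by
  unfold ww; simp only
  rw [if_neg (by omega), show ((m : ℤ) + 1 - 1).toNat = m by omega]

theorem time_cases' (t : ℤ) : t < -1 ∨ t = -1 ∨ t = 0 ∨ ∃ m : ℕ, t = m + 1 := by
  rcases lt_trichotomy t (-1) with h | h | h
  · exact Or.inl h
  · exact Or.inr (Or.inl h)
  · rcases eq_or_ne t 0 with h' | h'
    · exact Or.inr (Or.inr (Or.inl h'))
    · exact Or.inr (Or.inr (Or.inr ⟨(t - 1).toNat, by omega⟩))

theorem valid_ww (hu1 : ∀ x y, y ≤ x → u x → u y) (hu2 : ∀ x, u x → x < 0) : Valid (ww u) := by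
  intro x t
  rcases time_cases' t with ht | rfl | rfl | ⟨m, rfl⟩
  · have h1 : ∀ y, ww u (y, t) = rowInf u (-t) true y := ww_neg (by omega)
    have h2 : ww u (x, t + 1) = rowInf u (-t - 1) true x := by
      rw [ww_neg (by omega)]; congr 1; ring
    rw [h1, h1, h1, h1, h2]
    have hu3 : ∀ x, u x → x < -t - 1 := fun x hx => by have := hu2 x hx; omega
    exact ⟨hor_rowInf hu1 (fun x hx => by have := hu2 x hx; omega) (fun _ => hu3) x,
      ver_rowInf_true true hu3 x⟩
  · have h1 : ∀ y, ww u (y, -1) = rowInf u 1 true y := ww_neg (by omega)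
    have h2 : ww u (x, -1 + 1) = rowInf u (1 - 1) false x := by
      rw [show (-1 : ℤ) + 1 = 0 by ring, ww_zero]; rfl
    rw [h1, h1, h1, h1, h2]
    have hu3 : ∀ x, u x → x < 1 - 1 := fun x hx => by have := hu2 x hx; omega
    exact ⟨hor_rowInf hu1 (fun x hx => by have := hu2 x hx; omega) (fun _ => hu3) x,
      ver_rowInf_true false hu3 x⟩
  · have h2 : ww u (x, 0 + 1) = rowFn u (0 + 1, 0 + 1, ∅) x := by
      have := ww_succ (u := u) 0 x
      simpa [stt_zero] using this
    rw [ww_zero, ww_zero, ww_zero, ww_zero, h2]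
    exact ⟨hor_rowInf hu1 hu2 (fun h => absurd h (by decide)) x, ver_rowInf_false hu2 x⟩
  · have h2 : ww u (x, (m : ℤ) + 1 + 1) = rowFn u (step (stt m)) x := by
      have := ww_succ (u := u) (m + 1) x
      rw [stt_succ] at this
      push_cast at this
      exact this
    rw [ww_succ, ww_succ, ww_succ, ww_succ, h2]
    have hu3 : ∀ x, u x → x < (stt m).1 - 1 := fun x hx => by
      have := hu2 x hx; have := one_le_stt m; omega
    exact ⟨hor_rowFn hu1 (legal_stt m) hu3 x, ver_rowFn (legal_stt m) hu3 x⟩

end ww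

section unique

variable {z : ℤ × ℤ → Sy}

theorem ver_eq_U {ll l s r u : Sy} (h : ver ll l s r u) : u = U ↔ s = U := by
  rcases s with _ | _ | (_ | _) | _ | _ | _ | _ | _
  · simp only [ver] at h
    simp [h]
  · simp only [ver] at h
    split_ifs at h
    · obtain ⟨f, rfl⟩ := h; simp
    · simp [h]
  · simp only [ver] at h
    split_ifs at h <;> simp [h]
  · simp only [ver] at h
    obtain ⟨f, rfl⟩ := h; simp
  · simp only [ver] at h
    obtain ⟨f, rfl⟩ := h; simp
  · simp only [ver] at h
    split_ifs at h <;> simp [h]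
  · simp only [ver] at h
    obtain ⟨f, rfl⟩ := h; simp
  · simp only [ver] at h
    split_ifs at h <;> simp [h]
  · simp only [ver] at h
    split_ifs at h <;> simp [h]

theorem Valid.col_U (hz : Valid z) (x s t : ℤ) : z (x, s) = U ↔ z (x, t) = U := by
  have step : ∀ s, z (x, s + 1) = U ↔ z (x, s) = U := fun s => ver_eq_U (hz x s).2
  have h0 : ∀ s, z (x, s) = U ↔ z (x, 0) = U := by
    intro s
    induction s using Int.induction_on with
    | zero => rfl
    | succ n ih => rw [step, ih]
    | pred n ih =>
      have := step (-(n : ℤ) - 1)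
      rw [sub_add_cancel] at this
      rw [← this, ih]
  rw [h0 s, h0 t]

theorem ver_eq_P {ll l s r : Sy} {f : Bool} (h : ver ll l s r (P f)) :
    (s = C ∧ (r = P true ∨ r = A)) ∨ s = P true ∨ s = A ∨ s = K := by
  rcases s with _ | _ | (_ | _) | _ | _ | _ | _ | _
  · simp [ver] at h
  · simp only [ver] at h
    split_ifs at h with h1
    exact Or.inl ⟨rfl, h1⟩
  · simp only [ver] at h
    split_ifs at h
  · simp
  · simp
  · simp only [ver] at h
    split_ifs at h
  · simp
  · simp only [ver] at h
    split_ifs at h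
  · simp only [ver] at h
    split_ifs at h

/-- One row below an infinite zone. -/
theorem RowP.prev (hz : Valid z) {t p : ℤ} {f : Bool} (h : RowP z (t + 1) p f) :
    RowP z t (p + 1) true := by
  obtain ⟨hl, hr⟩ := h
  have h1 : ∀ x, p ≤ x → (z (x, t) = C ∧ (z (x + 1, t) = P true ∨ z (x + 1, t) = A)) ∨
      z (x, t) = P true ∨ z (x, t) = A ∨ z (x, t) = K := by
    intro x hx
    have v := (hz x t).2
    rw [hr x hx] at v
    exact ver_eq_P v
  have h2 : ∀ x, p ≤ x → z (x, t) ≠ A ∧ z (x, t) ≠ K := by
    intro x hx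
    have h3 := h1 (x + 1) (by omega)
    have h4 := (hz x t).1
    constructor
    · intro h5
      rw [h5] at h4
      simp only [hor] at h4
      rcases h4 with h4 | h4 <;> rw [h4] at h3 <;> simp at h3
    · intro h5
      rw [h5] at h4
      simp only [hor] at h4
      rcases h4 with h4 | h4 <;> rw [h4] at h3 <;> simp at h3
  have h3 : ∀ x, p ≤ x → z (x + 1, t) = P true := by
    intro x hx
    rcases h1 (x + 1) (by omega) with ⟨h4, _⟩ | h4 | h4 | h4
    · exfalso
      have h5 := (hz x t).1
      rw [h4] at h5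
      rcases h1 x hx with ⟨h6, h7⟩ | h6 | h6 | h6
      · rw [h4] at h7; simp at h7
      · rw [h6] at h5; simp [hor] at h5
      · exact (h2 x hx).1 h6
      · exact (h2 x hx).2 h6
    · exact h4
    · exact absurd h4 (h2 (x + 1) (by omega)).1
    · exact absurd h4 (h2 (x + 1) (by omega)).2
  have h4 : z (p, t) = C := by
    rcases h1 p le_rfl with ⟨h4, _⟩ | h4 | h4 | h4
    · exact h4
    · exfalso
      -- the cell `p - 1` would become a zone cell
      have h5 := (hz (p - 1) t).1
      have h6 := (hz (p - 1) t).2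
      have h7 := hl (p - 1) (by omega)
      rw [sub_add_cancel, h4] at h5 h6
      rcases hc : z (p - 1, t) with _ | _ | (_ | _) | _ | _ | _ | _ | _ <;> rw [hc] at h5 h6 <;>
        simp [hor] at h5
      · simp only [ver, true_or, if_true] at h6
        obtain ⟨g, hg⟩ := h6
        rw [hg] at h7
        simp at h7
      · simp only [ver] at h6
        obtain ⟨g, hg⟩ := h6
        rw [hg] at h7
        simp at h7
    · exact absurd h4 (h2 p le_rfl).1
    · exact absurd h4 (h2 p le_rfl).2
  refine ⟨?_, ?_⟩
  · have key : ∀ n : ℕ, z (p - n, t) = C ∨ z (p - n, t) = U := by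
      intro n
      induction n with
      | zero => left; simpa using h4
      | succ n ih =>
        have h5 := (hz (p - ((n + 1 : ℕ) : ℤ)) t).1
        rw [show p - ((n + 1 : ℕ) : ℤ) + 1 = p - n by push_cast; ring] at h5
        rcases ih with h6 | h6 <;> rw [h6] at h5 <;>
          rcases hc : z (p - ((n + 1 : ℕ) : ℤ), t) with _ | _ | (_ | _) | _ | _ | _ | _ | _ <;>
          rw [hc] at h5 <;> simp [hor] at h5 ⊢
    intro x hx
    have := key (p - x).toNat
    rw [show p - ((p - x).toNat : ℤ) = x by omega] at this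
    exact this
  · intro x hx
    have := h3 (x - 1) (by omega)
    rwa [sub_add_cancel] at this

/-- A valid configuration with a turning row at time `0` and marker `0` is `ww u`. -/
theorem Valid.eq_ww (hz : Valid z) (h : RowP z 0 0 false) : z = ww (fun x => z (x, 0) = U) := by
  classical
  have fwd : ∀ m : ℕ, RowS z (m + 1) (stt m) := by
    intro m
    induction m with
    | zero => simpa [stt_zero] using RowP.next_false hz h
    | succ m ih =>
      rw [stt_succ]
      have := RowS.next hz (legal_stt m) ih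
      push_cast
      exact this
  have bwd : ∀ m : ℕ, RowP z (-((m + 1 : ℕ) : ℤ)) ((m + 1 : ℕ) : ℤ) true := by
    intro m
    induction m with
    | zero =>
      have : RowP z (-1 + 1) 0 false := by simpa using h
      simpa using RowP.prev hz this
    | succ m ih =>
      have e : -((m + 1 + 1 : ℕ) : ℤ) + 1 = -((m + 1 : ℕ) : ℤ) := by push_cast; ring
      rw [← e] at ih
      have := RowP.prev hz ih
      push_cast at this ⊢
      exact this
  funext ⟨x, t⟩
  have hcol := hz.col_U x t 0
  by_cases hU : z (x, 0) = U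
  · rw [hcol.2 hU]
    unfold ww rowInf rowFn
    simp [hU]
  · have hU' : z (x, t) ≠ U := fun h => hU (hcol.1 h)
    rcases time_cases' t with ht | rfl | rfl | ⟨m, rfl⟩
    · obtain ⟨m, rfl⟩ : ∃ m : ℕ, t = -((m + 1 : ℕ) : ℤ) := ⟨(-t - 1).toNat, by omega⟩
      obtain ⟨h1, h2⟩ := bwd m
      rw [ww_neg (by omega)]
      unfold rowInf
      rw [if_neg hU]
      by_cases hx : x < - -((m + 1 : ℕ) : ℤ)
      · rw [if_pos hx]
        have := h1 x (by omega)
        tauto
      · rw [if_neg hx]
        exact h2 x (by omega)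
    · obtain ⟨h1, h2⟩ := bwd 0
      simp only [zero_add, Nat.cast_one] at h1 h2
      rw [ww_neg (by omega)]
      unfold rowInf
      rw [if_neg hU]
      by_cases hx : x < - -1
      · rw [if_pos hx]
        have := h1 x (by omega)
        tauto
      · rw [if_neg hx]
        exact h2 x (by omega)
    · obtain ⟨h1, h2⟩ := h
      rw [ww_zero]
      unfold rowInf
      rw [if_neg hU]
      by_cases hx : x < 0
      · rw [if_pos hx]
        have := h1 x (by omega)
        tauto
      · rw [if_neg hx]
        exact h2 x (by omega)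
    · obtain ⟨h1, h2⟩ := fwd m
      rw [ww_succ]
      unfold rowFn
      rw [if_neg hU]
      by_cases hx : x < (stt m).1
      · rw [if_pos hx]
        have := h1 x hx
        tauto
      · rw [if_neg hx]
        exact h2 x (by omega)

end unique

end Pool.Agent.MP_0cba1e_an.Rules
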