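import Pool.Agent.MP_0cba1e_an.Lift

/-!
There is no infinite chain over `ℤ` (and none over the trivial group).
-/

namespace Pool.Agent.MP_0cba1e_an

section general

variable {G A : Type} [AddCommGroup G]

/-- Adding the orbit closure of any missing point to a maximal subsystem gives everything. -/
theorem IsMaximalSubsystem.union_orbitClosure {X Y : Set (G → A)} (hX : IsShift X)
    (hY : IsMaximalSubsystem Y X) {z : G → A} (hz : z ∈ X) (hzY : z ∉ Y) :
    Y ∪ orbitClosure z = X := by
  have hsub : Y ∪ orbitClosure z ⊆ X :=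
    Set.union_subset hY.1.2.1 (orbitClosure_subset hX hz)
  by_contra hne
  apply hY.2
  refine ⟨Y ∪ orbitClosure z, hY.1.1.union (isShift_orbitClosure z), ?_, ?_⟩
  · exact ⟨Set.subset_union_left, fun h => hzY (h (Or.inr (mem_orbitClosure_self z)))⟩
  · exact ⟨hsub, fun h => hne (Set.Subset.antisymm hsub h)⟩

/-- Consecutive layers of a chain are in the orbit closures of the preceding ones. -/
theorem next_mem_orbitClosure {X0 X1 X2 : Set (G → A)} (h0 : IsShift X0)
    (h1 : IsUniqueMaximalSubsystem X1 X0) (h2 : IsMaximalSubsystem X2 X1) {z0 z1 : G → A}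
    (hz0 : z0 ∈ X0) (hz0' : z0 ∉ X1) (hz1 : z1 ∈ X1) (hz1' : z1 ∉ X2) :
    z1 ∈ orbitClosure z0 := by
  by_contra hno
  have hX1 := h1.1.1.1
  have hX0 := h1.1.union_orbitClosure h0 hz0 hz0'
  have hY : IsMaximalSubsystem (X2 ∪ orbitClosure z0) X0 := by
    have hsub : X2 ∪ orbitClosure z0 ⊆ X0 :=
      Set.union_subset (h2.1.2.1.trans h1.1.1.2.1) (orbitClosure_subset h0 hz0)
    refine ⟨⟨h2.1.1.union (isShift_orbitClosure z0), hsub, ?_⟩, ?_⟩
    · intro h
      rcases h (h1.1.1.2.1 hz1) with h | h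
      · exact hz1' h
      · exact hno h
    · rintro ⟨Z, hZ, h3, h4⟩
      obtain ⟨y, hyZ, hy⟩ := Set.exists_of_ssubset h3
      have hy0 : y ∈ X1 ∪ orbitClosure z0 := by rw [hX0]; exact h4.1 hyZ
      have hy1 : y ∈ X1 := by
        rcases hy0 with h | h
        · exact h
        · exact absurd (Or.inr h) hy
      have hy2 : y ∉ X2 := fun h => hy (Or.inl h)
      have := h2.union_orbitClosure hX1 hy1 hy2
      apply h4.2
      rw [← hX0, ← this]
      apply Set.union_subset
      · apply Set.union_subset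
        · exact Set.subset_union_left.trans h3.1
        · exact orbitClosure_subset hZ hyZ
      · exact Set.subset_union_right.trans h3.1
  have heq := h1.2 _ hY
  exact hz0' (by rw [← heq]; exact Or.inr (mem_orbitClosure_self z0))

/-- A finite window isolating a point from a shift. -/
theorem exists_window {Y : Set (G → A)} (hY : IsShift Y) {z : G → A} (hz : z ∉ Y) :
    ∃ F : Finset G, ∀ w : G → A, (∀ u ∈ F, w u = z u) → w ∉ Y := by
  by_contra hno
  push Not at hno
  apply hz
  apply (closedSet_iff Y).1 hY.closed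
  intro F
  obtain ⟨w, hw, hwY⟩ := hno F
  exact ⟨w, hwY, hw⟩

end general

section int

variable {A : Type}

/-- Periodic continuation of a return word. -/
theorem exists_periodic {x : ℤ → A} {p q r : ℤ} (hpq : p < q)
    (hx : ∀ u, |u| ≤ r → x (u + p) = x (u + q)) :
    ∃ y : ℤ → A, (∀ i, y (i + (q - p)) = y i) ∧ (∀ m, p - r ≤ m → m ≤ q + r → y m = x m) ∧
      (∀ i, ∃ i', p ≤ i' ∧ i' < q ∧ ∀ u, |u| ≤ r → y (u + i) = x (u + i')) := by
  have hL : 0 < q - p := by omega
  let y : ℤ → A := fun i => x (p + (i - p) % (q - p))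
  have hper : ∀ i, y (i + (q - p)) = y i := by
    intro i
    simp only [y]
    rw [show i + (q - p) - p = (i - p) + (q - p) by ring, Int.add_emod_right]
  have hper' : ∀ (n : ℤ) i, y (i + n * (q - p)) = y i := by
    intro n i
    simp only [y]
    rw [show i + n * (q - p) - p = (i - p) + n * (q - p) by ring, Int.add_mul_emod_self_right]
  have hbase : ∀ m, p ≤ m → m < q → y m = x m := by
    intro m h1 h2
    simp only [y]
    rw [Int.emod_eq_of_lt (by omega) (by omega)]
    congr 1
    ring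
  have hright : ∀ n : ℕ, ∀ m, m = p + n → m ≤ q + r → y m = x m := by
    intro n
    induction n using Nat.strong_induction_on with
    | _ n ih =>
      intro m hm hmr
      by_cases hmq : m < q
      · exact hbase m (by omega) hmq
      · have h1 := ih (n - (q - p).toNat) (by omega) (m - (q - p)) (by omega) (by omega)
        have h2 := hper (m - (q - p))
        rw [sub_add_cancel] at h2
        have h3 := hx (m - q) (by rw [abs_of_nonneg (by omega)]; omega)
        rw [show m - q + p = m - (q - p) by ring, sub_add_cancel] at h3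
        rw [h2, h1, h3]
  have hleft : ∀ n : ℕ, ∀ m, m = q - n → p - r ≤ m → m < q → y m = x m := by
    intro n
    induction n using Nat.strong_induction_on with
    | _ n ih =>
      intro m hm hmr hmq
      by_cases hpm : p ≤ m
      · exact hbase m hpm hmq
      · have h1 := ih (n - (q - p).toNat) (by omega) (m + (q - p)) (by omega) (by omega)
          (by omega)
        have h2 := hper m
        have h3 := hx (m - p) (by rw [abs_le]; constructor <;> omega)
        rw [sub_add_cancel, show m - p + q = m + (q - p) by ring] at h3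
        rw [← h2, h1, h3]
  have hall : ∀ m, p - r ≤ m → m ≤ q + r → y m = x m := by
    intro m h1 h2
    by_cases hmp : p ≤ m
    · exact hright (m - p).toNat m (by omega) h2
    · exact hleft (q - m).toNat m (by omega) h1 (by omega)
  refine ⟨y, hper, hall, ?_⟩
  intro i
  refine ⟨p + (i - p) % (q - p), ?_, ?_, ?_⟩
  · have := Int.emod_nonneg (i - p) (by omega : (q - p) ≠ 0)
    omega
  · have := Int.emod_lt_of_pos (i - p) hL
    omega
  · intro u hu
    have h1 := Int.emod_nonneg (i - p) (by omega : (q - p) ≠ 0)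
    have h2 := Int.emod_lt_of_pos (i - p) hL
    rw [abs_le] at hu
    rw [← hall (u + (p + (i - p) % (q - p))) (by omega) (by omega)]
    rw [← hper' ((i - p) / (q - p)) (u + (p + (i - p) % (q - p)))]
    congr 1
    have := Int.emod_add_mul_ediv (i - p) (q - p)
    linarith

/-- Points in the orbit closure of a periodic point are translates of it. -/
theorem orbitClosure_periodic {y z : ℤ → A} {L : ℤ} (hL : 0 < L) (hy : ∀ i, y (i + L) = y i)
    (hz : z ∈ orbitClosure y) : ∃ v, translate v y = z := by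
  classical
  by_contra hno
  push Not at hno
  have hper' : ∀ (n : ℤ) i, y (i + n * L) = y i := by
    intro n
    induction n using Int.induction_on with
    | zero => intro i; simp
    | succ n ih =>
      intro i
      rw [add_mul, one_mul, ← add_assoc, hy, ih]
    | pred n ih =>
      intro i
      have h1 := ih i
      rw [← h1, ← hy (i + (-(n : ℤ) - 1) * L)]
      congr 1
      ring
  have h1 : ∀ v : ℤ, ∃ u : ℤ, y (u + v) ≠ z u := by
    intro v
    by_contra h
    push Not at h
    exact hno v (funext h)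
  choose f hf using h1
  obtain ⟨v, hv⟩ := hz ((Finset.range L.toNat).image (fun i : ℕ => f i))
  have h2 := Int.emod_nonneg v (by omega : L ≠ 0)
  have h3 := Int.emod_lt_of_pos v hL
  apply hf (v % L)
  have h4 := hv (f (v % L)) (by
    rw [Finset.mem_image]
    exact ⟨(v % L).toNat, by rw [Finset.mem_range]; omega, by congr 1; omega⟩)
  rw [← h4, ← hper' (v / L) (f (v % L) + v % L)]
  congr 1
  have := Int.emod_add_mul_ediv v L
  linarith

theorem not_chain_three [Finite A] {X0 X1 X2 X3 : Set (ℤ → A)} (hsft : IsSFT X0)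
    (h1 : IsUniqueMaximalSubsystem X1 X0) (h2 : IsUniqueMaximalSubsystem X2 X1)
    (h3 : IsUniqueMaximalSubsystem X3 X2) : False := by
  classical
  obtain ⟨h0, Fb, hFb, hX0⟩ := hsft
  have hX1 := h1.1.1.1
  have hX2 := h2.1.1.1
  obtain ⟨z0, hz0, hz0'⟩ := Set.exists_of_ssubset h1.1.1.2
  obtain ⟨z1, hz1, hz1'⟩ := Set.exists_of_ssubset h2.1.1.2
  obtain ⟨z2, hz2, hz2'⟩ := Set.exists_of_ssubset h3.1.1.2
  -- no periodic points in the two first layers
  have per0 : ∀ y ∈ X0, y ∉ X1 → ∀ L : ℤ, 0 < L → ¬ ∀ i, y (i + L) = y i := by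
    intro y hy hy' L hL hper
    have h4 := next_mem_orbitClosure h0 h1 h2.1 hy hy' hz1 hz1'
    obtain ⟨v, hv⟩ := orbitClosure_periodic hL hper h4
    apply hy'
    have := hX1.invariant (-v) _ hz1
    rw [← hv, translate_neg_cancel] at this
    exact this
  have per1 : ∀ y ∈ X1, y ∉ X2 → ∀ L : ℤ, 0 < L → ¬ ∀ i, y (i + L) = y i := by
    intro y hy hy' L hL hper
    have h4 := next_mem_orbitClosure hX1 h2 h3.1 hy hy' hz2 hz2'
    obtain ⟨v, hv⟩ := orbitClosure_periodic hL hper h4
    apply hy'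
    have := hX2.invariant (-v) _ hz2
    rw [← hv, translate_neg_cancel] at this
    exact this
  -- the size of the forbidden patterns
  let N0 : ℕ := hFb.toFinset.sup (fun p => p.supp.sup Int.natAbs)
  have hN0 : ∀ p ∈ Fb, ∀ u ∈ p.supp, |u| ≤ (N0 : ℤ) := by
    intro p hp u hu
    have a1 : u.natAbs ≤ p.supp.sup Int.natAbs := Finset.le_sup (f := Int.natAbs) hu
    have a2 : p.supp.sup Int.natAbs ≤ N0 :=
      Finset.le_sup (f := fun p : Pattern ℤ A => p.supp.sup Int.natAbs)
        ((Set.Finite.mem_toFinset hFb).2 hp)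
    rw [Int.abs_eq_natAbs]
    exact_mod_cast a1.trans a2
  have glue : ∀ (x y : ℤ → A) (r : ℤ), (N0 : ℤ) ≤ r → x ∈ X0 →
      (∀ i, ∃ i', ∀ u, |u| ≤ r → y (u + i) = x (u + i')) → y ∈ X0 := by
    intro x y r hr hx hxy
    rw [hX0] at hx ⊢
    intro p hp v hap
    obtain ⟨i', hi'⟩ := hxy v
    apply hx p hp i'
    intro u
    rw [← hap u]
    exact (hi' u ((hN0 p hp u u.2).trans hr)).symm
  -- isolating windows
  obtain ⟨F0, hF0⟩ := exists_window hX1 hz0'
  obtain ⟨F1, hF1⟩ := exists_window hX2 hz1'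
  let r0 : ℕ := max N0 (F0.sup Int.natAbs)
  have hr0 : ∀ w : ℤ → A, (∀ u, |u| ≤ (r0 : ℤ) → w u = z0 u) → w ∉ X1 := by
    intro w hw
    apply hF0
    intro u hu
    apply hw
    have : u.natAbs ≤ F0.sup Int.natAbs := Finset.le_sup (f := Int.natAbs) hu
    rw [Int.abs_eq_natAbs]
    exact_mod_cast this.trans (le_max_right _ _)
  let r1 : ℕ := max r0 (F1.sup Int.natAbs)
  have hr1 : ∀ w : ℤ → A, (∀ u, |u| ≤ (r1 : ℤ) → w u = z1 u) → w ∉ X2 := by
    intro w hw
    apply hF1
    intro u hu
    apply hw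
    have : u.natAbs ≤ F1.sup Int.natAbs := Finset.le_sup (f := Int.natAbs) hu
    rw [Int.abs_eq_natAbs]
    exact_mod_cast this.trans (le_max_right _ _)
  have hNr0 : (N0 : ℤ) ≤ r0 := by exact_mod_cast le_max_left _ _
  have hr01 : (r0 : ℤ) ≤ r1 := by exact_mod_cast le_max_left _ _
  -- the word of `z0` occurs only once in `z0`
  have once : ∀ i, (∀ u, |u| ≤ (r0 : ℤ) → z0 (u + i) = z0 u) → i = 0 := by
    intro i hi
    by_contra hne
    have key : ∃ p q : ℤ, p < q ∧ (∀ u, |u| ≤ (r0 : ℤ) → z0 (u + p) = z0 (u + q)) ∧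
        (∀ u, |u| ≤ (r0 : ℤ) → z0 (u + p) = z0 u) := by
      rcases lt_or_gt_of_ne hne with h | h
      · exact ⟨i, 0, h, fun u hu => by rw [hi u hu, add_zero], hi⟩
      · exact ⟨0, i, h, fun u hu => by rw [hi u hu, add_zero], fun u _ => by rw [add_zero]⟩
    obtain ⟨p, q, hpq, h4, h5⟩ := key
    obtain ⟨y, hy1, hy3, hy2⟩ := exists_periodic hpq h4
    have hy : y ∈ X0 := glue z0 y r0 hNr0 hz0 (fun i => by
      obtain ⟨i', _, _, h⟩ := hy2 i
      exact ⟨i', h⟩)
    have hyp : ∀ u, |u| ≤ (r0 : ℤ) → translate p y u = z0 u := by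
      intro u hu
      rw [← h5 u hu]
      rw [abs_le] at hu
      exact hy3 (u + p) (by omega) (by omega)
    have hy' : y ∉ X1 := by
      intro h
      exact hr0 _ hyp (hX1.invariant p y h)
    exact per0 y hy hy' (q - p) (by omega) hy1
  -- `X1` is given by forbidding the word of `z0`
  have hX1eq : ∀ y ∈ X0, (∀ v, ¬ ∀ u, |u| ≤ (r0 : ℤ) → y (u + v) = z0 u) → y ∈ X1 := by
    intro y hy hyv
    by_contra hyX1
    apply h1.1.2
    refine ⟨{x | x ∈ X0 ∧ ∀ v, ¬ ∀ u, |u| ≤ (r0 : ℤ) → x (u + v) = z0 u}, ⟨?_, ?_, ?_⟩, ?_, ?_⟩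
    · exact ⟨y, hy, hyv⟩
    · rw [closedSet_iff]
      intro x hx
      refine ⟨?_, ?_⟩
      · apply (closedSet_iff X0).1 h0.closed
        intro F
        obtain ⟨w, hw, hwx⟩ := hx F
        exact ⟨w, hw.1, hwx⟩
      · intro v hv
        obtain ⟨w, hw, hwx⟩ := hx ((Finset.Icc (-(r0 : ℤ)) r0).image (fun u => u + v))
        apply hw.2 v
        intro u hu
        rw [← hv u hu]
        apply hwx
        rw [abs_le] at hu
        exact Finset.mem_image_of_mem _ (Finset.mem_Icc.2 hu)
    · rintro w x ⟨hx1, hx2⟩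
      refine ⟨h0.invariant w x hx1, fun v hv => hx2 (v + w) (fun u hu => ?_)⟩
      rw [← hv u hu, ← add_assoc]
      rfl
    · refine ⟨fun x hx => ⟨h1.1.1.2.1 hx, fun v hv => ?_⟩, fun h => hyX1 (h ⟨hy, hyv⟩)⟩
      exact hr0 (translate v x) hv (hX1.invariant v x hx)
    · refine ⟨fun x hx => hx.1, fun h => ?_⟩
      exact (h hz0).2 0 (fun u _ => by rw [add_zero])
  -- far away occurrences of the word of `z1` in `z0`
  have hmem := next_mem_orbitClosure h0 h1 h2.1 hz0 hz0' hz1 hz1'
  have far : ∀ M : ℕ, ∃ v : ℤ, (M : ℤ) < |v| ∧ ∀ u, |u| ≤ (r1 : ℤ) → z0 (u + v) = z1 u := by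
    intro M
    have hne : ∀ v : ℤ, ∃ u : ℤ, z0 (u + v) ≠ z1 u := by
      intro v
      by_contra h
      push Not at h
      apply hz0'
      have h4 : translate v z0 = z1 := funext h
      have := hX1.invariant (-v) _ hz1
      rw [← h4, translate_neg_cancel] at this
      exact this
    choose f hf using hne
    obtain ⟨v, hv⟩ := hmem (Finset.Icc (-(r1 : ℤ)) r1 ∪ (Finset.Icc (-(M : ℤ)) M).image f)
    refine ⟨v, ?_, ?_⟩
    · by_contra hlt
      push Not at hlt
      rw [abs_le] at hlt
      apply hf v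
      apply hv
      rw [Finset.mem_union]
      exact Or.inr (Finset.mem_image_of_mem _ (Finset.mem_Icc.2 hlt))
    · intro u hu
      apply hv
      rw [abs_le] at hu
      rw [Finset.mem_union]
      exact Or.inl (Finset.mem_Icc.2 hu)
  have key : ∃ p q : ℤ, p < q ∧ (0 < p ∨ q < 0) ∧
      (∀ u, |u| ≤ (r1 : ℤ) → z0 (u + p) = z1 u) ∧
      (∀ u, |u| ≤ (r1 : ℤ) → z0 (u + q) = z1 u) := by
    obtain ⟨a, ha, ha'⟩ := far 0
    obtain ⟨b, hb, hb'⟩ := far a.natAbs
    obtain ⟨c, hc, hc'⟩ := far b.natAbs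
    rw [Int.abs_eq_natAbs] at ha hb hc
    by_cases h4 : 0 < a
    · by_cases h5 : 0 < b
      · exact ⟨a, b, by omega, Or.inl h4, ha', hb'⟩
      · by_cases h6 : 0 < c
        · exact ⟨a, c, by omega, Or.inl h4, ha', hc'⟩
        · exact ⟨c, b, by omega, Or.inr (by omega), hc', hb'⟩
    · by_cases h5 : 0 < b
      · by_cases h6 : 0 < c
        · exact ⟨b, c, by omega, Or.inl h5, hb', hc'⟩
        · exact ⟨c, a, by omega, Or.inr (by omega), hc', ha'⟩
      · exact ⟨b, a, by omega, Or.inr (by omega), hb', ha'⟩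
  obtain ⟨p, q, hpq, hside, hp, hq⟩ := key
  obtain ⟨y, hy1, hy3, hy2⟩ := exists_periodic (x := z0) (r := (r1 : ℤ)) hpq
    (fun u hu => by rw [hp u hu, hq u hu])
  have hy : y ∈ X0 := glue z0 y r1 (hNr0.trans hr01) hz0 (fun i => by
    obtain ⟨i', _, _, h⟩ := hy2 i
    exact ⟨i', h⟩)
  have hyX1 : y ∈ X1 := by
    apply hX1eq y hy
    intro v hv
    obtain ⟨i', h4, h5, h6⟩ := hy2 v
    have := once i' (fun u hu => by rw [← h6 u (hu.trans hr01), hv u hu])
    omega
  have hyX2 : y ∉ X2 := by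
    intro h
    apply hr1 (translate p y) _ (hX2.invariant p y h)
    intro u hu
    rw [← hp u hu]
    rw [abs_le] at hu
    exact hy3 (u + p) (by omega) (by omega)
  exact per1 y hyX1 hyX2 (q - p) (by omega) hy1

theorem not_hasInfiniteChain_int : ¬ HasInfiniteChain ℤ := by
  rintro ⟨A, hA, X, h0, _, h⟩
  exact not_chain_three h0 (h 0) (h 1) (h 2)

end int

theorem not_hasInfiniteChain_one : ¬ HasInfiniteChain (Fin 1 → ℤ) := by
  intro h
  apply not_hasInfiniteChain_int
  let π : ℤ →+ (Fin 1 → ℤ) :=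
    { toFun := fun n _ => n
      map_zero' := rfl
      map_add' := fun _ _ => rfl }
  have hπ : Function.Surjective π := by
    intro v
    refine ⟨v 0, ?_⟩
    funext i
    rw [Subsingleton.elim i 0]
    rfl
  apply hasInfiniteChain_of_surjective hπ ∅ (by simp) _ h
  intro g hg
  have : g = 0 := congrFun hg 0
  rw [this]
  exact Submodule.zero_mem _

theorem not_hasInfiniteChain_zero : ¬ HasInfiniteChain (Fin 0 → ℤ) := by
  rintro ⟨A, hA, X, _, _, h⟩
  have hlt : ∀ n, (X (n + 1)).ncard < (X n).ncard := fun n =>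
    Set.ncard_lt_ncard (h n).1.1.2 (Set.toFinite _)
  have hbound : ∀ n, (X n).ncard + n ≤ (X 0).ncard := by
    intro n
    induction n with
    | zero => simp
    | succ n ih => have := hlt n; omega
  have := hbound ((X 0).ncard + 1)
  omega

end Pool.Agent.MP_0cba1e_an
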