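import Pool.Agent.MP_0cba1e_an.Basic

/-!
Limits of sequences of configurations over a finite alphabet.
-/

namespace Pool.Agent.MP_0cba1e_an

open Filter

/-- Every sequence of configurations over a finite alphabet has an accumulation point. -/
theorem exists_limit {G A : Type} [Finite A] (w : ℕ → G → A) :
    ∃ y : G → A, ∀ (F : Finset G) (K : ℕ), ∃ k ≥ K, ∀ u ∈ F, w k u = y u := by
  classical
  let _ : TopologicalSpace A := ⊥
  have : DiscreteTopology A := ⟨rfl⟩
  obtain ⟨y, hy⟩ := exists_clusterPt_of_compactSpace (Filter.map w atTop)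
  refine ⟨y, fun F K => ?_⟩
  have hy' : MapClusterPt y atTop w := hy
  rw [mapClusterPt_iff_frequently] at hy'
  have hnhds : (F : Set G).pi (fun u => ({y u} : Set A)) ∈ nhds y := by
    apply set_pi_mem_nhds F.finite_toSet
    intro u _
    exact (isOpen_discrete _).mem_nhds rfl
  have h1 := hy' _ hnhds
  rw [frequently_atTop] at h1
  obtain ⟨k, hk, hk2⟩ := h1 K
  exact ⟨k, hk, fun u hu => hk2 u hu⟩

end Pool.Agent.MP_0cba1e_an
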