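import Pool.Agent.MP_0cba1e_an.Dense
import Pool.Agent.MP_0cba1e_an.Limit

/-!
The chain of shifts in the plane where each shift contains all subsystems of the previous one.
-/

namespace Pool.Agent.MP_0cba1e_an.Rules

open Sy

/-- The diagram with outside cells to the left of `-n`. -/
noncomputable def xs (n : ℕ) : ℤ × ℤ → Sy := ww (fun x => x < -(n : ℤ))

/-- The shifts of the chain: the `n` cells after an outside cell are to the left of the marker. -/
def XS (n : ℕ) : Set (ℤ × ℤ → Sy) :=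
  {z | Valid z ∧ ∀ x t : ℤ, ∀ i : ℕ, i < n → z (x, t) = U → isL (z (x + ((i : ℤ) + 1), t))}

theorem valid_xs (n : ℕ) : Valid (xs n) :=
  valid_ww (fun x y h1 h2 => by omega) (fun x h => by omega)

theorem turning_xs (n : ℕ) : RowP (xs n) 0 0 false :=
  turning_ww (fun x h => by omega)

theorem xs_eq_U (n : ℕ) (x t : ℤ) : xs n (x, t) = U ↔ x < -(n : ℤ) := by
  rw [(valid_xs n).col_U x t 0]
  unfold xs
  rw [ww_zero]
  unfold rowInf
  by_cases h : x < -(n : ℤ)
  · simp [h]
  · simp only [h, if_false, iff_false]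
    split_ifs <;> simp

/-- The marker of `xs n`. -/
theorem marked_xs (n : ℕ) (t : ℤ) : ∃ q, 0 ≤ q ∧ Marked (xs n) t q := by
  rcases time_cases' t with ht | rfl | rfl | ⟨m, rfl⟩
  · obtain ⟨k, rfl⟩ : ∃ k : ℕ, t = 0 - ((k + 1 : ℕ) : ℤ) := ⟨(-t - 1).toNat, by omega⟩
    refine ⟨_, ?_, RowP.marked (RowP.prev_iter (valid_xs n) (turning_xs n) k)⟩
    omega
  · refine ⟨_, ?_, RowP.marked (RowP.prev_iter (valid_xs n) (turning_xs n) 0)⟩
    omega
  · exact ⟨0, le_rfl, RowP.marked (turning_xs n)⟩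
  · have h1 := RowP.next_false (valid_xs n) (turning_xs n)
    rw [zero_add] at h1
    have h2 := RowS.iter (valid_xs n) ⟨le_rfl, by simp⟩ h1 m
    rw [add_comm] at h2
    have h3 := one_le_stt m
    exact ⟨(stt m).1, by omega, RowS.marked h2⟩

theorem xs_mem {n m : ℕ} (h : n ≤ m) : xs m ∈ XS n := by
  refine ⟨valid_xs m, fun x t i hi hU => ?_⟩
  rw [xs_eq_U] at hU
  obtain ⟨q, hq, hM⟩ := marked_xs m t
  exact hM.1 _ (by omega)

theorem le_of_xs_mem {n m : ℕ} (h : xs m ∈ XS n) : n ≤ m := by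
  by_contra hlt
  push Not at hlt
  have h1 := h.2 (-(m : ℤ) - 1) 0 m hlt ((xs_eq_U m _ _).2 (by omega))
  rw [show -(m : ℤ) - 1 + ((m : ℤ) + 1) = 0 by ring] at h1
  exact (RowP.marked (turning_xs m)).2 0 le_rfl h1

theorem XS_anti {m n : ℕ} (h : m ≤ n) : XS n ⊆ XS m :=
  fun _ hz => ⟨hz.1, fun x t i hi => hz.2 x t i (by omega)⟩

theorem isShift_XS (n : ℕ) : IsShift (XS n) := by
  classical
  refine ⟨⟨xs n, xs_mem le_rfl⟩, ?_, ?_⟩
  · rw [closedSet_iff]
    intro z hz
    refine ⟨fun x t => ?_, fun x t i hi hU => ?_⟩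
    · obtain ⟨y, hy, hyz⟩ := hz {(x, t), (x + 1, t), (x - 2, t), (x - 1, t), (x, t + 1)}
      have h := hy.1 x t
      rw [hyz (x, t) (by simp), hyz (x + 1, t) (by simp), hyz (x - 2, t) (by simp),
        hyz (x - 1, t) (by simp), hyz (x, t + 1) (by simp)] at h
      exact h
    · obtain ⟨y, hy, hyz⟩ := hz {(x, t), (x + ((i : ℤ) + 1), t)}
      have h := hy.2 x t i hi
      rw [hyz (x, t) (by simp), hyz (x + ((i : ℤ) + 1), t) (by simp)] at h
      exact h hU
  · intro v z hz
    refine ⟨hz.1.move v, fun x t i hi hU => ?_⟩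
    have h := hz.2 (x + v.1) (t + v.2) i hi hU
    rw [show x + v.1 + ((i : ℤ) + 1) = x + ((i : ℤ) + 1) + v.1 by ring] at h
    exact h

theorem isSFT_XS_zero : IsSFT (XS 0) := by
  classical
  apply isSFT_of_window ({(-2, 0), (-1, 0), (0, 0), (1, 0), (0, 1)} : Finset (ℤ × ℤ))
    (fun f => hor (f ⟨(0, 0), by simp⟩) (f ⟨(1, 0), by simp⟩) ∧
      ver (f ⟨(-2, 0), by simp⟩) (f ⟨(-1, 0), by simp⟩) (f ⟨(0, 0), by simp⟩)
        (f ⟨(1, 0), by simp⟩) (f ⟨(0, 1), by simp⟩))
  · ext z
    simp only [XS, Set.mem_ofPred_eq]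
    constructor
    · rintro ⟨h, _⟩ ⟨x, t⟩
      have := h x t
      simp only [Prod.mk_add_mk, zero_add]
      rw [show -2 + x = x - 2 by ring, show -1 + x = x - 1 by ring, show 1 + x = x + 1 by ring,
        show 1 + t = t + 1 by ring]
      exact this
    · intro h
      refine ⟨fun x t => ?_, fun x t i hi => absurd hi (by omega)⟩
      have := h (x, t)
      simp only [Prod.mk_add_mk, zero_add] at this
      rw [show -2 + x = x - 2 by ring, show -1 + x = x - 1 by ring, show 1 + x = x + 1 by ring,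
        show 1 + t = t + 1 by ring] at this
      exact this
  · exact ⟨xs 0, xs_mem le_rfl⟩

/-- The outside columns are downward closed. -/
theorem Valid.U_mono {z : ℤ × ℤ → Sy} (hz : Valid z) {x y t : ℤ} (hxy : x ≤ y)
    (h : z (y, t) = U) : z (x, t) = U := by
  have key : ∀ n : ℕ, z (y - n, t) = U := by
    intro n
    induction n with
    | zero => simpa using h
    | succ n ih =>
      have h1 := (hz (y - ((n + 1 : ℕ) : ℤ)) t).1
      rw [show y - ((n + 1 : ℕ) : ℤ) + 1 = y - n by push_cast; ring, ih] at h1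
      rcases hc : z (y - ((n + 1 : ℕ) : ℤ), t) with _ | _ | (_ | _) | _ | _ | _ | _ | _ <;>
        rw [hc] at h1 <;> simp [hor] at h1 ⊢
  have := key (y - x).toNat
  rwa [show y - ((y - x).toNat : ℤ) = x by omega] at this

/-- A valid configuration with a turning row at the origin and an outside cell is some `xs m`. -/
theorem Valid.eq_xs {z : ℤ × ℤ → Sy} (hz : Valid z) (h : RowP z 0 0 false) {b : ℤ}
    (hb : z (b, 0) = U) : ∃ m : ℕ, z = xs m := by
  classical
  have hneg : ∀ x, z (x, 0) = U → x < 0 := by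
    intro x hx
    by_contra hlt
    rw [h.2 x (by omega)] at hx
    simp at hx
  obtain ⟨c, hc, hmax⟩ := Int.exists_greatest_of_bdd (P := fun x => z (x, 0) = U)
    ⟨0, fun x hx => (hneg x hx).le⟩ ⟨b, hb⟩
  have hc0 := hneg c hc
  refine ⟨(-c - 1).toNat, ?_⟩
  rw [hz.eq_ww h]
  unfold xs
  congr 1
  funext x
  apply propext
  constructor
  · intro hx
    have := hmax x hx
    omega
  · intro hx
    exact hz.U_mono (show x ≤ c by omega) hc

/-- A valid configuration with an outside cell and a marked row is a translate of some `xs m`. -/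
theorem Valid.classify {z : ℤ × ℤ → Sy} (hz : Valid z) {t p b : ℤ} (h : Marked z t p)
    (hU : z (b, t) = U) : ∃ (m : ℕ) (v : ℤ × ℤ), translate v z = xs m := by
  obtain ⟨s, q, hsq⟩ := exists_turning hz h hU
  have h1 := hsq.move (q, s)
  simp only [sub_self] at h1
  have h2 : translate (q, s) z (b - q, 0) = U := by
    simp only [translate, Prod.mk_add_mk, sub_add_cancel, zero_add]
    exact (hz.col_U b s t).2 hU
  obtain ⟨m, hm⟩ := (hz.move (q, s)).eq_xs h1 h2
  exact ⟨m, _, hm⟩

theorem xs_row (n m : ℕ) : RowS (xs n) (m + 1) (stt m) := by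
  have h1 := RowP.next_false (valid_xs n) (turning_xs n)
  rw [zero_add] at h1
  have h2 := RowS.iter (valid_xs n) ⟨le_rfl, by simp⟩ h1 m
  rw [add_comm] at h2
  exact h2

theorem xs_succ_mem_orbitClosure (n : ℕ) : xs (n + 1) ∈ orbitClosure (xs n) := by
  have hreach : ∀ K : ℕ, ∃ m : ℕ, stt m = (1, 1 + (K : ℤ), ∅) := by
    intro K
    obtain ⟨m, hm⟩ := reach K 1 ∅ (by simp)
    exact ⟨m, hm⟩
  choose m hm using hreach
  obtain ⟨y, hy⟩ := exists_limit (fun K => translate (1, (m K : ℤ) + 1) (xs n))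
  have hyc : y ∈ orbitClosure (xs n) := by
    apply (closedSet_iff _).1 (isShift_orbitClosure (xs n)).closed
    intro F
    obtain ⟨k, _, hk⟩ := hy F 0
    exact ⟨_, translate_mem_orbitClosure _ _, hk⟩
  have hyX : y ∈ XS n := orbitClosure_subset (isShift_XS n) (xs_mem le_rfl) hyc
  have hrow : ∀ K : ℕ, RowS (xs n) ((m K : ℤ) + 1) (1, 1 + (K : ℤ), ∅) := by
    intro K
    have := xs_row n (m K)
    rwa [hm K] at this
  have e : ∀ (K : ℕ) (x : ℤ), translate (1, (m K : ℤ) + 1) (xs n) (x, 0) =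
      xs n (x + 1, (m K : ℤ) + 1) := by
    intro K x
    simp only [translate, Prod.mk_add_mk, zero_add]
  have hU : ∀ x, y (x, 0) = U ↔ x < -((n + 1 : ℕ) : ℤ) := by
    intro x
    obtain ⟨k, _, hk⟩ := hy {(x, 0)} 0
    have h1 := hk (x, 0) (by simp)
    rw [← h1, e, xs_eq_U]
    push_cast
    constructor <;> intro h <;> omega
  have hP : RowP y 0 0 false := by
    refine ⟨fun x hx => ?_, fun x hx => ?_⟩
    · obtain ⟨k, _, hk⟩ := hy {(x, 0)} 0
      have h1 := hk (x, 0) (by simp)
      rw [← h1, e]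
      exact (hrow k).1 _ (by simp only; omega)
    · obtain ⟨k, hk1, hk⟩ := hy {(x, 0)} (x.toNat + 1)
      have h1 := hk (x, 0) (by simp)
      rw [← h1, e, (hrow k).2 _ (by simp only; omega)]
      exact sym_lt' (by simp only; omega) (by simp)
  have h2 := hyX.1.eq_ww hP
  have h3 : y = xs (n + 1) := by
    rw [h2]
    unfold xs
    congr 1
    funext x
    exact propext (hU x)
  rw [← h3]
  exact hyc

theorem xs_mem_orbitClosure {n m : ℕ} (h : n ≤ m) : xs m ∈ orbitClosure (xs n) := by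
  induction m, h using Nat.le_induction with
  | base => exact mem_orbitClosure_self _
  | succ m _ ih =>
    exact orbitClosure_subset (isShift_orbitClosure _) ih (xs_succ_mem_orbitClosure m)

theorem yy_mem_orbitClosure (n : ℕ) : yy ∈ orbitClosure (xs n) := by
  obtain ⟨y, hy⟩ := exists_limit (fun K => xs (n + K))
  have hyc : y ∈ orbitClosure (xs n) := by
    apply (closedSet_iff _).1 (isShift_orbitClosure (xs n)).closed
    intro F
    obtain ⟨k, _, hk⟩ := hy F 0
    exact ⟨_, xs_mem_orbitClosure (by omega), hk⟩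
  have hyX : y ∈ XS n := orbitClosure_subset (isShift_XS n) (xs_mem le_rfl) hyc
  have hP : RowP y 0 0 false := by
    refine ⟨fun x hx => ?_, fun x hx => ?_⟩
    · obtain ⟨k, _, hk⟩ := hy {(x, 0)} 0
      rw [← hk (x, 0) (by simp)]
      exact (turning_xs _).1 x hx
    · obtain ⟨k, _, hk⟩ := hy {(x, 0)} 0
      rw [← hk (x, 0) (by simp)]
      exact (turning_xs _).2 x hx
  have h2 := hyX.1.eq_ww hP
  have h3 : y = yy := by
    rw [h2]
    unfold yy
    congr 1
    funext x
    apply propext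
    simp only [iff_false]
    intro hx
    obtain ⟨k, hk1, hk⟩ := hy {(x, 0)} (x.natAbs + 1)
    rw [← hk (x, 0) (by simp), xs_eq_U] at hx
    push_cast at hx
    omega
  rw [← h3]
  exact hyc

theorem mem_orbitClosure_xs_of_no_marker {z : ℤ × ℤ → Sy} (hz : Valid z) (n : ℕ)
    (hL : ∀ x t, isL (z (x, t))) : z ∈ orbitClosure (xs n) := by
  by_cases hall : ∀ x, z (x, 0) = U
  · apply mem_closure_of_windows
    intro r
    refine ⟨(-(n : ℤ) - r - 1, 0), fun x t h1 h2 h3 h4 => ?_⟩
    rw [(hz.col_U x t 0).2 (hall x)]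
    simp only [translate, Prod.mk_add_mk]
    rw [xs_eq_U]
    omega
  · by_cases hno : ∀ x, z (x, 0) ≠ U
    · apply orbitClosure_subset (isShift_orbitClosure _) (yy_mem_orbitClosure n)
      exact mem_closure_yy hz (fun v hv => hno v.1 ((hz.col_U v.1 v.2 0).1 hv))
    · push Not at hall hno
      obtain ⟨a, ha⟩ := hall
      obtain ⟨b, hb⟩ := hno
      obtain ⟨c, hc, hmax⟩ := Int.exists_greatest_of_bdd (P := fun x => z (x, 0) = U)
        ⟨a, fun x hx => by
          by_contra hlt
          exact ha (hz.U_mono (show a ≤ x by omega) hx)⟩ ⟨b, hb⟩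
      have hcU : ∀ x t, z (x, t) = U ↔ x ≤ c := by
        intro x t
        rw [hz.col_U x t 0]
        exact ⟨hmax x, fun h => hz.U_mono h hc⟩
      apply mem_closure_of_windows
      intro r
      set T : ℕ := 2 * r + n + c.natAbs + 1 with hT
      refine ⟨(-(n : ℤ) - 1 - c, -((T : ℤ) + r + 1)), fun x t h1 h2 h3 h4 => ?_⟩
      simp only [translate, Prod.mk_add_mk]
      by_cases hx : x ≤ c
      · rw [(hcU x t).2 hx, xs_eq_U]
        omega
      · have h5 : z (x, t) = C := by
          rcases hL x t with h | h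
          · exact h
          · exact absurd ((hcU x t).1 h) hx
        rw [h5]
        obtain ⟨k, hk⟩ : ∃ k : ℕ, t + -((T : ℤ) + r + 1) = 0 - ((k + 1 : ℕ) : ℤ) :=
          ⟨(-(t + -((T : ℤ) + r + 1)) - 1).toNat, by omega⟩
        rw [hk]
        have h6 := RowP.prev_iter (valid_xs n) (turning_xs n) k
        have h7 := h6.1 (x + (-(n : ℤ) - 1 - c)) (by omega)
        rcases h7 with h7 | h7
        · exact h7
        · rw [xs_eq_U] at h7
          omega

theorem XS_eq (n : ℕ) : XS n = orbitClosure (xs n) := by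
  apply Set.Subset.antisymm
  · intro z hz
    by_cases hU : ∃ b t, z (b, t) = U
    · obtain ⟨b, t, hb⟩ := hU
      rcases row_trichotomy hz.1 t with h | h | ⟨p, h⟩
      · apply mem_orbitClosure_xs_of_no_marker hz.1 n
        intro x s
        rcases row_trichotomy hz.1 s with h1 | h1 | ⟨p, h1⟩
        · exact h1 x
        · exact absurd (Or.inr ((hz.1.col_U b s t).2 hb)) (h1 b)
        · obtain ⟨q, hq⟩ := marked_all hz.1 h1 t
          exact absurd (h q) (hq.2 q le_rfl)
      · exact absurd (Or.inr hb) (h b)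
      · obtain ⟨m, v, hm⟩ := hz.1.classify h hb
        have h1 : xs m ∈ XS n := by rw [← hm]; exact (isShift_XS n).invariant v z hz
        have h2 := xs_mem_orbitClosure (le_of_xs_mem h1)
        have h3 := (isShift_orbitClosure (xs n)).invariant (-v) _ h2
        rwa [← hm, translate_neg_cancel] at h3
    · push Not at hU
      exact orbitClosure_subset (isShift_orbitClosure _) (yy_mem_orbitClosure n)
        (mem_closure_yy hz.1 (fun v => hU v.1 v.2))
  · exact orbitClosure_subset (isShift_XS n) (xs_mem le_rfl)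

theorem XS_diff {n : ℕ} {z : ℤ × ℤ → Sy} (hz : z ∈ XS n) (hz' : z ∉ XS (n + 1)) :
    ∃ v, translate v z = xs n := by
  have hex : ∃ x t : ℤ, z (x, t) = U ∧ ¬ isL (z (x + ((n : ℤ) + 1), t)) := by
    by_contra hno
    push Not at hno
    apply hz'
    refine ⟨hz.1, fun x t i hi hU => ?_⟩
    rcases Nat.lt_succ_iff_lt_or_eq.1 hi with h | h
    · exact hz.2 x t i h hU
    · subst h
      exact hno x t hU
  obtain ⟨b, t, hb, hnot⟩ := hex
  rcases row_trichotomy hz.1 t with h | h | ⟨p, h⟩
  · exact absurd (h _) hnot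
  · exact absurd (Or.inr hb) (h b)
  · obtain ⟨m, v, hm⟩ := hz.1.classify h hb
    have h1 : xs m ∈ XS n := by rw [← hm]; exact (isShift_XS n).invariant v z hz
    have h2 : xs m ∉ XS (n + 1) := by
      intro h3
      apply hz'
      have h4 := (isShift_XS (n + 1)).invariant (-v) _ h3
      rwa [← hm, translate_neg_cancel] at h4
    have h3 := le_of_xs_mem h1
    have h4 : ¬ n + 1 ≤ m := fun h => h2 (xs_mem h)
    have h5 : m = n := by omega
    exact ⟨v, by rw [hm, h5]⟩

theorem XS_ssubset (n : ℕ) : XS (n + 1) ⊂ XS n := by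
  refine ⟨XS_anti (by omega), fun h => ?_⟩
  have := le_of_xs_mem (h (xs_mem (le_refl n)))
  omega

/-- Every subsystem of `XS n` is contained in `XS (n + 1)`. -/
theorem subsystem_subset {n : ℕ} {Y : Set (ℤ × ℤ → Sy)} (hY : IsSubsystem Y (XS n)) :
    Y ⊆ XS (n + 1) := by
  intro z hz
  by_contra hnot
  obtain ⟨v, hv⟩ := XS_diff (hY.2.1 hz) hnot
  apply hY.2.2
  rw [XS_eq]
  apply orbitClosure_subset hY.1
  rw [← hv]
  exact hY.1.invariant v z hz

end Pool.Agent.MP_0cba1e_an.Rules
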