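import Pool.Agent.MP_0cba1e_an.Lift
import Pool.Agent.MP_0cba1e_an.StrongPlane

/-!
Chains in which each shift contains every subsystem of the preceding one.
-/

namespace Pool.Agent.MP_0cba1e_an

theorem isUniqueMaximal_of_greatest {G A : Type} [AddCommGroup G] {X Y : Set (G → A)}
    (hY : IsShift Y) (hYX : Y ⊂ X) (h : ∀ Z : Set (G → A), IsSubsystem Z X → Z ⊆ Y) :
    IsUniqueMaximalSubsystem Y X := by
  refine ⟨⟨⟨hY, hYX⟩, ?_⟩, ?_⟩
  · rintro ⟨Z, hZ, h1, h2⟩
    exact h1.2 (h Z ⟨hZ, h2⟩)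
  · intro Z hZ
    have h1 := h Z hZ.1
    by_contra hne
    exact hZ.2 ⟨Y, hY, ⟨h1, fun h2 => hne (Set.Subset.antisymm h1 h2)⟩, hYX⟩

theorem HasGreatestChain.hasInfiniteChain {G : Type} [AddCommGroup G] (h : HasGreatestChain G) :
    HasInfiniteChain G := by
  obtain ⟨A, hA, X, h0, h1, h2⟩ := h
  exact ⟨A, hA, X, h0, h1, fun n => (h2 n).1⟩

theorem hasGreatestChain_plane : HasGreatestChain (ℤ × ℤ) :=
  ⟨Rules.Sy, inferInstance, Rules.XS, Rules.isSFT_XS_zero, Rules.isShift_XS, fun n =>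
    ⟨isUniqueMaximal_of_greatest (Rules.isShift_XS _) (Rules.XS_ssubset n)
      (fun _ hZ => Rules.subsystem_subset hZ), fun _ hY => Rules.subsystem_subset hY⟩⟩

theorem hasGreatestChain_of_surjective {G H : Type} [AddCommGroup G] [AddCommGroup H]
    {π : G →+ H} (hπ : Function.Surjective π)
    (T : Finset G) (hT0 : ∀ t ∈ T, π t = 0)
    (hT : ∀ g : G, π g = 0 → g ∈ Submodule.span ℤ (T : Set G))
    (h : HasGreatestChain H) : HasGreatestChain G := by
  obtain ⟨A, hA, X, h0, h1, h2⟩ := h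
  refine ⟨A, hA, fun n => pull π (X n), isSFT_pull hπ T hT0 hT h0,
    fun n => isShift_pull hπ (h1 n), fun n => ⟨isUniqueMaximal_pull hπ (h2 n).1, ?_⟩⟩
  intro Z hZ
  obtain ⟨Z', hZ', rfl⟩ := exists_pull hπ hZ.1 hZ.2.1
  exact (pull_subset_iff hπ).2 ((h2 n).2 Z' ⟨hZ', (pull_ssubset_iff hπ).1 hZ.2⟩)

theorem hasGreatestChain_of_two_le {d : ℕ} (hd : 2 ≤ d) : HasGreatestChain (Fin d → ℤ) := by
  let i0 : Fin d := ⟨0, by omega⟩
  let i1 : Fin d := ⟨1, by omega⟩
  have hi : i0 ≠ i1 := by simp [i0, i1]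
  let π : (Fin d → ℤ) →+ ℤ × ℤ :=
    { toFun := fun v => (v i0, v i1)
      map_zero' := rfl
      map_add' := fun _ _ => rfl }
  have hπ : Function.Surjective π := by
    rintro ⟨a, b⟩
    refine ⟨fun i => if i = i0 then a else b, ?_⟩
    simp [π, hi.symm]
  obtain ⟨T, hT⟩ := (inferInstance : IsNoetherian ℤ (Fin d → ℤ)).noetherian
    (LinearMap.ker π.toIntLinearMap)
  apply hasGreatestChain_of_surjective hπ T _ _ hasGreatestChain_plane
  · intro t ht
    have : t ∈ Submodule.span ℤ (T : Set (Fin d → ℤ)) := Submodule.subset_span ht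
    rw [hT] at this
    exact this
  · intro g hg
    rw [hT]
    exact hg

end Pool.Agent.MP_0cba1e_an
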