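import Pool.Agent.MP_0cba1e_an.Basic

/-!
Pulling back chains along a surjective homomorphism whose kernel is finitely generated.
-/

namespace Pool.Agent.MP_0cba1e_an

variable {G H A : Type} [AddCommGroup G] [AddCommGroup H]

theorem isSFT_of_local [Finite A] [Nonempty A] (W : Finset G) (P : (G → A) → Prop)
    (hP : ∀ f g : G → A, (∀ u ∈ W, f u = g u) → P f → P g) (X : Set (G → A))
    (hX : X = {x | ∀ v : G, P (translate v x)}) (hne : X.Nonempty) : IsSFT X := by
  apply isSFT_of_window W (fun f => ∃ g : G → A, (∀ u : W, g u = f u) ∧ P g) X _ hne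
  rw [hX]
  ext x
  simp only [Set.mem_setOf_eq]
  constructor
  · intro h v
    exact ⟨translate v x, fun u => rfl, h v⟩
  · intro h v
    obtain ⟨g, hg, hPg⟩ := h v
    exact hP g _ (fun u hu => hg ⟨u, hu⟩) hPg

/-- The configurations factoring through `π`. -/
def pull (π : G →+ H) (X : Set (H → A)) : Set (G → A) := (fun x => x ∘ π) '' X

theorem comp_injective {π : G →+ H} (hπ : Function.Surjective π) {x y : H → A}
    (h : x ∘ π = y ∘ π) : x = y := by
  funext u
  obtain ⟨g, rfl⟩ := hπ u
  exact congrFun h g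

theorem pull_subset_iff {π : G →+ H} (hπ : Function.Surjective π) {X Y : Set (H → A)} :
    pull π X ⊆ pull π Y ↔ X ⊆ Y := by
  constructor
  · intro h x hx
    obtain ⟨y, hy, hyx⟩ := h ⟨x, hx, rfl⟩
    have := comp_injective hπ hyx
    rw [← this]
    exact hy
  · intro h
    exact Set.image_mono h

theorem pull_ssubset_iff {π : G →+ H} (hπ : Function.Surjective π) {X Y : Set (H → A)} :
    pull π X ⊂ pull π Y ↔ X ⊂ Y := by
  rw [Set.ssubset_def, Set.ssubset_def, pull_subset_iff hπ, pull_subset_iff hπ]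

theorem translate_comp (π : G →+ H) (v : G) (x : H → A) :
    translate v (x ∘ π) = translate (π v) x ∘ π := by
  funext u
  simp [translate]

theorem isShift_pull {π : G →+ H} (hπ : Function.Surjective π) {X : Set (H → A)}
    (hX : IsShift X) : IsShift (pull π X) := by
  classical
  refine ⟨hX.nonempty.image _, ?_, ?_⟩
  · rw [closedSet_iff]
    intro y hy
    have hconst : ∀ u w, π u = π w → y u = y w := by
      intro u w huw
      obtain ⟨z, ⟨x, _, rfl⟩, hzy⟩ := hy {u, w}
      rw [← hzy u (by simp), ← hzy w (by simp)]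
      simp [huw]
    choose s hs using hπ
    have hys : y = (y ∘ s) ∘ π := by
      funext u
      apply hconst
      rw [hs]
    refine ⟨y ∘ s, ?_, hys.symm⟩
    apply (closedSet_iff X).1 hX.closed
    intro F
    obtain ⟨z, ⟨x, hx, rfl⟩, hzy⟩ := hy (F.image s)
    refine ⟨x, hx, fun u hu => ?_⟩
    have := hzy (s u) (Finset.mem_image_of_mem _ hu)
    simp only [Function.comp_apply, hs] at this
    exact this
  · rintro v y ⟨x, hx, rfl⟩
    exact ⟨translate (π v) x, hX.invariant _ x hx, (translate_comp π v x).symm⟩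

theorem exists_pull {π : G →+ H} (hπ : Function.Surjective π) {X : Set (H → A)}
    {Z : Set (G → A)} (hZ : IsShift Z) (hZX : Z ⊆ pull π X) :
    ∃ Z' : Set (H → A), IsShift Z' ∧ Z = pull π Z' := by
  classical
  have hZeq : Z = pull π {x | x ∘ π ∈ Z} := by
    ext z
    constructor
    · intro hz
      obtain ⟨x, _, rfl⟩ := hZX hz
      exact ⟨x, hz, rfl⟩
    · rintro ⟨x, hx, rfl⟩
      exact hx
  refine ⟨{x | x ∘ π ∈ Z}, ⟨?_, ?_, ?_⟩, hZeq⟩
  · obtain ⟨z, hz⟩ := hZ.nonempty
    obtain ⟨x, _, rfl⟩ := hZX hz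
    exact ⟨x, hz⟩
  · rw [closedSet_iff]
    intro x hx
    apply (closedSet_iff Z).1 hZ.closed
    intro F
    obtain ⟨y, hy, hyx⟩ := hx (F.image π)
    exact ⟨y ∘ π, hy, fun u hu => hyx _ (Finset.mem_image_of_mem _ hu)⟩
  · intro v x hx
    obtain ⟨g, rfl⟩ := hπ v
    have := hZ.invariant g _ hx
    rw [translate_comp] at this
    exact this

theorem isMaximal_pull {π : G →+ H} (hπ : Function.Surjective π) {X Y : Set (H → A)}
    (hY : IsShift Y) :
    IsMaximalSubsystem (pull π Y) (pull π X) ↔ IsMaximalSubsystem Y X := by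
  unfold IsMaximalSubsystem IsSubsystem
  rw [pull_ssubset_iff hπ]
  constructor
  · rintro ⟨⟨_, h1⟩, h2⟩
    refine ⟨⟨hY, h1⟩, ?_⟩
    rintro ⟨Z, hZ, h3, h4⟩
    exact h2 ⟨pull π Z, isShift_pull hπ hZ, (pull_ssubset_iff hπ).2 h3,
      (pull_ssubset_iff hπ).2 h4⟩
  · rintro ⟨⟨_, h1⟩, h2⟩
    refine ⟨⟨isShift_pull hπ hY, h1⟩, ?_⟩
    rintro ⟨Z, hZ, h3, h4⟩
    obtain ⟨Z', hZ', rfl⟩ := exists_pull hπ hZ h4.1
    exact h2 ⟨Z', hZ', (pull_ssubset_iff hπ).1 h3, (pull_ssubset_iff hπ).1 h4⟩

theorem isUniqueMaximal_pull {π : G →+ H} (hπ : Function.Surjective π) {X Y : Set (H → A)}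
    (h : IsUniqueMaximalSubsystem Y X) : IsUniqueMaximalSubsystem (pull π Y) (pull π X) := by
  refine ⟨(isMaximal_pull hπ h.1.1.1).2 h.1, ?_⟩
  intro Z hZ
  obtain ⟨Z', hZ', rfl⟩ := exists_pull hπ hZ.1.1 hZ.1.2.1
  rw [h.2 Z' ((isMaximal_pull hπ hZ').1 hZ)]

theorem isSFT_pull [Finite A] {π : G →+ H} (hπ : Function.Surjective π) (T : Finset G)
    (hT0 : ∀ t ∈ T, π t = 0) (hT : ∀ g : G, π g = 0 → g ∈ Submodule.span ℤ (T : Set G))
    {X : Set (H → A)} (hX : IsSFT X) : IsSFT (pull π X) := by
  classical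
  obtain ⟨hsh, F, hF, hXF⟩ := hX
  obtain ⟨x0, hx0⟩ := hsh.nonempty
  haveI : Nonempty A := ⟨x0 0⟩
  have hπ' := hπ
  choose s hs using hπ'
  let W : Finset G := insert 0 (T ∪ hF.toFinset.biUnion (fun p => p.supp.image s))
  apply isSFT_of_local W (fun f => (∀ t ∈ T, f t = f 0) ∧
    ∀ p ∈ F, ¬ ∀ u : p.supp, f (s u) = p.letter u)
  · rintro f g hfg ⟨h1, h2⟩
    refine ⟨fun t ht => ?_, fun p hp hall => ?_⟩
    · rw [← hfg t (by simp [W, ht]), ← hfg 0 (by simp [W]), h1 t ht]
    · apply h2 p hp
      intro u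
      rw [← hall u]
      apply hfg
      simp only [W, Finset.mem_insert, Finset.mem_union, Finset.mem_biUnion,
        Set.Finite.mem_toFinset, Finset.mem_image]
      exact Or.inr (Or.inr ⟨p, hp, u, u.2, rfl⟩)
  · ext y
    simp only [Set.mem_setOf_eq]
    constructor
    · rintro ⟨x, hx, rfl⟩ v
      refine ⟨fun t ht => ?_, fun p hp hall => ?_⟩
      · simp [translate, hT0 t ht]
      · rw [hXF] at hx
        apply hx p hp (π v)
        intro u
        rw [← hall u]
        simp [translate, hs]
    · intro h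
      have hstep : ∀ g ∈ Submodule.span ℤ (T : Set G), ∀ v, y (g + v) = y v := by
        intro g hg
        induction hg using Submodule.span_induction with
        | mem t ht =>
          intro v
          have := (h v).1 t ht
          simpa [translate] using this
        | zero => intro v; rw [zero_add]
        | add a b _ _ iha ihb => intro v; rw [add_assoc, iha, ihb]
        | smul c a _ iha =>
          intro v
          induction c using Int.induction_on with
          | zero => simp
          | succ n ih =>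
            rw [add_smul, one_smul, add_assoc, add_comm a v, ← add_assoc, add_comm _ a,
              iha, ih]
          | pred n ih =>
            have e : -(n : ℤ) • a + v = a + ((-(n : ℤ) - 1) • a + v) := by
              rw [sub_smul, one_smul]
              abel
            rw [e, iha] at ih
            exact ih
      have hconst : ∀ u w, π u = π w → y u = y w := by
        intro u w huw
        have := hstep (u - w) (hT _ (by rw [map_sub, huw, sub_self])) w
        rwa [sub_add_cancel] at this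
      have hys : y = (y ∘ s) ∘ π := by
        funext u
        apply hconst
        rw [hs]
      refine ⟨y ∘ s, ?_, hys.symm⟩
      rw [hXF]
      intro p hp v hap
      apply (h (s v)).2 p hp
      intro u
      rw [← hap u]
      simp only [translate, Function.comp_apply]
      apply hconst
      rw [map_add, hs, hs, hs]
  · exact hsh.nonempty.image _

theorem hasInfiniteChain_of_surjective {π : G →+ H} (hπ : Function.Surjective π)
    (T : Finset G) (hT0 : ∀ t ∈ T, π t = 0)
    (hT : ∀ g : G, π g = 0 → g ∈ Submodule.span ℤ (T : Set G))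
    (h : HasInfiniteChain H) : HasInfiniteChain G := by
  obtain ⟨A, hA, X, h0, h1, h2⟩ := h
  exact ⟨A, hA, fun n => pull π (X n), isSFT_pull hπ T hT0 hT h0,
    fun n => isShift_pull hπ (h1 n), fun n => isUniqueMaximal_pull hπ (h2 n)⟩

/-- In `ℤ^d` with `d ≥ 2`. -/
theorem hasInfiniteChain_of_two_le {d : ℕ} (hd : 2 ≤ d) (h : HasInfiniteChain (ℤ × ℤ)) :
    HasInfiniteChain (Fin d → ℤ) := by
  let i0 : Fin d := ⟨0, by omega⟩
  let i1 : Fin d := ⟨1, by omega⟩
  have hi : i0 ≠ i1 := by simp [i0, i1]
  let π : (Fin d → ℤ) →+ ℤ × ℤ :=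
    { toFun := fun v => (v i0, v i1)
      map_zero' := rfl
      map_add' := fun _ _ => rfl }
  have hπ : Function.Surjective π := by
    rintro ⟨a, b⟩
    refine ⟨fun i => if i = i0 then a else b, ?_⟩
    simp [π, hi.symm]
  obtain ⟨T, hT⟩ := (inferInstance : IsNoetherian ℤ (Fin d → ℤ)).noetherian
    (LinearMap.ker π.toIntLinearMap)
  apply hasInfiniteChain_of_surjective hπ T _ _ h
  · intro t ht
    have : t ∈ Submodule.span ℤ (T : Set (Fin d → ℤ)) := Submodule.subset_span ht
    rw [hT] at this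
    exact this
  · intro g hg
    rw [hT]
    exact hg

end Pool.Agent.MP_0cba1e_an
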