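import Pool.Agent.MP_0cba1e_an.Rules

/-!
Orbits of the machine of `Rules`.
-/

namespace Pool.Agent.MP_0cba1e_an.Rules

theorem Legal.iter {s : ℤ × ℤ × Set ℤ} (hs : Legal s) (n : ℕ) : Legal (step^[n] s) := by
  induction n with
  | zero => exact hs
  | succ n ih =>
    rw [Function.iterate_succ_apply']
    exact ih.nxt

/-- With no ones below `p + g`, the head reaches `p + g` and everything else is restored. -/
theorem reach (g : ℕ) : ∀ (p : ℤ) (S : Set ℤ), (∀ x ∈ S, p + g ≤ x) →
    ∃ n : ℕ, step^[n] (p, p, S) = (p, p + g, S) := by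
  induction g using Nat.strong_induction_on with
  | _ g ih =>
    intro p S hS
    rcases g with _ | _ | g
    · exact ⟨0, by simp⟩
    · have hp : p ∉ S := fun h => by have := hS p h; push_cast at this; omega
      refine ⟨1, ?_⟩
      rw [Function.iterate_one, step_K hp]
      simp
    · obtain ⟨n1, h1⟩ := ih (g + 1) (by omega) p S (fun x hx => by
        have := hS x hx; push_cast at this ⊢; omega)
      have hj : p + ((g + 1 : ℕ) : ℤ) ∉ S := fun h => by
        have := hS _ h; push_cast at this; omega
      have h2 := step_D hj (p := p) (by push_cast; omega)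
      obtain ⟨n2, h3⟩ := ih g (by omega) (p + 1) (insert (p + ((g + 1 : ℕ) : ℤ)) S) (by
        intro x hx
        rcases hx with rfl | hx
        · push_cast; omega
        · have := hS x hx; push_cast at this; omega)
      have h4 : step (p + 1, p + 1 + (g : ℤ), insert (p + ((g + 1 : ℕ) : ℤ)) S) =
          (p, p + ((g + 1 + 1 : ℕ) : ℤ), S) := by
        have e : p + 1 + (g : ℤ) = p + ((g + 1 : ℕ) : ℤ) := by push_cast; ring
        rw [e, step_A (Set.mem_insert _ _)]
        have e2 : insert (p + ((g + 1 : ℕ) : ℤ)) S \ {p + ((g + 1 : ℕ) : ℤ)} = S := by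
          ext x
          simp only [Set.mem_sdiff, Set.mem_insert_iff, Set.mem_singleton_iff]
          constructor
          · rintro ⟨h | h, h'⟩
            · exact absurd h h'
            · exact h
          · intro h
            exact ⟨Or.inr h, fun h' => hj (h' ▸ h)⟩
        rw [e2]
        ext1
        · simp
        · ext1
          · simp only
            push_cast
            ring
          · rfl
      refine ⟨1 + (n2 + (1 + n1)), ?_⟩
      rw [Function.iterate_add_apply, Function.iterate_add_apply, Function.iterate_add_apply,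
        h1, Function.iterate_one, h2, h3, h4]

theorem diff_eq_self {S : Set ℤ} {j : ℤ} (hj : j ∉ S) : S \ {j} = S := by
  ext x
  simp only [Set.mem_sdiff, Set.mem_singleton_iff]
  exact ⟨fun h => h.1, fun h => ⟨h, fun h' => hj (h' ▸ h)⟩⟩

theorem insert_diff_eq {S : Set ℤ} {j : ℤ} (hj : j ∉ S) : insert j S \ {j} = S := by
  ext x
  simp only [Set.mem_sdiff, Set.mem_insert_iff, Set.mem_singleton_iff]
  constructor
  · rintro ⟨h | h, h'⟩
    · exact absurd h h'
    · exact h
  · intro h
    exact ⟨Or.inr h, fun h' => hj (h' ▸ h)⟩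

theorem diff_insert_eq {S : Set ℤ} {j : ℤ} (hj : j ∈ S) : insert j (S \ {j}) = S := by
  ext x
  simp only [Set.mem_sdiff, Set.mem_insert_iff, Set.mem_singleton_iff]
  constructor
  · rintro (h | ⟨h, _⟩)
    · rw [h]; exact hj
    · exact h
  · intro h
    by_cases hx : x = j
    · exact Or.inl hx
    · exact Or.inr ⟨h, hx⟩

open Classical in
/-- Clearing one more cell. -/
theorem clear_one {p j : ℤ} {S : Set ℤ} (hs : Legal (p, j, S)) :
    ∃ n : ℕ, step^[n] (p, j, S) = (if j ∈ S then p - 1 else p, j + 1, S \ {j}) := by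
  by_cases hj : j ∈ S
  · exact ⟨1, by rw [Function.iterate_one, step_A hj, if_pos hj]⟩
  · rw [if_neg hj, diff_eq_self hj]
    by_cases hp : j = p
    · subst hp
      exact ⟨1, by rw [Function.iterate_one, step_K hj]⟩
    · have hpj : p ≤ j := hs.1
      have hS : ∀ x ∈ S, j ≤ x := hs.2
      obtain ⟨n, hn⟩ := reach (j - (p + 1)).toNat (p + 1) (insert j S) (by
        intro x hx
        rcases hx with rfl | hx
        · omega
        · have := hS x hx; omega)
      refine ⟨1 + (n + 1), ?_⟩
      rw [Function.iterate_add_apply, Function.iterate_add_apply, Function.iterate_one,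
        step_D hj hp, hn, show p + 1 + ((j - (p + 1)).toNat : ℤ) = j by omega,
        step_A (Set.mem_insert _ _), insert_diff_eq hj]
      simp

theorem clear {p j : ℤ} {S : Set ℤ} (hs : Legal (p, j, S)) (i : ℕ) :
    ∃ n : ℕ, step^[n] (p, j, S) =
      (p - ((S ∩ Set.Ico j (j + i)).ncard : ℤ), j + i, S \ Set.Ico j (j + i)) := by
  classical
  induction i with
  | zero => exact ⟨0, by simp⟩
  | succ i ih =>
    obtain ⟨n, hn⟩ := ih
    have hL := hs.iter n
    rw [hn] at hL
    obtain ⟨m, hm⟩ := clear_one hL
    refine ⟨m + n, ?_⟩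
    rw [Function.iterate_add_apply, hn, hm]
    have hmem : (j + (i : ℤ) ∈ S \ Set.Ico j (j + i)) ↔ j + (i : ℤ) ∈ S := by
      simp
    have hset : (S \ Set.Ico j (j + i)) \ {j + (i : ℤ)} = S \ Set.Ico j (j + ((i + 1 : ℕ) : ℤ)) := by
      ext x
      simp only [Set.mem_sdiff, Set.mem_Ico, Set.mem_singleton_iff]
      push_cast
      constructor
      · rintro ⟨⟨h1, h2⟩, h3⟩
        exact ⟨h1, fun h => by omega⟩
      · rintro ⟨h1, h2⟩
        exact ⟨⟨h1, fun h => by omega⟩, fun h => by omega⟩
    have hfin : (S ∩ Set.Ico j (j + (i : ℤ))).Finite := (Set.finite_Ico _ _).inter_of_right _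
    rw [hset]
    ext1
    · simp only [hmem]
      by_cases hj : j + (i : ℤ) ∈ S
      · rw [if_pos hj]
        have : S ∩ Set.Ico j (j + ((i + 1 : ℕ) : ℤ)) = insert (j + (i : ℤ))
            (S ∩ Set.Ico j (j + (i : ℤ))) := by
          ext x
          simp only [Set.mem_inter_iff, Set.mem_Ico, Set.mem_insert_iff]
          push_cast
          constructor
          · rintro ⟨h1, h2⟩
            by_cases hx : x = j + i
            · exact Or.inl hx
            · exact Or.inr ⟨h1, by omega⟩
          · rintro (h | h)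
            · rw [h]; exact ⟨hj, by omega⟩
            · exact ⟨h.1, by omega⟩
        rw [this, Set.ncard_insert_of_notMem (by simp) hfin]
        push_cast
        ring
      · rw [if_neg hj]
        have : S ∩ Set.Ico j (j + ((i + 1 : ℕ) : ℤ)) = S ∩ Set.Ico j (j + (i : ℤ)) := by
          ext x
          simp only [Set.mem_inter_iff, Set.mem_Ico]
          push_cast
          constructor
          · rintro ⟨h1, h2⟩
            have : x ≠ j + i := fun h => hj (h ▸ h1)
            exact ⟨h1, by omega⟩
          · rintro ⟨h1, h2⟩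
            exact ⟨h1, by omega⟩
        rw [this]
    · ext1
      · simp only
        push_cast
        ring
      · rfl

/-- A two sided orbit with nonnegative markers. -/
structure TwoSided (s : ℤ → ℤ × ℤ × Set ℤ) : Prop where
  legal : ∀ t, Legal (s t)
  next : ∀ t, s (t + 1) = step (s t)
  nonneg : ∀ t, 0 ≤ (s t).1

namespace TwoSided

variable {s : ℤ → ℤ × ℤ × Set ℤ}

theorem iter (T : TwoSided s) (t : ℤ) (n : ℕ) : s (t + n) = step^[n] (s t) := by
  induction n with
  | zero => simp
  | succ n ih =>
    rw [Function.iterate_succ_apply', ← ih, ← T.next]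
    congr 1
    push_cast
    ring

theorem finite (T : TwoSided s) (t : ℤ) : (s t).2.2.Finite := by
  rcases hst : s t with ⟨p, j, S⟩
  have hL := T.legal t
  rw [hst] at hL
  have hpj : p ≤ j := hL.1
  have hS : ∀ x ∈ S, j ≤ x := hL.2
  simp only
  by_contra hinf
  obtain ⟨F, hF, hcard⟩ := Set.Infinite.exists_subset_card_eq hinf (p.toNat + 1)
  obtain ⟨i, hi⟩ : ∃ i : ℕ, ∀ x ∈ F, x < j + i := by
    refine ⟨(F.sup (fun x => (x - j).toNat)) + 1, fun x hx => ?_⟩
    have : (x - j).toNat ≤ F.sup (fun x => (x - j).toNat) :=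
      Finset.le_sup (f := fun x : ℤ => (x - j).toNat) hx
    have h2 := hS x (hF hx)
    push_cast
    omega
  obtain ⟨n, hn⟩ := clear hL i
  have h1 := T.nonneg (t + n)
  rw [T.iter, hst, hn] at h1
  simp only at h1
  have h2 : (F : Set ℤ) ⊆ S ∩ Set.Ico j (j + i) :=
    fun x hx => ⟨hF hx, hS x (hF hx), hi x hx⟩
  have h3 := Set.ncard_le_ncard h2 ((Set.finite_Ico _ _).inter_of_right _)
  rw [Set.ncard_coe_finset, hcard] at h3
  have h4 : 0 ≤ p := by have := T.nonneg t; rw [hst] at this; exact this
  omega

theorem back_K (T : TwoSided s) {t p : ℤ} {S : Set ℤ} (h : s t = (p, p + 1, S)) :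
    s (t - 1) = (p, p, S) := by
  rcases hst : s (t - 1) with ⟨p', j', S'⟩
  have hL := T.legal (t - 1)
  rw [hst] at hL
  have hpj : p' ≤ j' := hL.1
  have hn := T.next (t - 1)
  rw [sub_add_cancel, h, hst] at hn
  by_cases hj : j' ∈ S'
  · rw [step_A hj] at hn
    simp only [Prod.mk.injEq] at hn
    omega
  · by_cases hp : j' = p'
    · subst hp
      rw [step_K hj] at hn
      simp only [Prod.mk.injEq] at hn
      obtain ⟨h1, _, h3⟩ := hn
      rw [h1, h3]
    · rw [step_D hj hp] at hn
      simp only [Prod.mk.injEq] at hn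
      omega

theorem back_A (T : TwoSided s) {t p j : ℤ} {S : Set ℤ} (h : s t = (p, j, S))
    (hpj : p + 2 ≤ j) : s (t - 1) = (p + 1, j - 1, insert (j - 1) S) := by
  rcases hst : s (t - 1) with ⟨p', j', S'⟩
  have hn := T.next (t - 1)
  rw [sub_add_cancel, h, hst] at hn
  by_cases hj : j' ∈ S'
  · rw [step_A hj] at hn
    simp only [Prod.mk.injEq] at hn
    obtain ⟨h1, h2, h3⟩ := hn
    have e1 : p' = p + 1 := by omega
    have e2 : j' = j - 1 := by omega
    subst e1 e2
    rw [h3, diff_insert_eq hj]
  · by_cases hp : j' = p'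
    · subst hp
      rw [step_K hj] at hn
      simp only [Prod.mk.injEq] at hn
      omega
    · rw [step_D hj hp] at hn
      simp only [Prod.mk.injEq] at hn
      omega

theorem back_D (T : TwoSided s) {t p : ℤ} {S : Set ℤ} (h : s t = (p, p, S)) :
    ∃ m ∈ S, (∀ x ∈ S, m ≤ x) ∧ s (t - 1) = (p - 1, m, S \ {m}) := by
  rcases hst : s (t - 1) with ⟨p', j', S'⟩
  have hL := T.legal (t - 1)
  rw [hst] at hL
  have hpj : p' ≤ j' := hL.1
  have hS' : ∀ x ∈ S', j' ≤ x := hL.2
  have hn := T.next (t - 1)
  rw [sub_add_cancel, h, hst] at hn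
  by_cases hj : j' ∈ S'
  · rw [step_A hj] at hn
    simp only [Prod.mk.injEq] at hn
    omega
  · by_cases hp : j' = p'
    · subst hp
      rw [step_K hj] at hn
      simp only [Prod.mk.injEq] at hn
      omega
    · rw [step_D hj hp] at hn
      simp only [Prod.mk.injEq] at hn
      obtain ⟨h1, _, h3⟩ := hn
      refine ⟨j', by rw [h3]; exact Set.mem_insert _ _, ?_, ?_⟩
      · intro x hx
        rw [h3] at hx
        rcases hx with rfl | hx
        · exact le_rfl
        · exact hS' x hx
      · rw [h3, insert_diff_eq hj]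
        have : p' = p - 1 := by omega
        rw [this]

theorem back_reach (T : TwoSided s) (g : ℕ) : ∀ (t p : ℤ) (S : Set ℤ), s t = (p, p + g, S) →
    ∃ r, s r = (p, p, S) := by
  induction g using Nat.strong_induction_on with
  | _ g ih =>
    intro t p S h
    have hL := T.legal t
    rw [h] at hL
    have hS : ∀ x ∈ S, p + g ≤ x := hL.2
    rcases g with _ | _ | g
    · exact ⟨t, by simpa using h⟩
    · exact ⟨t - 1, T.back_K (by simpa using h)⟩
    · have h1 := T.back_A h (by push_cast; omega)
      obtain ⟨r, hr⟩ := ih g (by omega) (t - 1) (p + 1)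
        (insert (p + ((g + 1 + 1 : ℕ) : ℤ) - 1) S) (by
          rw [h1]
          ext1
          · rfl
          · ext1
            · simp only; push_cast; ring
            · rfl)
      obtain ⟨m, hm, hmin, hs⟩ := T.back_D hr
      have hm1 : m = p + ((g + 1 : ℕ) : ℤ) := by
        have h2 := hmin _ (Set.mem_insert _ _)
        rcases hm with hm | hm
        · rw [hm]; push_cast; ring
        · have := hS m hm; push_cast at this h2 ⊢; omega
      have hnot : p + ((g + 1 + 1 : ℕ) : ℤ) - 1 ∉ S := fun hc => by
        have := hS _ hc; push_cast at this; omega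
      have e1 : m = p + ((g + 1 + 1 : ℕ) : ℤ) - 1 := by rw [hm1]; push_cast; ring
      have h5 : s (r - 1) = (p, p + ((g + 1 : ℕ) : ℤ), S) := by
        rw [hs, e1, insert_diff_eq hnot]
        ext1
        · simp
        · ext1
          · simp only; push_cast; ring
          · rfl
      exact ih (g + 1) (by omega) (r - 1) p S h5

theorem absurd_card (T : TwoSided s) (c : ℕ) : ∀ (t p j : ℤ) (S : Set ℤ), s t = (p, j, S) →
    S.Finite → S.ncard = c → False := by
  induction c with
  | zero =>
    intro t p j S h hfin hc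
    have hL := T.legal t
    rw [h] at hL
    have hpj : p ≤ j := hL.1
    obtain ⟨r, hr⟩ := T.back_reach (j - p).toNat t p S (by
      rw [h, show p + ((j - p).toNat : ℤ) = j by omega])
    obtain ⟨m, hm, _, _⟩ := T.back_D hr
    rw [Set.ncard_eq_zero hfin] at hc
    rw [hc] at hm
    exact hm
  | succ c ih =>
    intro t p j S h hfin hc
    have hL := T.legal t
    rw [h] at hL
    have hpj : p ≤ j := hL.1
    obtain ⟨r, hr⟩ := T.back_reach (j - p).toNat t p S (by
      rw [h, show p + ((j - p).toNat : ℤ) = j by omega])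
    obtain ⟨m, hm, _, hs⟩ := T.back_D hr
    apply ih (r - 1) _ _ _ hs (hfin.subset Set.sdiff_subset)
    rw [Set.ncard_sdiff_singleton_of_mem hm, hc]
    simp

theorem false (T : TwoSided s) : False :=
  T.absurd_card _ 0 _ _ _ rfl (T.finite 0) rfl

end TwoSided

/-- Every legal state with finitely many ones is reached from an empty state. -/
theorem hit (c : ℕ) : ∀ (p : ℤ) (S : Set ℤ), S.Finite → S.ncard = c → (∀ x ∈ S, p ≤ x) →
    ∃ n : ℕ, step^[n] (p - c, p - c, ∅) = (p, p, S) := by
  induction c with
  | zero =>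
    intro p S hfin hc _
    rw [Set.ncard_eq_zero hfin] at hc
    subst hc
    exact ⟨0, by simp⟩
  | succ c ih =>
    intro p S hfin hc hS
    have hne : S.Nonempty := by
      rw [← Set.ncard_pos hfin, hc]; omega
    obtain ⟨m, hm, hmin⟩ := Set.exists_min_image S id hfin hne
    simp only [id] at hmin
    obtain ⟨n1, h1⟩ := ih (p - 1) (S \ {m}) (hfin.subset Set.sdiff_subset) (by
        rw [Set.ncard_sdiff_singleton_of_mem hm, hc]; simp)
      (fun x hx => by have := hS x hx.1; omega)
    have hpm := hS m hm
    obtain ⟨n2, h2⟩ := reach (m - (p - 1)).toNat (p - 1) (S \ {m}) (fun x hx => by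
      have := hmin x hx.1
      omega)
    rw [show p - 1 + ((m - (p - 1)).toNat : ℤ) = m by omega] at h2
    refine ⟨1 + (n2 + n1), ?_⟩
    have e : p - ((c + 1 : ℕ) : ℤ) = p - 1 - c := by push_cast; ring
    rw [Function.iterate_add_apply, Function.iterate_add_apply, e, h1, h2,
      Function.iterate_one, step_D (by simp) (by omega), diff_insert_eq hm]
    simp

theorem hit' {p j : ℤ} {S : Set ℤ} (hfin : S.Finite) (hs : Legal (p, j, S)) :
    ∃ n : ℕ, step^[n] (p - S.ncard, p - S.ncard, ∅) = (p, j, S) := by
  have hpj : p ≤ j := hs.1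
  have hS : ∀ x ∈ S, j ≤ x := hs.2
  obtain ⟨n1, h1⟩ := hit S.ncard p S hfin rfl (fun x hx => hpj.trans (hS x hx))
  obtain ⟨n2, h2⟩ := reach (j - p).toNat p S (fun x hx => by have := hS x hx; omega)
  rw [show p + ((j - p).toNat : ℤ) = j by omega] at h2
  exact ⟨n2 + n1, by rw [Function.iterate_add_apply, h1, h2]⟩

/-- The marker minus the number of ones is conserved. -/
theorem conserved {p j : ℤ} {S : Set ℤ} (hfin : S.Finite) :
    (step (p, j, S)).2.2.Finite ∧
      (step (p, j, S)).1 - (step (p, j, S)).2.2.ncard = p - S.ncard := by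
  by_cases hj : j ∈ S
  · rw [step_A hj]
    refine ⟨hfin.subset Set.sdiff_subset, ?_⟩
    simp only
    rw [Set.ncard_sdiff_singleton_of_mem hj]
    have : 0 < S.ncard := (Set.ncard_pos hfin).2 ⟨j, hj⟩
    push_cast [this]
    ring
  · by_cases hp : j = p
    · subst hp
      rw [step_K hj]
      exact ⟨hfin, rfl⟩
    · rw [step_D hj hp]
      refine ⟨hfin.insert _, ?_⟩
      simp only
      rw [Set.ncard_insert_of_notMem hj hfin]
      push_cast
      ring

theorem conserved_iter (s : ℤ × ℤ × Set ℤ) (hfin : s.2.2.Finite) (n : ℕ) :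
    (step^[n] s).2.2.Finite ∧
      (step^[n] s).1 - ((step^[n] s).2.2.ncard : ℤ) = s.1 - (s.2.2.ncard : ℤ) := by
  induction n with
  | zero => exact ⟨hfin, rfl⟩
  | succ n ih =>
    rw [Function.iterate_succ_apply']
    obtain ⟨h1, h2⟩ := conserved (p := (step^[n] s).1) (j := (step^[n] s).2.1) ih.1
    exact ⟨h1, h2.trans ih.2⟩

/-- The head moves at most one cell to the right per step. -/
theorem head_le {s : ℤ × ℤ × Set ℤ} (hs : Legal s) (n : ℕ) :
    (step^[n] s).2.1 ≤ s.2.1 + n := by
  induction n with
  | zero => simp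
  | succ n ih =>
    rw [Function.iterate_succ_apply']
    have hL := hs.iter n
    rcases hst : step^[n] s with ⟨p, j, S⟩
    rw [hst] at ih hL
    have hpj : p ≤ j := hL.1
    simp only at ih
    by_cases hj : j ∈ S
    · rw [step_A hj]; simp only; push_cast; omega
    · by_cases hp : j = p
      · subst hp
        rw [step_K hj]; simp only; push_cast; omega
      · rw [step_D hj hp]; simp only; push_cast; omega

end Pool.Agent.MP_0cba1e_an.Rules
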