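import Pool.Agent.MP_0cba1e_an.Diagram

/-!
Classification of the rows of valid configurations.
-/

namespace Pool.Agent.MP_0cba1e_an.Rules

open Sy

/-- Symbols to the left of the marker. -/
def isL (s : Sy) : Prop := s = C ∨ s = U

theorem hor_isL {l r : Sy} (h : hor l r) (hr : isL r) : isL l := by
  rcases hr with rfl | rfl <;> rcases l with _ | _ | (_ | _) | _ | _ | _ | _ | _ <;>
    simp [hor, isL] at h ⊢

theorem hor_ex_P {l : Sy} {f : Bool} (h : hor l (P f)) (hl : ¬ isL l) : l = P f := by
  cases f <;> rcases l with _ | _ | (_ | _) | _ | _ | _ | _ | _ <;>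
    simp [hor, isL] at h hl ⊢

theorem hor_of_P {r : Sy} {f : Bool} (h : hor (P f) r) :
    r = P f ∨ r = if f = true then A else D := by
  cases f <;> simpa [hor] using h

theorem hor_digit {l r : Sy} (h : hor l r) (hl : l = A ∨ l = D ∨ l = K ∨ l = Z ∨ l = N) :
    r = Z ∨ r = N := by
  rcases hl with rfl | rfl | rfl | rfl | rfl <;> exact h

theorem sy_cases (s : Sy) : isL s ∨ (∃ f, s = P f) ∨ (s = A ∨ s = D ∨ s = K) ∨ (s = Z ∨ s = N) := by
  rcases s with _ | _ | f | _ | _ | _ | _ | _ <;> simp [isL]

theorem not_isL_P {f : Bool} : ¬ isL (P f) := by simp [isL]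

variable {z : ℤ × ℤ → Sy}

theorem isL_mono (hz : Valid z) {t x y : ℤ} (hxy : x ≤ y) (h : isL (z (y, t))) :
    isL (z (x, t)) := by
  have key : ∀ n : ℕ, isL (z (y - n, t)) := by
    intro n
    induction n with
    | zero => simpa using h
    | succ n ih =>
      have h1 := (hz (y - ((n + 1 : ℕ) : ℤ)) t).1
      rw [show y - ((n + 1 : ℕ) : ℤ) + 1 = y - n by push_cast; ring] at h1
      exact hor_isL h1 ih
  have := key (y - x).toNat
  rwa [show y - ((y - x).toNat : ℤ) = x by omega] at this

theorem digits_after (hz : Valid z) {t j : ℤ}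
    (hj : z (j, t) = A ∨ z (j, t) = D ∨ z (j, t) = K ∨ z (j, t) = Z ∨ z (j, t) = N) :
    ∀ x, j < x → z (x, t) = Z ∨ z (x, t) = N := by
  have key : ∀ n : ℕ, z (j + n + 1, t) = Z ∨ z (j + n + 1, t) = N := by
    intro n
    induction n with
    | zero => simpa using hor_digit (hz j t).1 hj
    | succ n ih =>
      have := hor_digit (hz (j + n + 1) t).1 (by tauto)
      rw [show j + ((n + 1 : ℕ) : ℤ) + 1 = j + n + 1 + 1 by push_cast; ring]
      exact this
  intro x hx
  have := key (x - j - 1).toNat
  rwa [show j + ((x - j - 1).toNat : ℤ) + 1 = x by omega] at this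

/-- The three coarse types of rows. -/
theorem row_trichotomy (hz : Valid z) (t : ℤ) : (∀ x, isL (z (x, t))) ∨
    (∀ x, ¬ isL (z (x, t))) ∨ ∃ p, (∀ x < p, isL (z (x, t))) ∧ ∀ x, p ≤ x → ¬ isL (z (x, t)) := by
  by_cases h1 : ∀ x, isL (z (x, t))
  · exact Or.inl h1
  · by_cases h2 : ∀ x, ¬ isL (z (x, t))
    · exact Or.inr (Or.inl h2)
    · right; right
      push Not at h1 h2
      obtain ⟨b, hb⟩ := h2
      obtain ⟨p, hp, hmin⟩ := Int.exists_least_of_bdd (P := fun x => ¬ isL (z (x, t)))
        ⟨b, fun x hx => by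
          by_contra hlt
          exact hx (isL_mono hz (by omega) hb)⟩ h1
      refine ⟨p, fun x hx => ?_, fun x hx h => hp (isL_mono hz hx h)⟩
      by_contra h
      have := hmin x h
      omega

/-- The row has no symbol to the left of the marker and a head at `j`. -/
def RowH (z : ℤ × ℤ → Sy) (t j : ℤ) (S : Set ℤ) : Prop :=
  (∀ x ∈ S, j ≤ x) ∧ ∀ x, z (x, t) = sym (j - 1) j S x

/-- The row consists of zone symbols. -/
def RowQ (z : ℤ × ℤ → Sy) (t : ℤ) (f : Bool) : Prop := ∀ x, z (x, t) = P f

/-- The row consists of digits. -/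
def RowD (z : ℤ × ℤ → Sy) (t : ℤ) (S : Set ℤ) : Prop :=
  ∀ x, (x ∈ S → z (x, t) = N) ∧ (x ∉ S → z (x, t) = Z)

/-- The structure of a row to the right of a threshold below which there is no head. -/
theorem zone_or_head (hz : Valid z) {t p : ℤ} (hL : ∀ x, p ≤ x → ¬ isL (z (x, t)))
    (hp : z (p, t) = A ∨ z (p, t) = K ∨ ∃ f, z (p, t) = P f) :
    (∃ f, ∀ x, p ≤ x → z (x, t) = P f) ∨
      ∃ j S, p ≤ j ∧ (∀ x ∈ S, j ≤ x) ∧ ∀ x, p ≤ x → z (x, t) = sym p j S x := by
  classical
  by_cases h : ∀ x, p ≤ x → ∃ f, z (x, t) = P f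
  · exact Or.inl (flags_const hz h)
  · right
    push Not at h
    obtain ⟨j, ⟨hpj, hj⟩, hmin⟩ := Int.exists_least_of_bdd
      (P := fun x => p ≤ x ∧ ∀ f, z (x, t) ≠ P f) ⟨p, fun x hx => hx.1⟩ h
    have hzone : ∀ x, p ≤ x → x < j → ∃ f, z (x, t) = P f := by
      intro x h1 h2
      by_contra h3
      push Not at h3
      have := hmin x ⟨h1, h3⟩
      omega
    have hjcase : z (j, t) = A ∨ (j = p ∧ z (j, t) = K) ∨ (j ≠ p ∧ z (j, t) = D) := by
      rcases eq_or_ne j p with h1 | h1
      · subst h1
        rcases hp with h2 | h2 | ⟨f, h2⟩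
        · exact Or.inl h2
        · exact Or.inr (Or.inl ⟨rfl, h2⟩)
        · exact absurd h2 (hj f)
      · obtain ⟨f, hf⟩ := hzone (j - 1) (by omega) (by omega)
        have h2 := (hz (j - 1) t).1
        rw [hf, sub_add_cancel] at h2
        rcases hor_of_P h2 with h3 | h3
        · exact absurd h3 (hj f)
        · cases f
          · simp at h3; exact Or.inr (Or.inr ⟨h1, h3⟩)
          · simp at h3; exact Or.inl h3
    have hdig := digits_after hz (t := t) (j := j) (by tauto)
    refine ⟨j, {x | (x = j ∧ z (j, t) = A) ∨ (j < x ∧ z (x, t) = N)}, hpj, ?_, ?_⟩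
    · rintro x (⟨rfl, _⟩ | ⟨h1, _⟩)
      · exact le_rfl
      · exact h1.le
    · intro x hx
      have hmemj : j ∈ {x | (x = j ∧ z (j, t) = A) ∨ (j < x ∧ z (x, t) = N)} ↔ z (j, t) = A := by
        simp
      rcases lt_trichotomy x j with h1 | h1 | h1
      · have hA : z (j, t) = A ∨ z (j, t) = D := by
          rcases hjcase with h2 | ⟨h2, _⟩ | ⟨_, h2⟩
          · exact Or.inl h2
          · omega
          · exact Or.inr h2
        rcases hA with h2 | h2
        · rw [sym_lt h1 (hmemj.2 h2)]
          exact flags_of_head hz (g := true) (by simpa using h2) hzone x hx h1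
        · rw [sym_lt' h1 (fun h => by rw [hmemj, h2] at h; simp at h)]
          exact flags_of_head hz (g := false) (by simpa using h2) hzone x hx h1
      · subst h1
        rcases hjcase with h2 | ⟨h1, h2⟩ | ⟨h1, h2⟩
        · rw [sym_head_A (hmemj.2 h2), h2]
        · subst h1
          rw [sym_head_K (fun h => by rw [hmemj, h2] at h; simp at h), h2]
        · rw [sym_head_D (fun h => by rw [hmemj, h2] at h; simp at h) h1, h2]
      · rcases hdig x h1 with h2 | h2
        · rw [sym_gt' h1, h2]
          rintro (⟨h3, _⟩ | ⟨_, h3⟩)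
          · omega
          · rw [h2] at h3; simp at h3
        · rw [sym_gt h1 (Or.inr ⟨h1, h2⟩), h2]

/-- Rows with a marker. -/
theorem row_marker (hz : Valid z) {t p : ℤ} (h1 : ∀ x < p, isL (z (x, t)))
    (h2 : ∀ x, p ≤ x → ¬ isL (z (x, t))) :
    (∃ f, RowP z t p f) ∨ ∃ j S, Legal (p, j, S) ∧ RowS z t (p, j, S) := by
  have hp : z (p, t) = A ∨ z (p, t) = K ∨ ∃ f, z (p, t) = P f := by
    have h3 := (hz (p - 1) t).1
    have h4 := h1 (p - 1) (by omega)
    have h5 := h2 p le_rfl
    rw [sub_add_cancel] at h3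
    rcases h4 with h4 | h4 <;> rw [h4] at h3 <;> simp only [hor] at h3 <;>
      simp only [isL] at h5
    · rcases h3 with h3 | h3 | h3 | h3 | h3
      · exact absurd (Or.inl h3) h5
      · exact Or.inr (Or.inr ⟨_, h3⟩)
      · exact Or.inr (Or.inr ⟨_, h3⟩)
      · exact Or.inl h3
      · exact Or.inr (Or.inl h3)
    · rcases h3 with h3 | h3 | h3
      · exact absurd (Or.inr h3) h5
      · exact absurd (Or.inl h3) h5
      · exact Or.inr (Or.inr ⟨_, h3⟩)
  rcases zone_or_head hz h2 hp with ⟨f, hf⟩ | ⟨j, S, hpj, hS, hj⟩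
  · exact Or.inl ⟨f, h1, hf⟩
  · exact Or.inr ⟨j, S, ⟨hpj, hS⟩, h1, hj⟩

/-- Rows without symbols to the left of a marker. -/
theorem row_no_left (hz : Valid z) {t : ℤ} (h : ∀ x, ¬ isL (z (x, t))) :
    (∃ f, RowQ z t f) ∨ (∃ j S, RowH z t j S) ∨ ∃ S, RowD z t S := by
  classical
  have hdown : ∀ x y, x ≤ y → (∃ f, z (y, t) = P f) → ∃ f, z (x, t) = P f := by
    intro x y hxy hy
    have key : ∀ n : ℕ, ∃ f, z (y - n, t) = P f := by
      intro n
      induction n with
      | zero => simpa using hy
      | succ n ih =>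
        obtain ⟨f, hf⟩ := ih
        have h1 := (hz (y - ((n + 1 : ℕ) : ℤ)) t).1
        rw [show y - ((n + 1 : ℕ) : ℤ) + 1 = y - n by push_cast; ring, hf] at h1
        exact ⟨f, hor_ex_P h1 (h _)⟩
    have := key (y - x).toNat
    rwa [show y - ((y - x).toNat : ℤ) = x by omega] at this
  by_cases h1 : ∀ x, ∃ f, z (x, t) = P f
  · left
    obtain ⟨f, hf⟩ := h1 0
    refine ⟨f, fun x => ?_⟩
    obtain ⟨g, hg⟩ := flags_const hz (t := t) (a := min x 0) (fun y _ => h1 y)
    have e1 := hg x (min_le_left _ _)
    have e2 := hg 0 (min_le_right _ _)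
    rw [hf] at e2
    rw [e1, ← e2]
  · right
    by_cases h2 : ∃ x f, z (x, t) = P f
    · left
      obtain ⟨b, f, hb⟩ := h2
      push Not at h1
      obtain ⟨j, hj, hmin⟩ := Int.exists_least_of_bdd
        (P := fun x => ∀ f, z (x, t) ≠ P f) ⟨b, fun x hx => by
          by_contra hlt
          obtain ⟨g, hg⟩ := hdown x b (by omega) ⟨f, hb⟩
          exact hx g hg⟩ h1
      have hlt : ∀ x, x < j → ∃ f, z (x, t) = P f := by
        intro x hx
        by_contra h3
        push Not at h3
        have := hmin x h3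
        omega
      have hjcase : z (j, t) = A ∨ z (j, t) = D := by
        obtain ⟨g, hg⟩ := hlt (j - 1) (by omega)
        have h3 := (hz (j - 1) t).1
        rw [hg, sub_add_cancel] at h3
        rcases hor_of_P h3 with h4 | h4
        · exact absurd h4 (hj g)
        · cases g
          · simp at h4; exact Or.inr h4
          · simp at h4; exact Or.inl h4
      have hdig := digits_after hz (t := t) (j := j) (by tauto)
      refine ⟨j, {x | (x = j ∧ z (j, t) = A) ∨ (j < x ∧ z (x, t) = N)}, ?_, ?_⟩
      · rintro x (⟨rfl, _⟩ | ⟨h1, _⟩)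
        · exact le_rfl
        · exact h1.le
      · intro x
        have hmemj : j ∈ {x | (x = j ∧ z (j, t) = A) ∨ (j < x ∧ z (x, t) = N)} ↔
            z (j, t) = A := by
          simp
        rcases lt_trichotomy x j with h1 | h1 | h1
        · rcases hjcase with h2 | h2
          · rw [sym_lt h1 (hmemj.2 h2)]
            exact flags_of_head hz (g := true) (a := x) (by simpa using h2)
              (fun y _ hy => hlt y hy) x le_rfl h1
          · rw [sym_lt' h1 (fun h => by rw [hmemj, h2] at h; simp at h)]
            exact flags_of_head hz (g := false) (a := x) (by simpa using h2)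
              (fun y _ hy => hlt y hy) x le_rfl h1
        · subst h1
          rcases hjcase with h2 | h2
          · rw [sym_head_A (hmemj.2 h2), h2]
          · rw [sym_head_D (fun h => by rw [hmemj, h2] at h; simp at h) (by omega), h2]
        · rcases hdig x h1 with h2 | h2
          · rw [sym_gt' h1, h2]
            rintro (⟨h3, _⟩ | ⟨_, h3⟩)
            · omega
            · rw [h2] at h3; simp at h3
          · rw [sym_gt h1 (Or.inr ⟨h1, h2⟩), h2]
    · right
      push Not at h2
      have hall : ∀ x, z (x, t) = Z ∨ z (x, t) = N := by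
        intro x
        have h3 := sy_cases (z (x - 1, t))
        have h4 : z (x - 1, t) = A ∨ z (x - 1, t) = D ∨ z (x - 1, t) = K ∨ z (x - 1, t) = Z ∨
            z (x - 1, t) = N := by
          rcases h3 with h3 | ⟨f, h3⟩ | h3 | h3
          · exact absurd h3 (h _)
          · exact absurd h3 (h2 _ f)
          · tauto
          · tauto
        exact digits_after hz h4 x (by omega)
      refine ⟨{x | z (x, t) = N}, fun x => ⟨fun h3 => h3, fun h3 => ?_⟩⟩
      rcases hall x with h4 | h4
      · exact h4
      · exact absurd h4 h3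

theorem RowD.next (hz : Valid z) {t : ℤ} {S : Set ℤ} (h : RowD z t S) : RowD z (t + 1) S := by
  intro x
  have v := (hz x t).2
  have h1 : z (x - 1, t) ≠ A ∧ z (x - 1, t) ≠ K := by
    by_cases hx : x - 1 ∈ S
    · rw [(h (x - 1)).1 hx]; simp
    · rw [(h (x - 1)).2 hx]; simp
  constructor
  · intro hx
    rw [(h x).1 hx] at v
    simpa only [ver, h1.1, h1.2, or_self, if_false] using v
  · intro hx
    rw [(h x).2 hx] at v
    simpa only [ver, h1.1, h1.2, or_self, if_false] using v

theorem RowD.iter (hz : Valid z) {t : ℤ} {S : Set ℤ} (h : RowD z t S) (n : ℕ) :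
    RowD z (t + n) S := by
  induction n with
  | zero => simpa using h
  | succ n ih =>
    have := RowD.next hz ih
    rw [add_assoc] at this
    push_cast
    exact this

theorem RowQ.next_true (hz : Valid z) {t : ℤ} (h : RowQ z t true) : ∃ f, RowQ z (t + 1) f := by
  have h1 : ∀ x, ∃ f, z (x, t + 1) = P f := by
    intro x
    have v := (hz x t).2
    rw [h x] at v
    exact v
  obtain ⟨f, hf⟩ := h1 0
  refine ⟨f, fun x => ?_⟩
  obtain ⟨g, hg⟩ := flags_const hz (t := t + 1) (a := min x 0) (fun y _ => h1 y)
  have e1 := hg x (min_le_left _ _)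
  have e2 := hg 0 (min_le_right _ _)
  rw [hf] at e2
  rw [e1, ← e2]

theorem RowQ.next_false (hz : Valid z) {t : ℤ} (h : RowQ z t false) : RowD z (t + 1) ∅ := by
  intro x
  refine ⟨fun hx => absurd hx (by simp), fun _ => ?_⟩
  have v := (hz x t).2
  rw [h x, h (x - 1), h (x - 2)] at v
  simpa [ver] using v

theorem RowH.next_A (hz : Valid z) {t j : ℤ} {S : Set ℤ} (h : RowH z t j S) (hj : j ∈ S) :
    RowH z (t + 1) (j + 1) (S \ {j}) := by
  classical
  obtain ⟨hS, hr⟩ := h
  have hhead : z (j + 1, t + 1) = if decide (j + 1 ∈ S) = true then A else D := by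
    have v := (hz (j + 1) t).2
    rw [show j + 1 - 1 = j by ring, hr j, sym_head_A hj] at v
    by_cases hj1 : j + 1 ∈ S
    · rw [hr (j + 1), sym_gt (by omega) hj1] at v
      simp only [ver, true_or, if_true] at v
      rw [v]; simp [hj1]
    · rw [hr (j + 1), sym_gt' (by omega) hj1] at v
      simp only [ver, true_or, if_true] at v
      rw [v]; simp [hj1]
  have hzone : ∀ x, x < j + 1 → ∃ f, z (x, t + 1) = P f := by
    intro x h2
    have v := (hz x t).2
    rcases eq_or_ne x j with h4 | h4
    · subst h4
      rw [hr x, sym_head_A hj] at v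
      exact v
    · rw [hr x, sym_lt (by omega) hj] at v
      exact v
  refine ⟨?_, ?_⟩
  · rintro x ⟨h1, h2⟩
    have := hS x h1
    simp only [Set.mem_singleton_iff] at h2
    omega
  · intro x
    rcases lt_trichotomy x (j + 1) with h1 | h1 | h1
    · have := flags_of_head hz hhead (a := x) (fun y _ hy => hzone y hy) x le_rfl h1
      rw [this]
      by_cases hj1 : j + 1 ∈ S
      · rw [sym_lt (S := S \ {j}) h1 ⟨hj1, by simp⟩]; simp [hj1]
      · rw [sym_lt' (S := S \ {j}) h1 (fun h => hj1 h.1)]; simp [hj1]
    · subst h1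
      rw [hhead]
      by_cases hj1 : j + 1 ∈ S
      · rw [sym_head_A (S := S \ {j}) ⟨hj1, by simp⟩]; simp [hj1]
      · rw [sym_head_D (S := S \ {j}) (fun h => hj1 h.1) (by omega)]; simp [hj1]
    · have v := (hz x t).2
      have h2 : z (x - 1, t) ≠ A ∧ z (x - 1, t) ≠ K := by
        rw [hr (x - 1)]
        by_cases h3 : x - 1 ∈ S
        · rw [sym_gt (by omega) h3]; simp
        · rw [sym_gt' (by omega) h3]; simp
      by_cases hx1 : x ∈ S
      · rw [hr x, sym_gt (by omega) hx1] at v
        simp only [ver, h2.1, h2.2, or_self, if_false] at v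
        rw [v, sym_gt (S := S \ {j}) h1 ⟨hx1, by simp; omega⟩]
      · rw [hr x, sym_gt' (by omega) hx1] at v
        simp only [ver, h2.1, h2.2, or_self, if_false] at v
        rw [v, sym_gt' (S := S \ {j}) h1 (fun h => hx1 h.1)]

theorem RowH.next_D (hz : Valid z) {t j : ℤ} {S : Set ℤ} (h : RowH z t j S) (hj : j ∉ S) :
    RowD z (t + 1) (insert j S) := by
  obtain ⟨hS, hr⟩ := h
  intro x
  have v := (hz x t).2
  rcases lt_trichotomy x j with h1 | h1 | h1
  · refine ⟨fun hx => ?_, fun _ => ?_⟩
    · rcases hx with hx | hx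
      · omega
      · have := hS x hx; omega
    · rw [hr x, hr (x - 1), hr (x - 2), sym_lt' h1 hj, sym_lt' (by omega) hj,
        sym_lt' (by omega) hj] at v
      simpa [ver] using v
  · subst h1
    refine ⟨fun _ => ?_, fun hx => absurd (Set.mem_insert _ _) hx⟩
    rw [hr x, hr (x - 2), sym_head_D hj (by omega), sym_lt' (by omega) hj] at v
    simpa [ver] using v
  · have h2 : z (x - 1, t) ≠ A ∧ z (x - 1, t) ≠ K := by
      rw [hr (x - 1)]
      rcases eq_or_ne (x - 1) j with h3 | h3
      · rw [h3, sym_head_D hj (by omega)]; simp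
      · by_cases h3 : x - 1 ∈ S
        · rw [sym_gt (by omega) h3]; simp
        · rw [sym_gt' (by omega) h3]; simp
    by_cases hx1 : x ∈ S
    · refine ⟨fun _ => ?_, fun hx => absurd (Set.mem_insert_of_mem _ hx1) hx⟩
      rw [hr x, sym_gt h1 hx1] at v
      simpa only [ver, h2.1, h2.2, or_self, if_false] using v
    · refine ⟨fun hx => ?_, fun _ => ?_⟩
      · rcases hx with hx | hx
        · omega
        · exact absurd hx hx1
      · rw [hr x, sym_gt' h1 hx1] at v
        simpa only [ver, h2.1, h2.2, or_self, if_false] using v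

theorem all_left_next (hz : Valid z) {t : ℤ} (h : ∀ x, isL (z (x, t))) :
    ∀ x, isL (z (x, t + 1)) := by
  intro x
  apply left_up hz (h x)
  rcases h (x + 1) with h1 | h1 <;> rw [h1] <;> simp

theorem no_left_next (hz : Valid z) {t : ℤ} (h : ∀ x, ¬ isL (z (x, t))) :
    ∀ x, ¬ isL (z (x, t + 1)) := by
  intro x
  rcases row_no_left hz h with ⟨f, h1⟩ | ⟨j, S, h1⟩ | ⟨S, h1⟩
  · cases f
    · have := (RowQ.next_false hz h1 x).2 (by simp)
      rw [this]; simp [isL]
    · obtain ⟨g, hg⟩ := RowQ.next_true hz h1
      rw [hg x]; simp [isL]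
  · by_cases hj : j ∈ S
    · have := (RowH.next_A hz h1 hj).2 x
      rw [this]
      rcases sym_cases (p := j + 1 - 1) (j := j + 1) (S := S \ {j}) x with
        ⟨_, h4⟩ | ⟨_, h4⟩ | ⟨_, h4⟩
      · rcases h4 with ⟨_, e⟩ | ⟨_, e⟩ <;> rw [e] <;> simp [isL]
      · rcases h4 with ⟨_, e⟩ | ⟨_, _, e⟩ | ⟨_, _, e⟩ <;> rw [e] <;> simp [isL]
      · rcases h4 with ⟨_, e⟩ | ⟨_, e⟩ <;> rw [e] <;> simp [isL]
    · have h2 := RowH.next_D hz h1 hj x
      by_cases hx : x ∈ insert j S
      · rw [h2.1 hx]; simp [isL]
      · rw [h2.2 hx]; simp [isL]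
  · have h2 := RowD.next hz h1 x
    by_cases hx : x ∈ S
    · rw [h2.1 hx]; simp [isL]
    · rw [h2.2 hx]; simp [isL]

/-- The row has a marker at `p`. -/
def Marked (z : ℤ × ℤ → Sy) (t p : ℤ) : Prop :=
  (∀ x < p, isL (z (x, t))) ∧ ∀ x, p ≤ x → ¬ isL (z (x, t))

theorem RowS.marked {t : ℤ} {s : ℤ × ℤ × Set ℤ} (h : RowS z t s) :
    Marked z t s.1 := by
  refine ⟨h.1, fun x hx => ?_⟩
  rw [h.2 x hx]
  rcases sym_cases (p := s.1) (j := s.2.1) (S := s.2.2) x with ⟨_, h4⟩ | ⟨_, h4⟩ | ⟨_, h4⟩
  · rcases h4 with ⟨_, e⟩ | ⟨_, e⟩ <;> rw [e] <;> simp [isL]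
  · rcases h4 with ⟨_, e⟩ | ⟨_, _, e⟩ | ⟨_, _, e⟩ <;> rw [e] <;> simp [isL]
  · rcases h4 with ⟨_, e⟩ | ⟨_, e⟩ <;> rw [e] <;> simp [isL]

theorem RowP.marked {t p : ℤ} {f : Bool} (h : RowP z t p f) : Marked z t p := by
  refine ⟨h.1, fun x hx => ?_⟩
  rw [h.2 x hx]
  simp [isL]

theorem Marked.unique {t p q : ℤ} (h : Marked z t p) (h' : Marked z t q) : p = q := by
  rcases lt_trichotomy p q with h1 | h1 | h1
  · exact absurd (h'.1 p h1) (h.2 p le_rfl)
  · exact h1
  · exact absurd (h.1 q h1) (h'.2 q le_rfl)

theorem marked_next (hz : Valid z) {t p : ℤ} (h : Marked z t p) : ∃ q, Marked z (t + 1) q := by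
  rcases row_marker hz h.1 h.2 with ⟨f, h1⟩ | ⟨j, S, hL, h1⟩
  · cases f
    · exact ⟨_, RowS.marked (RowP.next_false hz h1)⟩
    · obtain ⟨g, hg⟩ := RowP.next_true hz h1
      exact ⟨_, RowP.marked hg⟩
  · exact ⟨_, RowS.marked (RowS.next hz hL h1)⟩

theorem marked_all (hz : Valid z) {t p : ℤ} (h : Marked z t p) (s : ℤ) : ∃ q, Marked z s q := by
  have bwd : ∀ s, (∃ q, Marked z (s + 1) q) → ∃ q, Marked z s q := by
    rintro s ⟨q, hq⟩
    rcases row_trichotomy hz s with h1 | h1 | h1
    · exact absurd (all_left_next hz h1 q) (hq.2 q le_rfl)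
    · exact absurd (hq.1 (q - 1) (by omega)) (no_left_next hz h1 (q - 1))
    · exact h1
  have up : ∀ n : ℕ, ∃ q, Marked z (t + n) q := by
    intro n
    induction n with
    | zero => exact ⟨p, by simpa using h⟩
    | succ n ih =>
      obtain ⟨q, hq⟩ := ih
      have := marked_next hz hq
      rw [add_assoc] at this
      push_cast
      exact this
  have down : ∀ n : ℕ, ∃ q, Marked z (t - n) q := by
    intro n
    induction n with
    | zero => exact ⟨p, by simpa using h⟩
    | succ n ih =>
      apply bwd
      have : t - ((n + 1 : ℕ) : ℤ) + 1 = t - n := by push_cast; ring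
      rw [this]
      exact ih
  rcases le_total t s with hts | hts
  · obtain ⟨n, hn⟩ := Int.le.dest hts
    rw [← hn]
    exact up n
  · obtain ⟨n, hn⟩ := Int.le.dest hts
    have : s = t - n := by omega
    rw [this]
    exact down n

/-- A configuration with a marker and an outside cell has a turning row. -/
theorem exists_turning (hz : Valid z) {t p : ℤ} (h : Marked z t p) {b : ℤ}
    (hU : z (b, t) = U) : ∃ s q, RowP z s q false := by
  classical
  have hall := marked_all hz h
  choose m hm using hall
  have hbm : ∀ s, b < m s := by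
    intro s
    by_contra hlt
    have h1 : z (b, s) = U := (hz.col_U b s t).2 hU
    exact (hm s).2 b (by omega) (Or.inr h1)
  by_contra hno
  push Not at hno
  by_cases hP : ∃ s q f, RowP z s q f
  · obtain ⟨s, q, f, hs⟩ := hP
    have htrue : ∀ s q f, RowP z s q f → f = true := by
      intro s q f h1
      cases f
      · exact absurd h1 (hno s q)
      · rfl
    have key : ∀ n : ℕ, RowP z (s + n) (q - n) true := by
      intro n
      induction n with
      | zero =>
        have := htrue s q f hs
        subst this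
        simpa using hs
      | succ n ih =>
        obtain ⟨g, hg⟩ := RowP.next_true hz ih
        have := htrue _ _ _ hg
        subst this
        rw [show s + ((n + 1 : ℕ) : ℤ) = s + n + 1 by push_cast; ring,
          show q - ((n + 1 : ℕ) : ℤ) = q - n - 1 by push_cast; ring]
        exact hg
    have h1 := RowP.marked (key (q - b).toNat)
    have h2 := Marked.unique h1 (hm _)
    have h3 := hbm (s + ((q - b).toNat : ℤ))
    have h4 := hbm s
    have h5 := Marked.unique (RowP.marked hs) (hm s)
    omega
  · push Not at hP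
    have hS : ∀ s, ∃ j S, Legal (m s, j, S) ∧ RowS z s (m s, j, S) := by
      intro s
      rcases row_marker hz (hm s).1 (hm s).2 with ⟨f, h1⟩ | h1
      · exact absurd h1 (hP s _ f)
      · exact h1
    choose j S hjS using hS
    -- translate so that the markers are nonnegative
    have hrow : ∀ s, (m (s + 1), j (s + 1), S (s + 1)) = step (m s, j s, S s) := by
      intro s
      have h1 := RowS.next hz (hjS s).1 (hjS s).2
      have h2 := (hjS (s + 1)).2
      have hL1 := (hjS s).1.nxt
      have hL2 := (hjS (s + 1)).1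
      rcases hst : step (m s, j s, S s) with ⟨p', j', S'⟩
      rw [hst] at h1 hL1
      have e1 : m (s + 1) = p' := Marked.unique (RowS.marked h2) (RowS.marked h1)
      have hj1 : p' ≤ j' := hL1.1
      have hj2 : m (s + 1) ≤ j (s + 1) := hL2.1
      have hS1 : ∀ x ∈ S', j' ≤ x := hL1.2
      have hS2 : ∀ x ∈ S (s + 1), j (s + 1) ≤ x := hL2.2
      -- heads agree
      have key : ∀ x, p' ≤ x → sym (m (s + 1)) (j (s + 1)) (S (s + 1)) x = sym p' j' S' x := by
        intro x hx
        have h3 := h2.2 x (by simp only; omega)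
        rw [h1.2 x hx] at h3
        exact h3.symm
      have e2 : j (s + 1) = j' := by
        rcases lt_trichotomy (j (s + 1)) j' with h3 | h3 | h3
        · exfalso
          have h4 := key (j (s + 1)) (by omega)
          obtain ⟨f, hf⟩ := sym_lt_ex (p := p') (S := S') h3
          rw [hf] at h4
          rcases sym_cases (p := m (s + 1)) (j := j (s + 1)) (S := S (s + 1)) (j (s + 1)) with
            ⟨h5, _⟩ | ⟨_, h5⟩ | ⟨h5, _⟩
          · omega
          · rcases h5 with ⟨_, e⟩ | ⟨_, _, e⟩ | ⟨_, _, e⟩ <;> rw [e] at h4 <;> simp at h4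
          · omega
        · exact h3
        · exfalso
          have h4 := key j' (by omega)
          obtain ⟨f, hf⟩ := sym_lt_ex (p := m (s + 1)) (S := S (s + 1)) h3
          rw [hf] at h4
          rcases sym_cases (p := p') (j := j') (S := S') j' with
            ⟨h5, _⟩ | ⟨_, h5⟩ | ⟨h5, _⟩
          · omega
          · rcases h5 with ⟨_, e⟩ | ⟨_, _, e⟩ | ⟨_, _, e⟩ <;> rw [e] at h4 <;> simp at h4
          · omega
      have e3 : S (s + 1) = S' := by
        ext x
        rcases lt_trichotomy x j' with h3 | h3 | h3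
        · constructor
          · intro hx; have := hS2 x hx; omega
          · intro hx; have := hS1 x hx; omega
        · subst h3
          have h4 := key x hj1
          rw [e2] at h4
          by_cases hx : x ∈ S'
          · rw [sym_head_A hx] at h4
            simp only [hx, iff_true]
            by_contra hx'
            by_cases hp : x = m (s + 1)
            · rw [← hp, sym_head_K hx'] at h4; simp at h4
            · rw [sym_head_D hx' hp] at h4; simp at h4
          · simp only [hx, iff_false]
            intro hx'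
            rw [sym_head_A hx'] at h4
            by_cases hp : x = p'
            · rw [← hp, sym_head_K hx] at h4; simp at h4
            · rw [sym_head_D hx hp] at h4; simp at h4
        · have h4 := key x (by omega)
          rw [e2] at h4
          by_cases hx : x ∈ S'
          · rw [sym_gt h3 hx] at h4
            simp only [hx, iff_true]
            by_contra hx'
            rw [sym_gt' h3 hx'] at h4; simp at h4
          · rw [sym_gt' h3 hx] at h4
            simp only [hx, iff_false]
            intro hx'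
            rw [sym_gt h3 hx'] at h4; simp at h4
      rw [e1, e2, e3]
    -- shift all states by `b`
    let sh : ℤ × ℤ × Set ℤ → ℤ × ℤ × Set ℤ := fun s =>
      (s.1 - b, s.2.1 - b, {x | x + b ∈ s.2.2})
    have hsh : ∀ s, sh (step s) = step (sh s) := by
      rintro ⟨p, j, S⟩
      by_cases hj : j ∈ S
      · rw [step_A hj]
        have hj' : j - b ∈ {x | x + b ∈ S} := by simpa using hj
        simp only [sh]
        rw [step_A hj']
        ext1
        · simp only; ring
        · ext1
          · simp only; ring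
          · ext x
            simp only [Set.mem_sdiff, Set.mem_singleton_iff, Set.mem_ofPred_eq]
            constructor
            · rintro ⟨h1, h2⟩; exact ⟨h1, by omega⟩
            · rintro ⟨h1, h2⟩; exact ⟨h1, by omega⟩
      · have hj' : j - b ∉ {x | x + b ∈ S} := by simpa using hj
        by_cases hp : j = p
        · subst hp
          rw [step_K hj]
          simp only [sh]
          rw [step_K hj']
          ext1
          · rfl
          · ext1
            · simp only; ring
            · rfl
        · rw [step_D hj hp]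
          simp only [sh]
          rw [step_D hj' (by omega)]
          ext1
          · simp only; ring
          · ext1
            · simp only; ring
            · ext x
              simp only [Set.mem_insert_iff, Set.mem_ofPred_eq]
              constructor
              · rintro (h1 | h1)
                · left; omega
                · right; exact h1
              · rintro (h1 | h1)
                · left; omega
                · right; exact h1
    have T : TwoSided (fun s => sh (m s, j s, S s)) := by
      refine ⟨?_, ?_, ?_⟩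
      · intro s
        have hL := (hjS s).1
        refine ⟨?_, ?_⟩
        · have : m s ≤ j s := hL.1
          simp only [sh]; omega
        · intro x hx
          have := hL.2 (x + b) hx
          simp only [sh] at this ⊢; omega
      · intro s
        show sh (m (s + 1), j (s + 1), S (s + 1)) = step (sh (m s, j s, S s))
        rw [hrow s, hsh]
      · intro s
        simp only [sh]
        have := hbm s
        omega
    exact T.false

end Pool.Agent.MP_0cba1e_an.Rules
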