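import Mathlib

/-!
A second machine: the stack and the odometer share the same cells.  Its space time diagrams form a
shift of finite type which is the closure of a single orbit.
-/

namespace Pool.Agent.MP_0cba1e_an.Rules

/-- The nine symbols: outside `U`, dead `C`, zone `P` with the flag of the row, heads `A` (absorbs
a one), `D` (deposits a one), `K` (skips), digits `Z` (zero) and `N` (one). -/
inductive Sy : Type
  | U | C | P (f : Bool) | A | D | K | Z | N
  deriving DecidableEq

open Sy

instance : Finite Sy := by
  apply Finite.of_injective (fun s : Sy => match s with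
    | U => (0 : Fin 9) | C => 1 | P true => 2 | P false => 3 | A => 4 | D => 5 | K => 6 | Z => 7
    | N => 8)
  intro a b h
  rcases a with _ | _ | (_ | _) | _ | _ | _ | _ | _ <;>
    rcases b with _ | _ | (_ | _) | _ | _ | _ | _ | _ <;> simp at h ⊢

/-- Allowed horizontal neighbours. -/
def hor : Sy → Sy → Prop
  | U, r => r = U ∨ r = C ∨ r = P false
  | C, r => r = C ∨ r = P true ∨ r = P false ∨ r = A ∨ r = K
  | P true, r => r = P true ∨ r = A
  | P false, r => r = P false ∨ r = D
  | A, r => r = Z ∨ r = N
  | D, r => r = Z ∨ r = N
  | K, r => r = Z ∨ r = N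
  | Z, r => r = Z ∨ r = N
  | N, r => r = Z ∨ r = N

/-- Allowed upper neighbour `u` of a cell `s` whose two left neighbours are `ll`, `l` and whose
right neighbour is `r`. -/
def ver (ll l s r u : Sy) : Prop :=
  match s with
  | U => u = U
  | C => if r = P true ∨ r = A then ∃ f, u = P f else u = C
  | P true => ∃ f, u = P f
  | P false => if l = C ∨ l = U then u = C else if ll = C ∨ ll = U then u = K else u = Z
  | A => ∃ f, u = P f
  | K => ∃ f, u = P f
  | D => if ll = C ∨ ll = U then u = A else u = N
  | Z => if l = A ∨ l = K then u = D else u = Z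
  | N => if l = A ∨ l = K then u = A else u = N

/-- Configurations obeying the local rule. -/
def Valid (z : ℤ × ℤ → Sy) : Prop :=
  ∀ x t : ℤ, hor (z (x, t)) (z (x + 1, t)) ∧
    ver (z (x - 2, t)) (z (x - 1, t)) (z (x, t)) (z (x + 1, t)) (z (x, t + 1))

open Classical in
/-- The symbols of a row with dead cells below `p`, head at `j` and ones at the points of `S`
(cells below `p` excepted). -/
noncomputable def sym (p j : ℤ) (S : Set ℤ) (x : ℤ) : Sy :=
  if x < j then P (decide (j ∈ S))
  else if x = j then (if j ∈ S then A else if j = p then K else D)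
  else if x ∈ S then N else Z

theorem sym_lt {p j x : ℤ} {S : Set ℤ} (h : x < j) (hj : j ∈ S) : sym p j S x = P true := by
  unfold sym; rw [if_pos h]; simp [hj]

theorem sym_lt' {p j x : ℤ} {S : Set ℤ} (h : x < j) (hj : j ∉ S) : sym p j S x = P false := by
  unfold sym; rw [if_pos h]; simp [hj]

theorem sym_head_A {p j : ℤ} {S : Set ℤ} (hj : j ∈ S) : sym p j S j = A := by
  unfold sym; simp [hj]

theorem sym_head_K {p : ℤ} {S : Set ℤ} (hj : p ∉ S) : sym p p S p = K := by
  unfold sym; simp [hj]

theorem sym_head_D {p j : ℤ} {S : Set ℤ} (hj : j ∉ S) (hp : j ≠ p) : sym p j S j = D := by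
  unfold sym; simp [hj, hp]

theorem sym_gt {p j x : ℤ} {S : Set ℤ} (h : j < x) (hx : x ∈ S) : sym p j S x = N := by
  unfold sym; rw [if_neg (by omega), if_neg (by omega), if_pos hx]

theorem sym_gt' {p j x : ℤ} {S : Set ℤ} (h : j < x) (hx : x ∉ S) : sym p j S x = Z := by
  unfold sym; rw [if_neg (by omega), if_neg (by omega), if_neg hx]

/-- The step of the machine on states (marker, head, ones). -/
noncomputable def step (s : ℤ × ℤ × Set ℤ) : ℤ × ℤ × Set ℤ := by
  classical exact
  if s.2.1 ∈ s.2.2 then (s.1 - 1, s.2.1 + 1, s.2.2 \ {s.2.1})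
  else if s.2.1 = s.1 then (s.1, s.1 + 1, s.2.2)
  else (s.1 + 1, s.1 + 1, insert s.2.1 s.2.2)

theorem step_A {p j : ℤ} {S : Set ℤ} (h : j ∈ S) : step (p, j, S) = (p - 1, j + 1, S \ {j}) := by
  unfold step; simp [h]

theorem step_K {p : ℤ} {S : Set ℤ} (h : p ∉ S) : step (p, p, S) = (p, p + 1, S) := by
  unfold step; simp [h]

theorem step_D {p j : ℤ} {S : Set ℤ} (h : j ∉ S) (hp : j ≠ p) :
    step (p, j, S) = (p + 1, p + 1, insert j S) := by
  unfold step; simp [h, hp]

/-- Legal states. -/
def Legal (s : ℤ × ℤ × Set ℤ) : Prop := s.1 ≤ s.2.1 ∧ ∀ x ∈ s.2.2, s.2.1 ≤ x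

theorem Legal.nxt {s : ℤ × ℤ × Set ℤ} (hs : Legal s) : Legal (step s) := by
  obtain ⟨p, j, S⟩ := s
  obtain ⟨h1, h2⟩ := hs
  simp only at h1 h2
  by_cases hj : j ∈ S
  · rw [step_A hj]
    refine ⟨by simp only; omega, ?_⟩
    intro x hx
    simp only at hx ⊢
    have := h2 x hx.1
    have h3 : x ≠ j := fun h => hx.2 h
    omega
  · by_cases hp : j = p
    · subst hp
      rw [step_K hj]
      refine ⟨by simp only; omega, ?_⟩
      intro x hx
      simp only at hx ⊢
      have := h2 x hx
      have h3 : x ≠ j := fun h => hj (h ▸ hx)
      omega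
    · rw [step_D hj hp]
      refine ⟨le_rfl, ?_⟩
      intro x hx
      simp only at hx ⊢
      rcases hx with rfl | hx
      · omega
      · have := h2 x hx
        omega

/-- Row `t` of `z` has marker `p`, head `j` and set of ones `S`. -/
def RowS (z : ℤ × ℤ → Sy) (t : ℤ) (s : ℤ × ℤ × Set ℤ) : Prop :=
  (∀ x < s.1, z (x, t) = C ∨ z (x, t) = U) ∧
    ∀ x, s.1 ≤ x → z (x, t) = sym s.1 s.2.1 s.2.2 x

/-- Row `t` of `z` has marker `p` and only zone symbols with flag `f` from `p` on. -/
def RowP (z : ℤ × ℤ → Sy) (t p : ℤ) (f : Bool) : Prop :=
  (∀ x < p, z (x, t) = C ∨ z (x, t) = U) ∧ ∀ x, p ≤ x → z (x, t) = P f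

section flags

variable {z : ℤ × ℤ → Sy}

theorem hor_P_A {f : Bool} (h : hor (P f) A) : f = true := by
  cases f <;> simp [hor] at h ⊢

theorem hor_P_D {f : Bool} (h : hor (P f) D) : f = false := by
  cases f <;> simp [hor] at h ⊢

theorem hor_P_P {f g : Bool} (h : hor (P f) (P g)) : f = g := by
  cases f <;> cases g <;> simp [hor] at h ⊢

/-- The flags of a zone are determined by its head. -/
theorem flags_of_head (hz : Valid z) {t a b : ℤ} {g : Bool}
    (hb : z (b, t) = if g = true then A else D)
    (hP : ∀ x, a ≤ x → x < b → ∃ f, z (x, t) = P f) :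
    ∀ x, a ≤ x → x < b → z (x, t) = P g := by
  have key : ∀ n : ℕ, ∀ x, x = b - 1 - n → a ≤ x → z (x, t) = P g := by
    intro n
    induction n with
    | zero =>
      intro x hx hax
      obtain ⟨f, hf⟩ := hP x hax (by omega)
      have h := (hz x t).1
      rw [hf, show x + 1 = b by omega, hb] at h
      cases g
      · simp only [Bool.false_eq_true, if_false] at h
        rw [hf, hor_P_D h]
      · simp only [if_true] at h
        rw [hf, hor_P_A h]
    | succ n ih =>
      intro x hx hax
      obtain ⟨f, hf⟩ := hP x hax (by omega)
      have h := (hz x t).1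
      rw [hf, ih (x + 1) (by omega) (by omega)] at h
      rw [hf, hor_P_P h]
  intro x hax hxb
  exact key (b - 1 - x).toNat x (by omega) hax

/-- The flags of an infinite zone are all equal. -/
theorem flags_const (hz : Valid z) {t a : ℤ} (hP : ∀ x, a ≤ x → ∃ f, z (x, t) = P f) :
    ∃ f, ∀ x, a ≤ x → z (x, t) = P f := by
  obtain ⟨f, hf⟩ := hP a le_rfl
  refine ⟨f, ?_⟩
  have key : ∀ n : ℕ, z (a + n, t) = P f := by
    intro n
    induction n with
    | zero => simpa using hf
    | succ n ih =>
      obtain ⟨g, hg⟩ := hP (a + n + 1) (by omega)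
      have h := (hz (a + n) t).1
      rw [ih, hg] at h
      have := hor_P_P h
      push_cast
      rw [← add_assoc, hg, this]
  intro x hx
  have := key (x - a).toNat
  rw [show a + ((x - a).toNat : ℤ) = x by omega] at this
  exact this

end flags

section steps

variable {z : ℤ × ℤ → Sy}

theorem left_ne {s : Sy} (h : s = C ∨ s = U) : s ≠ A ∧ s ≠ K ∧ (∀ f, s ≠ P f) := by
  rcases h with rfl | rfl <;> simp

/-- cells at the left of a zone stay there, unless they are next to it -/
theorem left_up (hz : Valid z) {x t : ℤ} (h : z (x, t) = C ∨ z (x, t) = U)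
    (h' : z (x + 1, t) ≠ P true ∧ z (x + 1, t) ≠ A) : z (x, t + 1) = C ∨ z (x, t + 1) = U := by
  have v := (hz x t).2
  rcases h with h | h
  · rw [h] at v
    simp only [ver, h'.1, h'.2, or_self, if_false] at v
    exact Or.inl v
  · rw [h] at v
    exact Or.inr v

theorem RowS.next (hz : Valid z) {t : ℤ} {s : ℤ × ℤ × Set ℤ} (hs : Legal s) (h : RowS z t s) :
    RowS z (t + 1) (step s) := by
  classical
  obtain ⟨p, j, S⟩ := s
  obtain ⟨hpj, hS⟩ := hs
  obtain ⟨hl, hr⟩ := h
  simp only at hpj hS hl hr
  by_cases hj : j ∈ S
  · -- absorb
    rw [step_A hj]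
    have hA : z (j, t) = A := by rw [hr j hpj, sym_head_A hj]
    have hP : ∀ x, p ≤ x → x < j → z (x, t) = P true := fun x h1 h2 => by
      rw [hr x h1, sym_lt h2 hj]
    -- the symbol at the marker
    have hp : z (p, t) = P true ∨ z (p, t) = A := by
      rcases hpj.eq_or_lt with h1 | h1
      · subst h1; exact Or.inr hA
      · exact Or.inl (hP p le_rfl h1)
    have hpC : z (p - 1, t) = C := by
      rcases hl (p - 1) (by omega) with h1 | h1
      · exact h1
      · have := (hz (p - 1) t).1
        rw [h1, sub_add_cancel] at this
        rcases hp with h2 | h2 <;> rw [h2] at this <;> simp [hor] at this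
    -- the next head
    have hhead : z (j + 1, t + 1) = if decide (j + 1 ∈ S) = true then A else D := by
      have v := (hz (j + 1) t).2
      rw [show j + 1 - 1 = j by ring, hA] at v
      by_cases hj1 : j + 1 ∈ S
      · rw [hr (j + 1) (by omega), sym_gt (by omega) hj1] at v
        simp only [ver, true_or, if_true] at v
        rw [v]; simp [hj1]
      · rw [hr (j + 1) (by omega), sym_gt' (by omega) hj1] at v
        simp only [ver, true_or, if_true] at v
        rw [v]; simp [hj1]
    have hzone : ∀ x, p - 1 ≤ x → x < j + 1 → ∃ f, z (x, t + 1) = P f := by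
      intro x h1 h2
      have v := (hz x t).2
      rcases eq_or_ne x (p - 1) with h3 | h3
      · subst h3
        rw [hpC, sub_add_cancel] at v
        simp only [ver, hp, if_true] at v
        exact v
      · rcases eq_or_ne x j with h4 | h4
        · subst h4
          rw [hA] at v
          exact v
        · rw [hP x (by omega) (by omega)] at v
          exact v
    have hflags := flags_of_head hz hhead hzone
    refine ⟨?_, ?_⟩
    · intro x hx
      simp only at hx
      apply left_up hz (hl x (by omega))
      rcases hl (x + 1) (by omega) with h1 | h1 <;> rw [h1] <;> simp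
    · intro x hx
      simp only at hx ⊢
      rcases lt_trichotomy x (j + 1) with h1 | h1 | h1
      · rw [hflags x hx h1]
        by_cases hj1 : j + 1 ∈ S
        · rw [sym_lt (S := S \ {j}) h1 ⟨hj1, by simp⟩]; simp [hj1]
        · rw [sym_lt' (S := S \ {j}) h1 (fun h => hj1 h.1)]; simp [hj1]
      · subst h1
        rw [hhead]
        by_cases hj1 : j + 1 ∈ S
        · rw [sym_head_A (S := S \ {j}) ⟨hj1, by simp⟩]; simp [hj1]
        · rw [sym_head_D (S := S \ {j}) (fun h => hj1 h.1) (by omega)]; simp [hj1]
      · have v := (hz x t).2
        have h2 : z (x - 1, t) ≠ A ∧ z (x - 1, t) ≠ K := by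
          rw [hr (x - 1) (by omega)]
          by_cases h3 : x - 1 ∈ S
          · rw [sym_gt (by omega) h3]; simp
          · rw [sym_gt' (by omega) h3]; simp
        by_cases hx1 : x ∈ S
        · rw [hr x (by omega), sym_gt (by omega) hx1] at v
          simp only [ver, h2.1, h2.2, or_self, if_false] at v
          rw [v, sym_gt (S := S \ {j}) h1 ⟨hx1, by simp; omega⟩]
        · rw [hr x (by omega), sym_gt' (by omega) hx1] at v
          simp only [ver, h2.1, h2.2, or_self, if_false] at v
          rw [v, sym_gt' (S := S \ {j}) h1 (fun h => hx1 h.1)]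
  · by_cases hp : j = p
    · -- skip
      subst hp
      rw [step_K hj]
      have hK : z (j, t) = K := by rw [hr j le_rfl, sym_head_K hj]
      have hhead : z (j + 1, t + 1) = if decide (j + 1 ∈ S) = true then A else D := by
        have v := (hz (j + 1) t).2
        rw [show j + 1 - 1 = j by ring, hK] at v
        by_cases hj1 : j + 1 ∈ S
        · rw [hr (j + 1) (by omega), sym_gt (by omega) hj1] at v
          simp only [ver, or_true, if_true] at v
          rw [v]; simp [hj1]
        · rw [hr (j + 1) (by omega), sym_gt' (by omega) hj1] at v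
          simp only [ver, or_true, if_true] at v
          rw [v]; simp [hj1]
      have hzone : ∀ x, j ≤ x → x < j + 1 → ∃ f, z (x, t + 1) = P f := by
        intro x h1 h2
        have v := (hz x t).2
        rw [show x = j by omega, hK] at v
        rw [show x = j by omega]
        exact v
      have hflags := flags_of_head hz hhead hzone
      refine ⟨?_, ?_⟩
      · intro x hx
        simp only at hx
        apply left_up hz (hl x (by omega))
        rcases lt_or_ge (x + 1) j with h1 | h1
        · rcases hl (x + 1) h1 with h1 | h1 <;> rw [h1] <;> simp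
        · rw [show x + 1 = j by omega, hK]; simp
      · intro x hx
        simp only at hx ⊢
        rcases lt_trichotomy x (j + 1) with h1 | h1 | h1
        · rw [hflags x hx h1]
          by_cases hj1 : j + 1 ∈ S
          · rw [sym_lt h1 hj1]; simp [hj1]
          · rw [sym_lt' h1 hj1]; simp [hj1]
        · subst h1
          rw [hhead]
          by_cases hj1 : j + 1 ∈ S
          · rw [sym_head_A hj1]; simp [hj1]
          · rw [sym_head_D hj1 (by omega)]; simp [hj1]
        · have v := (hz x t).2
          have h2 : z (x - 1, t) ≠ A ∧ z (x - 1, t) ≠ K := by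
            rw [hr (x - 1) (by omega)]
            by_cases h3 : x - 1 ∈ S
            · rw [sym_gt (by omega) h3]; simp
            · rw [sym_gt' (by omega) h3]; simp
          by_cases hx1 : x ∈ S
          · rw [hr x (by omega), sym_gt (by omega) hx1] at v
            simp only [ver, h2.1, h2.2, or_self, if_false] at v
            rw [v, sym_gt h1 hx1]
          · rw [hr x (by omega), sym_gt' (by omega) hx1] at v
            simp only [ver, h2.1, h2.2, or_self, if_false] at v
            rw [v, sym_gt' h1 hx1]
    · -- deposit
      rw [step_D hj hp]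
      have hplt : p < j := lt_of_le_of_ne hpj (Ne.symm hp)
      have hD : z (j, t) = D := by rw [hr j hpj, sym_head_D hj hp]
      have hP : ∀ x, p ≤ x → x < j → z (x, t) = P false := fun x h1 h2 => by
        rw [hr x h1, sym_lt' h2 hj]
      have hl1 := hl (p - 1) (by omega)
      refine ⟨?_, ?_⟩
      · intro x hx
        simp only at hx
        rcases lt_or_ge x p with h1 | h1
        · apply left_up hz (hl x h1)
          rcases lt_or_ge (x + 1) p with h2 | h2
          · rcases hl (x + 1) h2 with h1 | h1 <;> rw [h1] <;> simp
          · rw [hP (x + 1) h2 (by omega)]; simp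
        · have hxp : x = p := by omega
          subst hxp
          have v := (hz x t).2
          rw [hP x le_rfl hplt] at v
          simp only [ver, hl1, if_true] at v
          exact Or.inl v
      · intro x hx
        simp only at hx ⊢
        have v := (hz x t).2
        rcases lt_trichotomy x j with h1 | h1 | h1
        · -- zone cell
          rw [hP x (by omega) h1, hP (x - 1) (by omega) (by omega)] at v
          rcases eq_or_ne x (p + 1) with h2 | h2
          · subst h2
            rw [show p + 1 - 2 = p - 1 by ring] at v
            simp only [ver, reduceCtorEq, or_self, if_false, hl1, if_true] at v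
            rw [v, sym_head_K]
            intro h3
            rcases h3 with h3 | h3
            · omega
            · have := hS _ h3; omega
          · rw [hP (x - 2) (by omega) (by omega)] at v
            simp only [ver, reduceCtorEq, or_self, if_false] at v
            rw [v, sym_gt' (by omega)]
            intro h3
            rcases h3 with h3 | h3
            · omega
            · have := hS _ h3; omega
        · subst h1
          rw [hD] at v
          rcases eq_or_ne x (p + 1) with h2 | h2
          · subst h2
            rw [show p + 1 - 2 = p - 1 by ring] at v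
            simp only [ver, hl1, if_true] at v
            rw [v, sym_head_A (Set.mem_insert _ _)]
          · rw [hP (x - 2) (by omega) (by omega)] at v
            simp only [ver, reduceCtorEq, or_self, if_false] at v
            rw [v, sym_gt (by omega) (Set.mem_insert _ _)]
        · have h2 : z (x - 1, t) ≠ A ∧ z (x - 1, t) ≠ K := by
            rcases eq_or_ne x (j + 1) with h3 | h3
            · subst h3
              rw [show j + 1 - 1 = j by ring, hD]; simp
            · rw [hr (x - 1) (by omega)]
              by_cases h4 : x - 1 ∈ S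
              · rw [sym_gt (by omega) h4]; simp
              · rw [sym_gt' (by omega) h4]; simp
          by_cases hx1 : x ∈ S
          · rw [hr x (by omega), sym_gt (by omega) hx1] at v
            simp only [ver, h2.1, h2.2, or_self, if_false] at v
            rw [v, sym_gt (by omega) (Set.mem_insert_of_mem _ hx1)]
          · rw [hr x (by omega), sym_gt' (by omega) hx1] at v
            simp only [ver, h2.1, h2.2, or_self, if_false] at v
            rw [v, sym_gt' (by omega)]
            intro h3
            rcases h3 with h3 | h3
            · omega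
            · exact hx1 h3

theorem RowP.next_true (hz : Valid z) {t p : ℤ} (h : RowP z t p true) :
    ∃ f, RowP z (t + 1) (p - 1) f := by
  obtain ⟨hl, hr⟩ := h
  have hpC : z (p - 1, t) = C := by
    rcases hl (p - 1) (by omega) with h1 | h1
    · exact h1
    · have := (hz (p - 1) t).1
      rw [h1, sub_add_cancel, hr p le_rfl] at this
      simp [hor] at this
  obtain ⟨f, hf⟩ := flags_const hz (t := t + 1) (a := p - 1) (fun x hx => by
    have v := (hz x t).2
    rcases eq_or_ne x (p - 1) with h3 | h3
    · subst h3
      rw [hpC, sub_add_cancel, hr p le_rfl] at v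
      simp only [ver, true_or, if_true] at v
      exact v
    · rw [hr x (by omega)] at v
      exact v)
  refine ⟨f, ?_, hf⟩
  intro x hx
  apply left_up hz (hl x (by omega))
  rcases hl (x + 1) (by omega) with h1 | h1 <;> rw [h1] <;> simp

theorem RowP.next_false (hz : Valid z) {t p : ℤ} (h : RowP z t p false) :
    RowS z (t + 1) (p + 1, p + 1, ∅) := by
  obtain ⟨hl, hr⟩ := h
  have hl1 := hl (p - 1) (by omega)
  refine ⟨?_, ?_⟩
  · intro x hx
    simp only at hx
    rcases lt_or_ge x p with h1 | h1
    · apply left_up hz (hl x h1)
      rcases lt_or_ge (x + 1) p with h2 | h2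
      · rcases hl (x + 1) h2 with h1 | h1 <;> rw [h1] <;> simp
      · rw [hr (x + 1) h2]; simp
    · have hxp : x = p := by omega
      subst hxp
      have v := (hz x t).2
      rw [hr x le_rfl] at v
      simp only [ver, hl1, if_true] at v
      exact Or.inl v
  · intro x hx
    simp only at hx ⊢
    have v := (hz x t).2
    rw [hr x (by omega), hr (x - 1) (by omega)] at v
    rcases eq_or_ne x (p + 1) with h2 | h2
    · subst h2
      rw [show p + 1 - 2 = p - 1 by ring] at v
      simp only [ver, reduceCtorEq, or_self, if_false, hl1, if_true] at v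
      rw [v, sym_head_K (by simp)]
    · rw [hr (x - 2) (by omega)] at v
      simp only [ver, reduceCtorEq, or_self, if_false] at v
      rw [v, sym_gt' (by omega) (by simp)]

end steps

end Pool.Agent.MP_0cba1e_an.Rules
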